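import Pool.Agent.Lib.MP_9cc147_pr.Cx.A.Geo

/-! The coarse weights as sums over local configurations. -/

open scoped Classical
open Finset

noncomputable section
namespace Pool.Agent.Lib.MP_9cc147_pr.Cx

variable {L s0 : ℕ} {D U : Finset P} {C : P → St} {c : P → Sf}

theorem acw_reg (hL : 0 < L) (hU : U ⊆ D) {b : P} :
    b ∈ reg L D U ↔ b ∈ under L U ∨ b ∈ under L (bdry D U) := by
  rw [geo_mem_reg hL, geo_mem_under hL, geo_mem_under hL, geo_mem_bdry]
  refine ⟨fun h => ?_, fun h => h.elim (fun h => ⟨hU h, _, h, geo_nr_refl _ _⟩) fun h => h.1⟩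
  by_cases k : par L b ∈ U
  exacts [.inl k, .inr ⟨h, k⟩]

theorem acw_bad {R : Finset P} {b : P} : b ∈ bad R (red c) ↔ b ∈ R ∧ c b = none := by
  simp [bad, red]

theorem acw_lab {b : P} : lab (c b) = none ↔ c b = none := by simp [lab]

/-- with labelled surroundings the second class sits under `U` -/
theorem acw_ne (hL : 0 < L) (hU : U ⊆ D) {σ : P → Option Lab} (hσ : ∀ B ∈ bdry D U, σ B ≠ none)
    (h : ∀ b ∈ under L (bdry D U), lab (c b) = σ (par L b)) :
    (bad (reg L D U) (red c)).Nonempty ↔ ∃ b ∈ under L U, c b = none := by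
  refine ⟨fun ⟨b, hb⟩ => ?_, fun ⟨b, hb, e⟩ => ⟨b, acw_bad.2 ⟨(acw_reg hL hU).2 (.inl hb), e⟩⟩⟩
  obtain ⟨h1, h2⟩ := acw_bad.1 hb
  rcases (acw_reg hL hU).1 h1 with k | k
  · exact ⟨b, k, h2⟩
  · exact absurd ((h b k).symm.trans (acw_lab.2 h2)) (hσ _ ((geo_mem_under hL).1 k))

theorem acw_sig (hC : valid D C) {s : Lab} (hU : U ∈ comps (pol D C s)) :
    sig D C U = cst D U s := by
  funext b
  unfold sig cst
  split_ifs with hb
  · obtain ⟨⟨h1, a, ha, hn⟩, -⟩ := geo_mem_bdry.1 hb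
    obtain ⟨h2, h3⟩ := mem_filter.1 (geo_comps_sub hU ha)
    have k := hC a h2 b h1 hn
    rcases e : C b with _ | ⟨t, x⟩
    · exact absurd e (k.2 s h3)
    · rw [k.1 s t (by rw [h3]; rfl) (by rw [e]; rfl)]
      rfl
  · rfl

theorem acw_pol (hL : 0 < L) (hC : valid D C) {s : Lab} (hU : U ∈ comps (pol D C s))
    (T M : Lab → P → ℂ) (K : Lab → Finset P → ℂ) (N : Finset P → (P → Option Lab) → ℂ) :
    (L0 L s0 D U T M K s +
      if (bdry D U).Nonempty then L1 L s0 D U T M K N (cst D U s) else 0) =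
      ∑ c ∈ locC L s0 D C ⟨some s, U⟩, lw L s0 D U T M K N c := by
  have hD : U ⊆ D := (geo_comps_sub hU).trans (filter_subset _ _)
  have hs : ∀ b ∈ under L (bdry D U), cst D U s (par L b) = some s := fun b hb =>
    if_pos ((geo_mem_under hL).1 hb)
  have hσ : ∀ B ∈ bdry D U, cst D U s B ≠ none := fun B hB => by simp [cst, hB]
  have e0 : L0 L s0 D U T M K s = ∑ c ∈ loc0 L s0 D U s, lw L s0 D U T M K N c := by
    refine sum_congr rfl fun c hc => ?_
    have : bad (reg L D U) (red c) = ∅ := eq_empty_of_forall_notMem fun b hb => by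
      obtain ⟨h1, h2⟩ := acw_bad.1 hb
      have := (mem_filter.1 hc).2 b h1
      rw [acw_lab.2 h2] at this
      exact absurd this (by simp)
    simp only [lw, this, geo_comps_empty, prod_empty]
  have e1 : (if (bdry D U).Nonempty then L1 L s0 D U T M K N (cst D U s) else 0) =
      ∑ c ∈ (loc1 L s0 D U (cst D U s)).filter (fun _ => (bdry D U).Nonempty),
        lw L s0 D U T M K N c := by
    split_ifs with h
    · rw [filter_true_of_mem fun _ _ => h, L1]
    · rw [filter_false_of_mem fun _ _ => h, sum_empty]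
  rw [e0, e1, ← sum_union]
  · refine sum_congr ?_ fun _ _ => rfl
    ext c
    simp only [locC, loc0, loc1, mem_union, mem_filter, acw_sig hC hU, Typ]
    constructor
    · rintro (⟨h1, h2⟩ | ⟨⟨h1, h2, h3⟩, h4⟩)
      · exact ⟨h1, fun b hb => (h2 b ((acw_reg hL hD).2 (.inr hb))).trans (hs b hb).symm,
          .inl ⟨s, rfl, fun b hb => h2 b ((acw_reg hL hD).2 (.inl hb))⟩⟩
      · exact ⟨h1, h3, .inr ⟨(acw_ne hL hD hσ h3).1 h2,
          ⟨fun k => absurd k (by simp), fun k => absurd ⟨h4, s, rfl⟩ k⟩⟩⟩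
    · rintro ⟨h1, h2, ⟨t, e, h3⟩ | ⟨h3, h4⟩⟩
      · obtain rfl := Option.some.inj e
        exact .inl ⟨h1, fun b hb => ((acw_reg hL hD).1 hb).elim (h3 b) fun k =>
          (h2 b k).trans (hs b k)⟩
      · refine .inr ⟨⟨h1, (acw_ne hL hD hσ h2).2 h3, h2⟩, ?_⟩
        by_contra k
        exact absurd (h4.2 fun n => k n.1) (by simp)
  · refine disjoint_left.2 fun c h1 h2 => ?_
    obtain ⟨b, hb⟩ := (mem_filter.1 (mem_filter.1 h2).1).2.1
    obtain ⟨k1, k2⟩ := acw_bad.1 hb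
    have := (mem_filter.1 h1).2 b k1
    rw [acw_lab.2 k2] at this
    exact absurd this (by simp)

theorem acw_non (hL : 0 < L) (hU : U ∈ comps (bad D C))
    (T M : Lab → P → ℂ) (K : Lab → Finset P → ℂ) (N : Finset P → (P → Option Lab) → ℂ) :
    (if Nn D U (sig D C U) then L1 L s0 D U T M K N (sig D C U) else 0) =
      ∑ c ∈ locC L s0 D C ⟨none, U⟩, lw L s0 D U T M K N c := by
  have hD : U ⊆ D := (geo_comps_sub hU).trans (filter_subset _ _)
  have hσ : ∀ B ∈ bdry D U, sig D C U B ≠ none := fun B hB e => by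
    obtain ⟨⟨h1, a, ha, hn⟩, h2⟩ := geo_mem_bdry.1 hB
    rw [sig, if_pos hB] at e
    exact h2 (geo_comps_adj hU ha (mem_filter.2 ⟨h1, by simpa [lab] using e⟩) hn)
  split_ifs with h
  · refine sum_congr ?_ fun _ _ => rfl
    ext c
    simp only [locC, loc1, mem_filter, Typ]
    constructor
    · rintro ⟨h1, h2, h3⟩
      exact ⟨h1, h3, .inr ⟨(acw_ne hL hD hσ h3).1 h2, by simp [h.1]⟩⟩
    · rintro ⟨h1, h2, ⟨t, e, -⟩ | ⟨h3, -⟩⟩
      · exact absurd e (by simp)
      · exact ⟨h1, (acw_ne hL hD hσ h2).2 h3, h2⟩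
  · refine (sum_eq_zero fun c hc => absurd ⟨?_, fun b hb => if_neg hb⟩ h).symm
    rcases (mem_filter.1 hc).2.2 with ⟨t, e, -⟩ | ⟨-, h3⟩
    · exact absurd e (by simp)
    · exact h3.1 rfl

theorem t_a_cw : S_a_cw := by
  intro L s0 D T M K N C hL hC
  rw [jj, prod_sigma, Fintype.prod_option, mul_comm]
  congr 1
  · exact prod_congr rfl fun U hU => acw_non hL hU T M K N
  · exact prod_congr rfl fun s _ => prod_congr rfl fun U hU => acw_pol hL hC hU T M K N

end Pool.Agent.Lib.MP_9cc147_pr.Cx
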