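import Pool.Agent.Lib.MP_9cc147_pr.Cx.A.S

/-! Expansion of a labelled polymer sum in marks and flags. -/

open scoped Classical
open Finset

noncomputable section
namespace Pool.Agent.Lib.MP_9cc147_pr.Cx

lemma exp_two {α : Type} [DecidableEq α] {A B : Finset α} (h : Disjoint A B) (f g : Finset α → ℂ) :
    ∑ Z ∈ (A ∪ B).powerset, f (Z ∩ A) * g (Z ∩ B) =
      (∑ Z ∈ A.powerset, f Z) * ∑ Z ∈ B.powerset, g Z := by
  rw [sum_mul_sum, ← sum_product']
  have hd := disjoint_left.1 h
  refine sum_nbij' (fun Z => (Z ∩ A, Z ∩ B)) (fun p => p.1 ∪ p.2) ?_ ?_ ?_ ?_ ?_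
  · intro Z _
    simp
  · intro p hp
    simp only [mem_product, mem_powerset] at hp ⊢
    exact union_subset_union hp.1 hp.2
  · intro Z hZ
    rw [← inter_union_distrib_left, inter_eq_left.2 (mem_powerset.1 hZ)]
  · intro p hp
    simp only [mem_product, mem_powerset] at hp
    refine Prod.ext ?_ ?_ <;> ext x <;> simp only [mem_inter, mem_union]
    · exact ⟨fun h => h.1.resolve_right fun e => hd h.2 (hp.2 e), fun h => ⟨Or.inl h, hp.1 h⟩⟩
    · exact ⟨fun h => h.1.resolve_left fun e => hd (hp.1 e) h.2, fun h => ⟨Or.inr h, hp.2 h⟩⟩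
  · intro Z _
    rfl

lemma exp_many {α ι : Type} [DecidableEq α] (J : Finset ι) (S : ι → Finset α)
    (h : ∀ i ∈ J, ∀ k ∈ J, i ≠ k → Disjoint (S i) (S k)) (f : ι → Finset α → ℂ) :
    ∑ Z ∈ (J.biUnion S).powerset, ∏ i ∈ J, f i (Z ∩ S i) =
      ∏ i ∈ J, ∑ Z ∈ (S i).powerset, f i Z := by
  induction J using Finset.induction_on with
  | empty => simp
  | insert i J hi ih =>
    rw [biUnion_insert, prod_insert hi, ← ih fun a ha b hb =>
      h a (mem_insert_of_mem ha) b (mem_insert_of_mem hb), ← exp_two ((disjoint_biUnion_right _ _ _).2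
        fun k hk => h i (mem_insert_self _ _) k (mem_insert_of_mem hk) fun e => hi (e ▸ hk))]
    refine sum_congr rfl fun Z _ => ?_
    rw [prod_insert hi]
    refine congrArg _ (prod_congr rfl fun k hk => ?_)
    rw [inter_assoc, inter_eq_right.2 (subset_biUnion_of_mem S hk)]

lemma exp_symm {Y : Finset P} {a b : P} (h : Relation.ReflTransGen (lnk Y) a b) :
    Relation.ReflTransGen (lnk Y) b a := by
  induction h with
  | refl => exact .refl
  | tail _ h ih =>
    exact .head ⟨h.2.1, h.1, by rw [abs_sub_comm]; exact h.2.2.1, by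
      rw [abs_sub_comm]; exact h.2.2.2⟩ ih

lemma exp_disj (Y : Finset P) : ∀ X ∈ comps Y, ∀ X' ∈ comps Y, X ≠ X' → Disjoint X X' := by
  intro X hX X' hX' h
  obtain ⟨a, -, rfl⟩ := mem_image.1 hX
  obtain ⟨b, -, rfl⟩ := mem_image.1 hX'
  refine disjoint_left.2 fun x h1 h2 => h (filter_congr fun y _ => ?_)
  have h1 := (mem_filter.1 h1).2
  have h2 := (mem_filter.1 h2).2
  exact ⟨fun e => (h2.trans (exp_symm h1)).trans e, fun e => (h1.trans (exp_symm h2)).trans e⟩

lemma exp_cover (Y : Finset P) : (comps Y).biUnion (fun X => X) = Y := by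
  ext x
  simp only [mem_biUnion, comps, mem_image]
  constructor
  · rintro ⟨_, ⟨a, -, rfl⟩, h⟩
    exact (mem_filter.1 h).1
  · exact fun h => ⟨_, ⟨x, h, rfl⟩, mem_filter.2 ⟨h, .refl⟩⟩

lemma exp_sub {Y X : Finset P} (h : X ∈ comps Y) : X ⊆ Y ∧ X.Nonempty := by
  obtain ⟨a, ha, rfl⟩ := mem_image.1 h
  exact ⟨filter_subset _ _, a, mem_filter.2 ⟨ha, .refl⟩⟩

/-- the weight of the set `Z` of flags on `X` -/
def expF (s0 : ℕ) (X Z : Finset P) : ℂ :=
  if X.card ≤ s0 then (if Z.card = 1 then (X.card : ℂ)⁻¹ else 0)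
  else (if Z.card = 0 then 1 else 0)

lemma exp_one (s0 : ℕ) {X : Finset P} (h : X.Nonempty) : ∑ Z ∈ X.powerset, expF s0 X Z = 1 := by
  unfold expF
  split_ifs
  · rw [← sum_filter, sum_const, ← powersetCard_eq_filter, card_powersetCard, Nat.choose_one_right,
      nsmul_eq_mul, mul_inv_cancel₀ (by exact_mod_cast h.card_pos.ne')]
  · rw [← sum_filter, sum_const, ← powersetCard_eq_filter, card_powersetCard]
    simp

lemma exp_mem {S : Type} [Fintype S] {d : S} {R : Finset P} {c : P → S} :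
    c ∈ cfgs univ d R ↔ ∀ x, x ∉ R → c x = d := by
  simp only [cfgs, mem_image]
  constructor
  · rintro ⟨f, -, rfl⟩ x hx
    exact dif_neg hx
  · refine fun h => ⟨fun x _ => c x, by simp, funext fun x => ?_⟩
    split_ifs with hx
    exacts [rfl, (h x hx).symm]

/-- the fine configuration over `c` with the marks and flags on `Z` -/
def expU (c : P → St) (Z : Finset P) : P → Sf := fun b => (c b).map fun x =>
  (x.1, if x.2 then (if b ∈ Z then 3 else 2) else (if b ∈ Z then 1 else 0))

lemma exp_red (c : P → St) (Z : Finset P) : red (expU c Z) = c := by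
  funext b
  unfold red expU
  rcases c b with _ | ⟨s, _ | _⟩ <;> by_cases h : b ∈ Z <;> simp [h]

lemma exp_fib (s0 : ℕ) (R : Finset P) (T M : Lab → P → ℂ) (K : Lab → Finset P → ℂ)
    (N : Finset P → (P → Option Lab) → ℂ) (c : P → St) (Z : Finset P) :
    gw s0 R T M K N (expU c Z) =
      ((∏ s, (∏ B ∈ fre R c s, T s B) * ∏ X ∈ comps (pol R c s), K s X * ∏ B ∈ X, T s B) *
        ∏ X ∈ comps (bad R c), N X (sig R c X)) *
      ∏ s, (∏ B ∈ Z ∩ (fre R c s ∪ pol R c s) ∩ fre R c s, M s B) *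
        ∏ X ∈ comps (pol R c s), expF s0 X (Z ∩ (fre R c s ∪ pol R c s) ∩ pol R c s ∩ X) := by
  have e1 : ∀ s, ∏ B ∈ R.filter (fun b => lab (expU c Z b) = some s), T s B =
      (∏ B ∈ fre R c s, T s B) * ∏ X ∈ comps (pol R c s), ∏ B ∈ X, T s B := fun s => by
    rw [← prod_biUnion fun X hX X' hX' h => exp_disj _ X hX X' hX' h, exp_cover,
      ← prod_union (disjoint_left.2 fun x h1 h2 => by
        simpa [(mem_filter.1 h1).2] using (mem_filter.1 h2).2)]
    refine prod_congr ?_ fun _ _ => rfl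
    ext b
    simp only [fre, pol, mem_union, mem_filter, ← and_or_left]
    unfold expU lab
    rcases c b with _ | ⟨t, _ | _⟩ <;> simp
  have e2 : ∀ s, R.filter (fun b => expU c Z b = some (s, 1)) =
      Z ∩ (fre R c s ∪ pol R c s) ∩ fre R c s := fun s => by
    rw [inter_assoc, inter_eq_right.2 subset_union_left]
    ext b
    simp only [fre, mem_inter, mem_filter]
    unfold expU
    rcases c b with _ | ⟨t, _ | _⟩ <;> by_cases h : b ∈ Z <;> simp [h]
  have e3 : ∀ s, ∀ X ∈ comps (pol R c s), fw s0 (expU c Z) X =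
      expF s0 X (Z ∩ (fre R c s ∪ pol R c s) ∩ pol R c s ∩ X) := fun s X hX => by
    have : kind X (expU c Z) 3 = Z ∩ (fre R c s ∪ pol R c s) ∩ pol R c s ∩ X := by
      rw [inter_assoc Z, inter_eq_right.2 subset_union_right, inter_assoc,
        inter_eq_right.2 (exp_sub hX).1]
      ext b
      simp only [kind, mem_inter, mem_filter, and_comm (a := b ∈ Z)]
      refine and_congr_right fun hb => ?_
      rw [expU, (mem_filter.1 ((exp_sub hX).1 hb)).2]
      by_cases h : b ∈ Z <;> simp [h]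
    rw [fw, this, expF]
  have e4 : ∀ s, ∏ X ∈ comps (pol R c s), fw s0 (expU c Z) X * K s X = ∏ X ∈ comps (pol R c s),
      expF s0 X (Z ∩ (fre R c s ∪ pol R c s) ∩ pol R c s ∩ X) * K s X :=
    fun s => prod_congr rfl fun X hX => by rw [e3 s X hX]
  simp only [gw, exp_red, e1, e2, e4]
  simp only [prod_mul_distrib]
  ring

theorem exp_main (s0 : ℕ) (R : Finset P) (I T M : Lab → P → ℂ) (K Kh : Lab → Finset P → ℂ)
    (N : Finset P → (P → Option Lab) → ℂ) (hI : ∀ s, ∀ B ∈ R, I s B = T s B * (1 + M s B))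
    (hK : ∀ s X, X ⊆ R → K s X = Kh s X * ∏ B ∈ X, T s B) :
    Wsum R I K N = ∑ c ∈ (cfgs univ none R).filter (fun c => valid R (red c)),
      gw s0 R T M Kh N c := by
  rw [Wsum, ← sum_fiberwise_of_maps_to (g := red)
    (t := (cfgs univ none R).filter (valid R)) fun c hc => by
      rw [mem_filter, exp_mem] at hc ⊢
      exact ⟨fun x hx => by simp [red, hc.1 x hx], hc.2⟩]
  refine sum_congr rfl fun c hc => ?_
  rw [mem_filter, exp_mem] at hc
  have hd : ∀ s, Disjoint (fre R c s) (pol R c s) := fun s => disjoint_left.2 fun x h1 h2 => by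
    simpa [(mem_filter.1 h1).2] using (mem_filter.1 h2).2
  have inv : ∀ f : P → Sf, (∀ x, x ∉ R → f x = none) → expU (red f)
      (R.filter fun b => ∃ s, f b = some (s, 1) ∨ f b = some (s, 3)) = f := fun f hf => by
    funext b
    by_cases hb : b ∈ R
    · simp only [expU, red, mem_filter, hb, true_and]
      rcases f b with _ | ⟨s, i⟩
      · rfl
      · fin_cases i <;> simp
    · simp [expU, red, hf b hb]
  rw [sum_nbij' (s := _) (t := (univ.biUnion fun s => fre R c s ∪ pol R c s).powerset)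
    (g := fun Z => gw s0 R T M Kh N (expU c Z))
    (fun f => R.filter fun b => ∃ s, f b = some (s, 1) ∨ f b = some (s, 3)) (expU c)]
  · simp only [exp_fib, ← mul_sum]
    rw [exp_many univ (fun s => fre R c s ∪ pol R c s) (fun s _ t _ h => disjoint_left.2
      fun x h1 h2 => h (by
        simp only [fre, pol, mem_union, mem_filter] at h1 h2
        rcases h1 with h1 | h1 <;> rcases h2 with h2 | h2 <;>
          simpa [lab] using congrArg lab (h1.2.symm.trans h2.2)))
      fun s Z => (∏ B ∈ Z ∩ fre R c s, M s B) *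
        ∏ X ∈ comps (pol R c s), expF s0 X (Z ∩ pol R c s ∩ X)]
    have : ∀ s, ∑ Z ∈ (fre R c s ∪ pol R c s).powerset, (∏ B ∈ Z ∩ fre R c s, M s B) *
        ∏ X ∈ comps (pol R c s), expF s0 X (Z ∩ pol R c s ∩ X) =
          ∏ B ∈ fre R c s, (1 + M s B) := fun s => by
      rw [exp_two (hd s) (fun Z => ∏ B ∈ Z, M s B)
        fun Z => ∏ X ∈ comps (pol R c s), expF s0 X (Z ∩ X), ← prod_one_add]
      have := exp_many (comps (pol R c s)) (fun X => X) (exp_disj _) (expF s0)
      rw [exp_cover] at this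
      rw [this, prod_eq_one fun X hX => exp_one s0 (exp_sub hX).2, mul_one]
    have e1 : ∀ s, ∏ B ∈ fre R c s, I s B = ∏ B ∈ fre R c s, T s B * (1 + M s B) :=
      fun s => prod_congr rfl fun B hB => hI s B (mem_filter.1 hB).1
    have e2 : ∀ s, ∏ X ∈ comps (pol R c s), K s X =
        ∏ X ∈ comps (pol R c s), Kh s X * ∏ B ∈ X, T s B := fun s => prod_congr rfl fun X hX =>
      hK s X ((exp_sub hX).1.trans (filter_subset _ _))
    simp only [this, e1, e2, prod_mul_distrib]
    ring
  · intro f hf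
    simp only [mem_filter] at hf
    refine mem_powerset.2 fun b hb => ?_
    obtain ⟨hb, s, h⟩ := mem_filter.1 hb
    refine mem_biUnion.2 ⟨s, mem_univ _, ?_⟩
    simp only [fre, pol, mem_union, mem_filter, hb, true_and, ← hf.2, red]
    rcases h with h | h <;> simp [h]
  · intro Z _
    simp only [mem_filter, exp_mem, exp_red]
    exact ⟨⟨fun x hx => by simp [expU, hc.1 x hx], hc.2⟩, trivial⟩
  · intro f hf
    simp only [mem_filter, exp_mem] at hf
    rw [← hf.2, inv f hf.1.1]
  · intro Z hZ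
    ext b
    simp only [mem_filter]
    unfold expU
    constructor
    · rintro ⟨-, s, h⟩
      by_contra hb
      revert h
      rcases c b with _ | ⟨t, _ | _⟩ <;> simp [hb]
    · intro hb
      obtain ⟨s, -, h⟩ := mem_biUnion.1 (mem_powerset.1 hZ hb)
      simp only [fre, pol, mem_union, mem_filter] at h
      rcases h with h | h <;> exact ⟨h.1, s, by simp [h.2, hb]⟩
  · intro f hf
    simp only [mem_filter, exp_mem] at hf
    rw [← hf.2, inv f hf.1.1]

theorem t_a_exp : S_a_exp := exp_main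

end Pool.Agent.Lib.MP_9cc147_pr.Cx
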