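import Pool.Agent.Lib.MP_9cc147_pr.Cx.A.S

/-! Geometry kit: configurations, cells, components, diameter. -/

open scoped Classical
open Finset

noncomputable section
namespace Pool.Agent.Lib.MP_9cc147_pr.Cx

theorem geo_mem_cfgs {ι S : Type} [Fintype S] {d : S} {R : Finset ι} {f : ι → S} :
    f ∈ cfgs univ d R ↔ ∀ x, x ∉ R → f x = d := by
  unfold cfgs
  simp only [mem_image, mem_pi, mem_univ, implies_true, true_and]
  constructor
  · rintro ⟨g, rfl⟩ x hx
    simp [hx]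
  · intro h
    refine ⟨fun x _ => f x, funext fun x => ?_⟩
    by_cases hx : x ∈ R
    · simp [hx]
    · simp [hx, h x hx]

theorem geo_nr_refl (k : ℕ) (a : P) : nr k a a := by simp [nr]

theorem geo_nr_symm {k : ℕ} {a b : P} (h : nr k a b) : nr k b a :=
  ⟨by rw [abs_sub_comm]; exact h.1, by rw [abs_sub_comm]; exact h.2⟩

theorem geo_nr_mono {k l : ℕ} {a b : P} (h : nr k a b) (hl : k ≤ l) : nr l a b :=
  ⟨h.1.trans (by exact_mod_cast hl), h.2.trans (by exact_mod_cast hl)⟩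

theorem geo_nr_iff {k : ℕ} {a b : P} : nr k a b ↔
    (a.1 - b.1 ≤ k ∧ b.1 - a.1 ≤ k) ∧ (a.2 - b.2 ≤ k ∧ b.2 - a.2 ≤ k) := by
  simp only [nr, abs_sub_le_iff]

theorem geo_nr_trans {k l : ℕ} {a b c : P} (h : nr k a b) (h' : nr l b c) : nr (k + l) a c := by
  rw [geo_nr_iff] at *
  push_cast
  omega

theorem geo_div_iff {L : ℕ} (hL : 0 < L) (x y : ℤ) :
    x / L = y ↔ y * L ≤ x ∧ x < (y + 1) * L := by
  have h : (0 : ℤ) < L := by exact_mod_cast hL
  rw [← Int.le_ediv_iff_mul_le h, ← Int.ediv_lt_iff_lt_mul h]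
  omega

theorem geo_mem_cell {L : ℕ} (hL : 0 < L) {a B : P} : a ∈ cell L B ↔ par L a = B := by
  simp only [cell, par, mem_product, mem_Ico, Prod.ext_iff, geo_div_iff hL]

theorem geo_mem_under {L : ℕ} (hL : 0 < L) {a : P} {U : Finset P} :
    a ∈ under L U ↔ par L a ∈ U := by
  simp only [under, mem_biUnion, geo_mem_cell hL]
  exact ⟨fun ⟨_, h, e⟩ => e ▸ h, fun h => ⟨_, h, rfl⟩⟩

theorem geo_under_mono {L : ℕ} {U W : Finset P} (h : U ⊆ W) : under L U ⊆ under L W :=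
  biUnion_subset_biUnion_of_subset_left _ h

theorem geo_par_corner {L : ℕ} (hL : 0 < L) (B : P) : par L (B.1 * L, B.2 * L) = B := by
  have h : (L : ℤ) ≠ 0 := by exact_mod_cast hL.ne'
  simp [par, Int.mul_ediv_cancel _ h]

theorem geo_cell_ne {L : ℕ} (hL : 0 < L) (B : P) : ∃ a, par L a = B := ⟨_, geo_par_corner hL B⟩

theorem geo_div_near {L : ℕ} (hL : 0 < L) {x y : ℤ} (h : x - y ≤ L) : x / L - y / L ≤ 1 := by
  have h0 : (0 : ℤ) < L := by exact_mod_cast hL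
  have h1 : x / L ≤ (y + 1 * L) / L := Int.ediv_le_ediv h0 (by omega)
  rw [Int.add_mul_ediv_right _ _ h0.ne'] at h1
  omega

/-- points at distance at most `L` lie in adjacent cells -/
theorem geo_par_nr {L : ℕ} (hL : 0 < L) {a b : P} (h : nr L a b) : nr 1 (par L a) (par L b) := by
  rw [geo_nr_iff] at *
  exact ⟨⟨geo_div_near hL h.1.1, geo_div_near hL h.1.2⟩, geo_div_near hL h.2.1,
    geo_div_near hL h.2.2⟩

theorem geo_adj1 {L : ℕ} (hL : 0 < L) {A B : ℤ} (h1 : A - B ≤ 1) (h2 : B - A ≤ 1) :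
    ∃ x y : ℤ, x / L = A ∧ y / L = B ∧ x - y ≤ 1 ∧ y - x ≤ 1 := by
  have h0 : (0 : ℤ) < L := by exact_mod_cast hL
  simp only [geo_div_iff hL]
  rcases (by omega : A = B ∨ A = B + 1 ∨ B = A + 1) with rfl | rfl | rfl
  · exact ⟨A * L, A * L, ⟨le_rfl, by nlinarith⟩, ⟨le_rfl, by nlinarith⟩, by simp, by simp⟩
  · exact ⟨(B + 1) * L, (B + 1) * L - 1, ⟨le_rfl, by nlinarith⟩, ⟨by nlinarith, by omega⟩,
      by omega, by omega⟩
  · exact ⟨(A + 1) * L - 1, (A + 1) * L, ⟨by nlinarith, by omega⟩, ⟨le_rfl, by nlinarith⟩,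
      by omega, by omega⟩

/-- adjacent cells contain adjacent points -/
theorem geo_adj_pts {L : ℕ} (hL : 0 < L) {A B : P} (h : nr 1 A B) :
    ∃ a b, par L a = A ∧ par L b = B ∧ nr 1 a b := by
  rw [geo_nr_iff] at h
  obtain ⟨x, y, h1, h2, h3, h4⟩ := geo_adj1 hL h.1.1 h.1.2
  obtain ⟨x', y', h1', h2', h3', h4'⟩ := geo_adj1 hL h.2.1 h.2.2
  exact ⟨(x, x'), (y, y'), Prod.ext h1 h1', Prod.ext h2 h2', geo_nr_iff.2 ⟨⟨h3, h4⟩, h3', h4'⟩⟩

theorem geo_lnk_symm {Y : Finset P} {a b : P} (h : lnk Y a b) : lnk Y b a :=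
  ⟨h.2.1, h.1, geo_nr_symm h.2.2⟩

theorem geo_rt_symm {Y : Finset P} {a b : P} (h : Relation.ReflTransGen (lnk Y) a b) :
    Relation.ReflTransGen (lnk Y) b a := by
  induction h with
  | refl => exact .refl
  | tail _ h2 ih => exact .head (geo_lnk_symm h2) ih

theorem geo_rt_mono {Y W : Finset P} (hW : Y ⊆ W) {a b : P}
    (h : Relation.ReflTransGen (lnk Y) a b) : Relation.ReflTransGen (lnk W) a b :=
  Relation.ReflTransGen.mono (fun _ _ h => ⟨hW h.1, hW h.2.1, h.2.2⟩) _ _ h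

theorem geo_mem_comp {Y : Finset P} {a b : P} :
    b ∈ comp Y a ↔ b ∈ Y ∧ Relation.ReflTransGen (lnk Y) a b := mem_filter

theorem geo_comp_sub (Y : Finset P) (a : P) : comp Y a ⊆ Y := filter_subset _ _

theorem geo_self_comp {Y : Finset P} {a : P} (h : a ∈ Y) : a ∈ comp Y a :=
  geo_mem_comp.2 ⟨h, .refl⟩

theorem geo_comp_eq {Y : Finset P} {a b : P} (h : b ∈ comp Y a) : comp Y b = comp Y a := by
  have h' := (geo_mem_comp.1 h).2
  ext x
  simp only [geo_mem_comp]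
  exact and_congr_right fun _ => ⟨fun hx => h'.trans hx, fun hx => (geo_rt_symm h').trans hx⟩

theorem geo_comp_adj {Y : Finset P} {a b x : P} (h : b ∈ comp Y a) (hx : x ∈ Y)
    (hn : nr 1 b x) : x ∈ comp Y a :=
  geo_mem_comp.2 ⟨hx, (geo_mem_comp.1 h).2.tail ⟨(geo_mem_comp.1 h).1, hx, hn⟩⟩

/-- a set closed under adjacency inside `Y` contains the components of its points -/
theorem geo_rt_closed {Y X : Finset P} (hX : ∀ a ∈ X, ∀ b ∈ Y, nr 1 a b → b ∈ X) {a b : P}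
    (ha : a ∈ X) (h : Relation.ReflTransGen (lnk Y) a b) :
    b ∈ X ∧ Relation.ReflTransGen (lnk X) a b := by
  induction h with
  | refl => exact ⟨ha, .refl⟩
  | tail _ h2 ih =>
    have := hX _ ih.1 _ h2.2.1 h2.2.2
    exact ⟨this, ih.2.tail ⟨ih.1, this, h2.2.2⟩⟩

theorem geo_comp_closed {Y X : Finset P} (hs : X ⊆ Y)
    (hX : ∀ a ∈ X, ∀ b ∈ Y, nr 1 a b → b ∈ X) {a : P} (ha : a ∈ X) : comp Y a = comp X a := by
  ext b
  simp only [geo_mem_comp]
  exact ⟨fun h => geo_rt_closed hX ha h.2, fun h => ⟨hs h.1, geo_rt_mono hs h.2⟩⟩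

theorem geo_conn_comp {Y : Finset P} {a : P} (h : a ∈ Y) : Conn (comp Y a) := by
  refine ⟨⟨a, geo_self_comp h⟩, fun x hx y hy => ?_⟩
  have key : ∀ z ∈ comp Y a, Relation.ReflTransGen (lnk (comp Y a)) a z := fun z hz =>
    (geo_rt_closed (X := comp Y a) (fun _ hu _ hv hn => geo_comp_adj hu hv hn)
      (geo_self_comp h) (geo_mem_comp.1 hz).2).2
  exact (geo_rt_symm (key x hx)).trans (key y hy)

theorem geo_mem_comps {Y X : Finset P} : X ∈ comps Y ↔ ∃ a ∈ Y, comp Y a = X := mem_image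

theorem geo_comps_sub {Y X : Finset P} (h : X ∈ comps Y) : X ⊆ Y := by
  obtain ⟨a, -, rfl⟩ := geo_mem_comps.1 h
  exact geo_comp_sub _ _

theorem geo_comps_conn {Y X : Finset P} (h : X ∈ comps Y) : Conn X := by
  obtain ⟨a, ha, rfl⟩ := geo_mem_comps.1 h
  exact geo_conn_comp ha

theorem geo_comps_eq {Y X : Finset P} (h : X ∈ comps Y) {b : P} (hb : b ∈ X) : comp Y b = X := by
  obtain ⟨a, -, rfl⟩ := geo_mem_comps.1 h
  exact geo_comp_eq hb

theorem geo_comps_adj {Y X : Finset P} (h : X ∈ comps Y) {a b : P} (ha : a ∈ X) (hb : b ∈ Y)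
    (hn : nr 1 a b) : b ∈ X := by
  obtain ⟨x, -, rfl⟩ := geo_mem_comps.1 h
  exact geo_comp_adj ha hb hn

/-- two adjacent (or overlapping) components are equal -/
theorem geo_comps_uniq {Y X X' : Finset P} (h : X ∈ comps Y) (h' : X' ∈ comps Y) {a b : P}
    (ha : a ∈ X) (hb : b ∈ X') (hn : nr 1 a b) : X = X' := by
  rw [← geo_comps_eq h (geo_comps_adj h ha (geo_comps_sub h' hb) hn), geo_comps_eq h' hb]

theorem geo_comp_mem {Y : Finset P} {a : P} (h : a ∈ Y) : comp Y a ∈ comps Y :=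
  mem_image_of_mem _ h

theorem geo_comps_empty : comps ∅ = ∅ := by simp [comps]

theorem geo_comps_iff {Y X : Finset P} :
    X ∈ comps Y ↔ Conn X ∧ X ⊆ Y ∧ ∀ a ∈ X, ∀ b ∈ Y, nr 1 a b → b ∈ X := by
  refine ⟨fun h => ⟨geo_comps_conn h, geo_comps_sub h, fun a ha b hb hn =>
    geo_comps_adj h ha hb hn⟩, fun ⟨hc, hs, hX⟩ => ?_⟩
  obtain ⟨a, ha⟩ := hc.1
  refine geo_mem_comps.2 ⟨a, hs ha, ?_⟩
  rw [geo_comp_closed hs hX ha]
  exact filter_true_of_mem fun b hb => hc.2 a ha b hb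

theorem geo_comps_of_conn {X : Finset P} (h : Conn X) : comps X = {X} := by
  ext W
  rw [mem_singleton]
  refine ⟨fun hW => ?_, fun e =>
    e.symm ▸ geo_comps_iff.2 ⟨h, Subset.rfl, fun _ _ _ hb _ => hb⟩⟩
  obtain ⟨a, ha, rfl⟩ := geo_mem_comps.1 hW
  exact filter_true_of_mem fun b hb => h.2 a ha b hb

/-- a function that agrees on adjacent points of a connected set is constant on it -/
theorem geo_conn_const {α : Sort*} {X : Finset P} (h : Conn X) (f : P → α)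
    (hf : ∀ a ∈ X, ∀ b ∈ X, nr 1 a b → f a = f b) {a b : P} (ha : a ∈ X) (hb : b ∈ X) :
    f a = f b := by
  have := h.2 a ha b hb
  clear hb
  induction this with
  | refl => rfl
  | tail _ h2 ih => exact ih.trans (hf _ h2.1 _ h2.2.1 h2.2.2)

/-- components of a union of pairwise non adjacent sets -/
theorem geo_comps_biUnion {ι : Type} (J : Finset ι) (Y : ι → Finset P)
    (h : ∀ j ∈ J, ∀ k ∈ J, j ≠ k → ∀ a ∈ Y j, ∀ b ∈ Y k, ¬ nr 1 a b) :
    comps (J.biUnion Y) = J.biUnion fun j => comps (Y j) := by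
  have key : ∀ j ∈ J, ∀ a ∈ Y j, comp (J.biUnion Y) a = comp (Y j) a := fun j hj a ha =>
    geo_comp_closed (subset_biUnion_of_mem Y hj) (fun x hx y hy hn => by
      obtain ⟨k, hk, hy⟩ := mem_biUnion.1 hy
      by_cases e : j = k
      · exact e ▸ hy
      · exact absurd hn (h j hj k hk e x hx y hy)) ha
  ext X
  simp only [geo_mem_comps, mem_biUnion]
  constructor
  · rintro ⟨a, ⟨j, hj, ha⟩, rfl⟩
    exact ⟨j, hj, a, ha, (key j hj a ha).symm⟩
  · rintro ⟨j, hj, a, ha, rfl⟩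
    exact ⟨a, ⟨j, hj, ha⟩, key j hj a ha⟩

theorem geo_prod_comps {ι : Type} (J : Finset ι) (Y : ι → Finset P)
    (h : ∀ j ∈ J, ∀ k ∈ J, j ≠ k → ∀ a ∈ Y j, ∀ b ∈ Y k, ¬ nr 1 a b) (f : Finset P → ℂ) :
    ∏ X ∈ comps (J.biUnion Y), f X = ∏ j ∈ J, ∏ X ∈ comps (Y j), f X := by
  rw [geo_comps_biUnion J Y h, prod_biUnion]
  intro j hj k hk e
  refine disjoint_left.2 fun X h1 h2 => ?_
  obtain ⟨a, ha⟩ := (geo_comps_conn h1).1
  exact h j hj k hk e a (geo_comps_sub h1 ha) a (geo_comps_sub h2 ha) (geo_nr_refl _ _)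

theorem geo_ivt {X : Finset P} (f : P → ℤ) (hf : ∀ a b, nr 1 a b → f b ≤ f a + 1) {a b : P}
    (ha : a ∈ X) (h : Relation.ReflTransGen (lnk X) a b) :
    ∀ t, f a ≤ t → t ≤ f b → ∃ x ∈ X, f x = t := by
  induction h with
  | refl => exact fun t h1 h2 => ⟨a, ha, le_antisymm h1 h2⟩
  | @tail u v _ h2 ih =>
    intro t h1 h3
    by_cases e : t ≤ f u
    · exact ih t h1 e
    · exact ⟨v, h2.2.1, by have := hf u v h2.2.2; omega⟩

theorem geo_diam1 {X : Finset P} (hX : Conn X) (f : P → ℤ)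
    (hf : ∀ a b, nr 1 a b → f b ≤ f a + 1) {a b : P} (ha : a ∈ X) (hb : b ∈ X) :
    f b - f a + 1 ≤ X.card := by
  have h1 : Icc (f a) (f b) ⊆ X.image f := fun t ht => by
    obtain ⟨x, hx, e⟩ := geo_ivt f hf ha (hX.2 a ha b hb) t (mem_Icc.1 ht).1 (mem_Icc.1 ht).2
    exact mem_image.2 ⟨x, hx, e⟩
  have h2 := (card_le_card h1).trans card_image_le
  rw [Int.card_Icc] at h2
  omega

/-- the diameter of a connected set is smaller than its cardinality -/
theorem geo_diam {X : Finset P} (hX : Conn X) {a b : P} (ha : a ∈ X) (hb : b ∈ X) :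
    nr (X.card - 1) a b := by
  have f1 : ∀ a b : P, nr 1 a b → b.1 ≤ a.1 + 1 := fun a b h => by
    have := (geo_nr_iff.1 h).1.2; omega
  have f2 : ∀ a b : P, nr 1 a b → b.2 ≤ a.2 + 1 := fun a b h => by
    have := (geo_nr_iff.1 h).2.2; omega
  have := geo_diam1 hX _ f1 ha hb
  have := geo_diam1 hX _ f1 hb ha
  have := geo_diam1 hX _ f2 ha hb
  have := geo_diam1 hX _ f2 hb ha
  have := card_pos.2 hX.1
  rw [geo_nr_iff]
  omega

theorem geo_line {X : Finset P} (p : ℤ → P) (hp : ∀ t, nr 1 (p t) (p (t + 1))) {u v : ℤ}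
    (huv : u ≤ v) (hX : ∀ t, u ≤ t → t ≤ v → p t ∈ X) :
    Relation.ReflTransGen (lnk X) (p u) (p v) := by
  induction v, huv using Int.leInduction with
  | base => exact .refl
  | succ n hn ih =>
    exact (ih fun t h1 h2 => hX t h1 (by omega)).tail
      ⟨hX n hn (by omega), hX _ (by omega) le_rfl, hp n⟩

theorem geo_conn_cell {L : ℕ} (hL : 0 < L) (B : P) : Conn (cell L B) := by
  refine ⟨⟨_, (geo_mem_cell hL).2 (geo_par_corner hL B)⟩, ?_⟩
  have key : ∀ a ∈ cell L B, Relation.ReflTransGen (lnk (cell L B)) (B.1 * L, B.2 * L) a := by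
    intro a ha
    simp only [cell, mem_product, mem_Ico] at ha
    have h1 := geo_line (X := cell L B) (fun t => (t, B.2 * L)) (fun t => by simp [nr]) ha.1.1
      (fun t h1 h2 => by simp only [cell, mem_product, mem_Ico]; omega)
    have h2 := geo_line (X := cell L B) (fun t => (a.1, t)) (fun t => by simp [nr]) ha.2.1
      (fun t h1 h2 => by simp only [cell, mem_product, mem_Ico]; omega)
    exact h1.trans h2
  exact fun a ha b hb => (geo_rt_symm (key a ha)).trans (key b hb)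

theorem geo_conn_under {L : ℕ} (hL : 0 < L) {U : Finset P} (hU : Conn U) : Conn (under L U) := by
  have hc : ∀ a b, par L a ∈ U → par L a = par L b →
      Relation.ReflTransGen (lnk (under L U)) a b := fun a b ha e =>
    geo_rt_mono (subset_biUnion_of_mem (cell L) ha) ((geo_conn_cell hL _).2 a
      ((geo_mem_cell hL).2 rfl) b ((geo_mem_cell hL).2 e.symm))
  obtain ⟨A, hA⟩ := hU.1
  refine ⟨⟨_, (geo_mem_under hL).2 ((geo_par_corner hL A).symm ▸ hA)⟩, fun a ha b hb => ?_⟩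
  rw [geo_mem_under hL] at ha hb
  have key : ∀ B, Relation.ReflTransGen (lnk U) (par L a) B → ∀ b, par L b = B →
      Relation.ReflTransGen (lnk (under L U)) a b := by
    intro B h
    induction h with
    | refl => exact fun b e => hc a b ha e.symm
    | tail _ h2 ih =>
      intro b e
      obtain ⟨x, y, hx, hy, hn⟩ := geo_adj_pts hL h2.2.2
      exact ((ih x hx).tail ⟨(geo_mem_under hL).2 (hx ▸ h2.1), (geo_mem_under hL).2
        (hy ▸ h2.2.1), hn⟩).trans (hc y b (hy ▸ h2.2.1) (hy.trans e.symm))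
  exact key _ (hU.2 _ ha _ hb) b rfl

theorem geo_mem_near {k : ℕ} {R X : Finset P} {b : P} :
    b ∈ near k R X ↔ b ∈ R ∧ ∃ a ∈ X, nr k a b := mem_filter

theorem geo_mem_bdry {R X : Finset P} {b : P} :
    b ∈ bdry R X ↔ (b ∈ R ∧ ∃ a ∈ X, nr 1 a b) ∧ b ∉ X := by
  rw [bdry, mem_sdiff, geo_mem_near]

theorem geo_sub_near {k : ℕ} {R X : Finset P} (h : X ⊆ R) : X ⊆ near k R X := fun a ha =>
  geo_mem_near.2 ⟨h ha, a, ha, geo_nr_refl _ _⟩

theorem geo_mem_reg {L : ℕ} (hL : 0 < L) {D U : Finset P} {b : P} :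
    b ∈ reg L D U ↔ par L b ∈ D ∧ ∃ a ∈ U, nr 1 a (par L b) := by
  rw [reg, geo_mem_under hL, geo_mem_near]

theorem geo_prod_under {L : ℕ} (hL : 0 < L) (U : Finset P) (f : P → ℂ) :
    ∏ b ∈ under L U, f b = ∏ B ∈ U, ∏ b ∈ cell L B, f b :=
  prod_biUnion fun _ _ _ _ e => disjoint_left.2 fun _ h1 h2 =>
    e (((geo_mem_cell hL).1 h1).symm.trans ((geo_mem_cell hL).1 h2))

end Pool.Agent.Lib.MP_9cc147_pr.Cx
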