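import Pool.Agent.Lib.MP_9cc147_pr.Cx.A.Zon

/-! The global conditions hold iff all the local ones hold. -/

open scoped Classical
open Finset

noncomputable section
namespace Pool.Agent.Lib.MP_9cc147_pr.Cx

variable {L s0 : ℕ} {D : Finset P} {C : P → St} {j : Σ _ : Option Lab, Finset P} {c : P → Sf}

theorem aiff_lab (c : P → Sf) (b : P) : lab (red c b) = lab (c b) := by
  simp only [lab, red, Option.map_map]
  rfl

theorem aiff_typ {U : Finset P} {σ : P → Option Lab} {x : Option Lab} {c c' : P → Sf}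
    (h : ∀ b ∈ under L U, c b = c' b) (ht : Typ L D U σ x c) : Typ L D U σ x c' := by
  rcases ht with ⟨s, e, h1⟩ | ⟨⟨b, hb, e⟩, h1⟩
  · exact .inl ⟨s, e, fun b hb => h b hb ▸ h1 b hb⟩
  · exact .inr ⟨⟨b, hb, h b hb ▸ e⟩, h1⟩

theorem aiff_sig {U : Finset P} {B : P} (h : B ∈ bdry D U) : sig D C U B = lab (C B) := if_pos h

theorem aiff_fwd (hL : 2 * s0 + 1 ≤ L) (hv : valid D C)
    (hc : ∀ b ∈ under L D, (∀ j ∈ jj D C, b ∉ zn L s0 D j.2) → c b = bs L C b)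
    (h1 : valid (under L D) (red c)) (h2 : Mat L s0 D C c) (hj : j ∈ jj D C) :
    rs L s0 D C j.2 c ∈ locC L s0 D C j := by
  have h0 : 0 < L := by omega
  have hl : ∀ b ∈ reg L D j.2, lab (rs L s0 D C j.2 c b) = lab (c b) := fun b hb => by
    by_cases h : b ∈ zn L s0 D j.2
    · rw [zon_rs_zn h]
    · obtain ⟨s, hs⟩ := zon_reg_free h0 hv hj hb h
      rw [zon_rs_off hb h, zon_bs hs, h2.2.1 b (zon_reg_under _ hb) s hs]
      rfl
  refine mem_filter.2 ⟨mem_filter.2 ⟨zon_rs_cfgs _, fun a ha b hb hn => ?_, ?_⟩, fun b hb => ?_,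
    aiff_typ (fun b hb => (zon_rs_zn (zon_under_zn (zon_sub hj) hb)).symm) (h2.2.2 j hj)⟩
  · have o := h1 a (zon_reg_under _ ha) b (zon_reg_under _ hb) hn
    refine ⟨fun s t e1 e2 => ?_, fun s e1 e2 => ?_⟩
    · rw [aiff_lab, hl _ ha, ← aiff_lab] at e1
      rw [aiff_lab, hl _ hb, ← aiff_lab] at e2
      exact o.1 s t e1 e2
    · have ha' := (zon_pol_zn h0 hv hj s).1 (mem_filter.2 ⟨ha, e1⟩)
      refine o.2 s ha'.2 ?_
      have := zon_rs_nb hL hv hc hj ha'.1 (zon_reg_under _ hb) hn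
      simp only [red] at e2 ⊢
      rwa [this] at e2
  · ext B
    constructor
    · intro hB
      have a1 : B ∈ act D C := h2.1 ▸ (zon_img hL hv hc).2 ⟨j, hj, hB⟩
      obtain ⟨-, a, ha, hn⟩ := geo_mem_near.1 (zon_img_sub h0 (near 1 D j.2) hB)
      exact zon_adj hv hj ha a1 hn
    · intro hB
      obtain ⟨k, hk, e⟩ := (zon_img hL hv hc).1 (h2.1 ▸ zon_act hj hB)
      obtain ⟨-, a, ha, hn⟩ := geo_mem_near.1 (zon_img_sub h0 (near 1 D k.2) e)
      exact zon_uniq hv hk hj ha hB hn ▸ e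
  · have hB := (geo_mem_under h0).1 hb
    have hr : b ∈ reg L D j.2 := (geo_mem_reg h0).2 (geo_mem_bdry.1 hB).1
    obtain ⟨s, hs⟩ := zon_bdry hv hj hB
    rw [hl b hr, aiff_sig hB, hs, h2.2.1 b (zon_reg_under _ hr) s hs]
    rfl

theorem aiff_bwd (hL : 2 * s0 + 1 ≤ L) (hv : valid D C)
    (hc : ∀ b ∈ under L D, (∀ j ∈ jj D C, b ∉ zn L s0 D j.2) → c b = bs L C b)
    (h : ∀ j ∈ jj D C, rs L s0 D C j.2 c ∈ locC L s0 D C j) :
    valid (under L D) (red c) ∧ Mat L s0 D C c := by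
  have h0 : 0 < L := by omega
  have key : ∀ j ∈ jj D C, ∀ a ∈ zn L s0 D j.2, ∀ b ∈ under L D, nr 1 a b →
      okS (red c a) (red c b) ∧ okS (red c b) (red c a) := fun j hj a ha b hb hn => by
    have v := (mem_filter.1 (mem_filter.1 (h j hj)).1).2.1
    have hb' := zon_nb_reg hL ha hb hn
    have o1 := v a (zon_zn_reg _ ha) b hb' hn
    have o2 := v b hb' a (zon_zn_reg _ ha) (geo_nr_symm hn)
    simp only [red] at o1 o2 ⊢
    rw [zon_rs_zn ha, zon_rs_nb hL hv hc hj ha hb hn] at o1 o2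
    exact ⟨o1, o2⟩
  refine ⟨fun a ha b hb hn => ?_, ?_, fun b hb s hs => ?_, fun j hj =>
    aiff_typ (fun b hb => zon_rs_zn (zon_under_zn (zon_sub hj) hb)) (mem_filter.1 (h j hj)).2.2⟩
  · by_cases za : ∃ j ∈ jj D C, a ∈ zn L s0 D j.2
    · obtain ⟨j, hj, e⟩ := za
      exact (key j hj a e b hb hn).1
    by_cases zb : ∃ j ∈ jj D C, b ∈ zn L s0 D j.2
    · obtain ⟨j, hj, e⟩ := zb
      exact (key j hj b e a ha (geo_nr_symm hn)).2
    have za' : ∀ j ∈ jj D C, a ∉ zn L s0 D j.2 := fun j hj e => za ⟨j, hj, e⟩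
    have zb' : ∀ j ∈ jj D C, b ∉ zn L s0 D j.2 := fun j hj e => zb ⟨j, hj, e⟩
    obtain ⟨s, hs⟩ := zon_off_free h0 ha za'
    obtain ⟨t, ht⟩ := zon_off_free h0 hb zb'
    have o := hv _ ((geo_mem_under h0).1 ha) _ ((geo_mem_under h0).1 hb)
      (geo_par_nr h0 (geo_nr_mono hn h0))
    rw [hs, ht] at o
    simp only [red]
    rw [hc a ha za', hc b hb zb', zon_bs hs, zon_bs ht]
    exact o
  · ext B
    rw [zon_img hL hv hc]
    constructor
    · rintro ⟨j, hj, e⟩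
      exact zon_act hj ((mem_filter.1 (mem_filter.1 (h j hj)).1).2.2 ▸ e)
    · intro hB
      obtain ⟨j, hj, e⟩ := zon_act_ex hB
      exact ⟨j, hj, (mem_filter.1 (mem_filter.1 (h j hj)).1).2.2.symm ▸ e⟩
  · by_cases zb : ∃ j ∈ jj D C, b ∈ zn L s0 D j.2
    · obtain ⟨j, hj, e⟩ := zb
      have hB : par L b ∈ bdry D j.2 := geo_mem_bdry.2 ⟨(geo_mem_reg h0).1 (zon_zn_reg _ e),
        fun e' => (mem_filter.1 (zon_act hj e')).2 s hs⟩
      have := (mem_filter.1 (h j hj)).2.1 b ((geo_mem_under h0).2 hB)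
      rw [zon_rs_zn e, aiff_sig hB, hs] at this
      exact this
    · rw [hc b hb fun j hj e => zb ⟨j, hj, e⟩, zon_bs hs]
      rfl

theorem t_a_iff : S_a_iff := fun _ _ _ _ _ hL hv hc =>
  ⟨fun h _ hj => aiff_fwd hL hv hc h.1 h.2 hj, aiff_bwd hL hv hc⟩

theorem aiff_van : S_a_van := by
  intro L s0 R c b s hl hb hs hn
  have hbb : par L b ∉ img L s0 R c := fun h => hn b hb h (geo_nr_refl _ _)
  rcases e : c b with _ | ⟨t, i⟩
  · rw [e] at hs
    cases hs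
  rw [e] at hs
  obtain rfl : t = s := Option.some.inj hs
  have h1 : i ≠ 1 := fun h => hbb (zon_mem_img.2 ⟨b, rfl, .inl ⟨hb, .inl ⟨t, h ▸ e⟩⟩⟩)
  have h3 : i ≠ 3 := fun h => hbb (zon_mem_img.2 ⟨b, rfl, .inl ⟨hb, .inr (.inl ⟨t, h ▸ e⟩)⟩⟩)
  have h2 : i ≠ 2 := fun h => by
    have hp : b ∈ pol R (red c) t := mem_filter.2 ⟨hb, by simp [red, e, h]⟩
    have hX := geo_comp_mem hp
    by_cases hc : s0 < (comp (pol R (red c) t) b).card
    · exact hbb (zon_mem_img.2 ⟨b, rfl, .inr ⟨t, _, hX, hc, geo_self_comp hp⟩⟩)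
    · have := hl _ (mem_biUnion.2 ⟨t, mem_univ _, hX⟩)
      rw [fw, if_pos (not_lt.1 hc)] at this
      have h4 : (kind (comp (pol R (red c) t) b) c 3).card = 1 := by
        by_contra h4
        exact this (if_neg h4)
      obtain ⟨a, ha⟩ := card_pos.1 (h4 ▸ Nat.one_pos)
      obtain ⟨ha, u, hu⟩ := mem_filter.1 ha
      have haR : a ∈ R := (mem_filter.1 (geo_comp_sub _ _ ha)).1
      exact hn a haR (zon_mem_img.2 ⟨a, rfl, .inl ⟨haR, .inr (.inl ⟨u, hu⟩)⟩⟩)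
        (geo_nr_mono (geo_diam (geo_conn_comp hp) ha (geo_self_comp hp)) (by omega))
  have : i = 0 := by omega
  rw [this]

end Pool.Agent.Lib.MP_9cc147_pr.Cx
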