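import Pool.Agent.Lib.MP_9cc147_pr.Cx.D0

/-! Components, diameters, cells and configurations: the geometric kit of `t_one`. -/

open scoped Classical
open Finset

noncomputable section
namespace Pool.Agent.Lib.MP_9cc147_pr.Cx

theorem one_nr_refl (k : ℕ) (a : P) : nr k a a := by simp [nr]

theorem one_nr_symm {k : ℕ} {a b : P} (h : nr k a b) : nr k b a :=
  ⟨by rw [abs_sub_comm]; exact h.1, by rw [abs_sub_comm]; exact h.2⟩

theorem one_nr_mono {k l : ℕ} {a b : P} (h : nr k a b) (hl : k ≤ l) : nr l a b :=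
  ⟨h.1.trans (by exact_mod_cast hl), h.2.trans (by exact_mod_cast hl)⟩

theorem one_lnk_symm {Y : Finset P} {a b : P} (h : lnk Y a b) : lnk Y b a :=
  ⟨h.2.1, h.1, one_nr_symm h.2.2⟩

theorem one_rt_symm {Y : Finset P} {a b : P} (h : Relation.ReflTransGen (lnk Y) a b) :
    Relation.ReflTransGen (lnk Y) b a := by
  induction h with
  | refl => exact .refl
  | tail _ h2 ih => exact .head (one_lnk_symm h2) ih

theorem one_mem_comp {Y : Finset P} {a b : P} :
    b ∈ comp Y a ↔ b ∈ Y ∧ Relation.ReflTransGen (lnk Y) a b := mem_filter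

theorem one_comp_sub (Y : Finset P) (a : P) : comp Y a ⊆ Y := filter_subset _ _

theorem one_self_comp {Y : Finset P} {a : P} (ha : a ∈ Y) : a ∈ comp Y a :=
  one_mem_comp.2 ⟨ha, .refl⟩

theorem one_comp_eq {Y : Finset P} {a b : P} (h : Relation.ReflTransGen (lnk Y) a b) :
    comp Y a = comp Y b := by
  ext x
  simp only [one_mem_comp]
  exact and_congr_right fun _ => ⟨fun h' => (one_rt_symm h).trans h', fun h' => h.trans h'⟩

theorem one_path_comp {Y : Finset P} {a b : P} (h : Relation.ReflTransGen (lnk Y) a b) :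
    Relation.ReflTransGen (lnk (comp Y a)) a b := by
  induction h with
  | refl => exact .refl
  | tail h1 h2 ih =>
    exact .tail ih ⟨one_mem_comp.2 ⟨h2.1, h1⟩, one_mem_comp.2 ⟨h2.2.1, h1.tail h2⟩, h2.2.2⟩

theorem one_conn_comp {Y : Finset P} {a : P} (ha : a ∈ Y) : Conn (comp Y a) :=
  ⟨⟨a, one_self_comp ha⟩, fun _ hx _ hy =>
    (one_rt_symm (one_path_comp (one_mem_comp.1 hx).2)).trans (one_path_comp (one_mem_comp.1 hy).2)⟩

theorem one_mem_comps {Y X : Finset P} : X ∈ comps Y ↔ ∃ a ∈ Y, comp Y a = X := mem_image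

theorem one_comps_conn {Y X : Finset P} (h : X ∈ comps Y) : Conn X := by
  obtain ⟨a, ha, rfl⟩ := one_mem_comps.1 h
  exact one_conn_comp ha

theorem one_comps_sub {Y X : Finset P} (h : X ∈ comps Y) : X ⊆ Y := by
  obtain ⟨a, _, rfl⟩ := one_mem_comps.1 h
  exact one_comp_sub Y a

theorem one_comps_eq {Y X X' : Finset P} (h : X ∈ comps Y) (h' : X' ∈ comps Y) {a b : P}
    (ha : a ∈ X) (hb : b ∈ X') (hab : nr 1 a b) : X = X' := by
  obtain ⟨x, _, rfl⟩ := one_mem_comps.1 h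
  obtain ⟨y, _, rfl⟩ := one_mem_comps.1 h'
  have h1 := one_mem_comp.1 ha
  have h2 := one_mem_comp.1 hb
  exact one_comp_eq ((h1.2.tail ⟨h1.1, h2.1, hab⟩).trans (one_rt_symm h2.2))

theorem one_comps_empty : comps ∅ = ∅ := by simp [comps]

theorem one_comps_of_conn {X : Finset P} (h : Conn X) : comps X = {X} := by
  have e : ∀ a ∈ X, comp X a = X := fun a ha =>
    filter_true_of_mem fun b hb => h.2 a ha b hb
  ext Z
  rw [one_mem_comps, mem_singleton]
  constructor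
  · rintro ⟨a, ha, rfl⟩
    exact e a ha
  · rintro rfl
    obtain ⟨a, ha⟩ := h.1
    exact ⟨a, ha, e a ha⟩

/-- discrete intermediate values along a path -/
theorem one_ivt {X : Finset P} (f : P → ℤ) (hf : ∀ a b, nr 1 a b → |f a - f b| ≤ 1) {a b : P}
    (ha : a ∈ X) (h : Relation.ReflTransGen (lnk X) a b) :
    ∀ t, f a ≤ t → t ≤ f b → ∃ x ∈ X, f x = t := by
  induction h with
  | refl => exact fun t h1 h2 => ⟨a, ha, le_antisymm h1 h2⟩
  | @tail y z _ h2 ih =>
    intro t h1 h3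
    by_cases h4 : t ≤ f y
    · exact ih t h1 h4
    · have := abs_le.1 (hf y z h2.2.2)
      exact ⟨z, h2.2.1, by omega⟩

theorem one_diam_aux {X : Finset P} (hX : Conn X) (f : P → ℤ)
    (hf : ∀ a b, nr 1 a b → |f a - f b| ≤ 1) {a b : P} (ha : a ∈ X) (hb : b ∈ X) :
    f b - f a ≤ X.card := by
  have h1 : Icc (f a) (f b) ⊆ X.image f := fun t ht => by
    obtain ⟨x, hx, e⟩ := one_ivt f hf ha (hX.2 a ha b hb) t (mem_Icc.1 ht).1 (mem_Icc.1 ht).2
    exact mem_image.2 ⟨x, hx, e⟩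
  have h2 := (card_le_card h1).trans card_image_le
  rw [Int.card_Icc] at h2
  omega

theorem one_diam {X : Finset P} (hX : Conn X) {a b : P} (ha : a ∈ X) (hb : b ∈ X) :
    nr X.card a b := by
  have h1 := one_diam_aux hX Prod.fst (fun _ _ h => h.1) ha hb
  have h2 := one_diam_aux hX Prod.fst (fun _ _ h => h.1) hb ha
  have h3 := one_diam_aux hX Prod.snd (fun _ _ h => h.2) ha hb
  have h4 := one_diam_aux hX Prod.snd (fun _ _ h => h.2) hb ha
  exact ⟨abs_le.2 ⟨by omega, by omega⟩, abs_le.2 ⟨by omega, by omega⟩⟩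

theorem one_mem_Ico {L : ℕ} (hL : 1 ≤ L) {x y : ℤ} :
    x ∈ Ico (y * L) ((y + 1) * L) ↔ x / L = y := by
  have h0 : (0 : ℤ) < L := by exact_mod_cast hL
  rw [mem_Ico, ← Int.le_ediv_iff_mul_le h0, ← Int.ediv_lt_iff_lt_mul h0]
  omega

theorem one_mem_cell {L : ℕ} (hL : 1 ≤ L) {b B : P} : b ∈ cell L B ↔ par L b = B := by
  rw [cell, mem_product, one_mem_Ico hL, one_mem_Ico hL, par, Prod.ext_iff]

theorem one_mem_under {L : ℕ} (hL : 1 ≤ L) {b : P} {U : Finset P} :
    b ∈ under L U ↔ par L b ∈ U := by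
  simp only [under, mem_biUnion, one_mem_cell hL]
  exact ⟨fun ⟨_, h, e⟩ => e ▸ h, fun h => ⟨_, h, rfl⟩⟩

theorem one_div_le {L : ℕ} (hL : 1 ≤ L) {x y : ℤ} (h : x - y ≤ L) : x / L - y / L ≤ 1 := by
  have h0 : (0 : ℤ) < L := by exact_mod_cast hL
  have h1 : x / L ≤ (y + 1 * L) / L := Int.ediv_le_ediv h0 (by omega)
  rw [Int.add_mul_ediv_right _ _ h0.ne'] at h1
  omega

theorem one_par_nr {L : ℕ} (hL : 1 ≤ L) {a b : P} (h : nr L a b) : nr 1 (par L a) (par L b) := by
  have h1 := abs_le.1 h.1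
  have h2 := abs_le.1 h.2
  have a1 := one_div_le hL (x := a.1) (y := b.1) (by omega)
  have a2 := one_div_le hL (x := b.1) (y := a.1) (by omega)
  have a3 := one_div_le hL (x := a.2) (y := b.2) (by omega)
  have a4 := one_div_le hL (x := b.2) (y := a.2) (by omega)
  simp only [nr, par]
  exact ⟨abs_le.2 ⟨by omega, by omega⟩, abs_le.2 ⟨by omega, by omega⟩⟩

theorem one_mem_reg {L : ℕ} (hL : 1 ≤ L) {D U : Finset P} {b : P} :
    b ∈ reg L D U ↔ par L b ∈ D ∧ ∃ a ∈ U, nr 1 a (par L b) := by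
  rw [reg, one_mem_under hL, near, mem_filter]

theorem one_under_reg {L : ℕ} (hL : 1 ≤ L) {D U : Finset P} (h : U ⊆ D) :
    under L U ⊆ reg L D U := fun _ hb =>
  (one_mem_reg hL).2 ⟨h ((one_mem_under hL).1 hb), _, (one_mem_under hL).1 hb, one_nr_refl _ _⟩

theorem one_reg_under {L : ℕ} (hL : 1 ≤ L) (D U : Finset P) : reg L D U ⊆ under L D :=
  fun _ hb => (one_mem_under hL).2 ((one_mem_reg hL).1 hb).1

theorem one_mem_cfgs {ι S : Type} [Fintype S] {d : S} {R : Finset ι} {c : ι → S} :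
    c ∈ cfgs univ d R ↔ ∀ x, x ∉ R → c x = d := by
  simp only [cfgs, mem_image]
  constructor
  · rintro ⟨f, _, rfl⟩ x hx
    exact dif_neg hx
  · intro h
    refine ⟨fun x _ => c x, mem_pi.2 fun _ _ => mem_univ _, funext fun x => ?_⟩
    by_cases hx : x ∈ R
    · exact dif_pos hx
    · rw [dif_neg hx, h x hx]

end Pool.Agent.Lib.MP_9cc147_pr.Cx
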