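import Pool.Agent.Lib.MP_9cc147_pr.Cx.A.S
import Pool.Agent.Lib.MP_9cc147_pr.Cx.A.One1

/-! The coarse configuration read off from a fine configuration exists and is unique. -/

open scoped Classical
open Finset

noncomputable section
namespace Pool.Agent.Lib.MP_9cc147_pr.Cx

/-- the lower left point of a cell -/
def amat_ll (L : ℕ) (B : P) : P := (B.1 * L, B.2 * L)

theorem amat_par {L : ℕ} (hL : 1 ≤ L) (B : P) {i j : ℕ} (hi : i < L) (hj : j < L) :
    par L (B.1 * L + i, B.2 * L + j) = B := by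
  rw [← one_mem_cell hL, cell, mem_product, mem_Ico, mem_Ico, add_mul, add_mul]
  refine ⟨⟨?_, ?_⟩, ?_, ?_⟩ <;> simp only <;> omega

theorem amat_par_ll {L : ℕ} (hL : 1 ≤ L) (B : P) : par L (amat_ll L B) = B := by
  simpa [amat_ll] using amat_par hL B (i := 0) (j := 0) hL hL

theorem amat_cell {α : Type} {L : ℕ} (hL : 1 ≤ L) (g : P → α) (B : P)
    (h : ∀ a b, par L a = B → par L b = B → nr 1 a b → g a = g b) {b : P} (hb : par L b = B) :
    g b = g (amat_ll L B) := by
  have k0 : ∀ i : ℕ, i < L → g (B.1 * L + i, B.2 * L + (0 : ℕ)) = g (amat_ll L B) := by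
    intro i
    induction i with
    | zero => intro _; simp [amat_ll]
    | succ i ih =>
      intro hi
      rw [← ih (by omega)]
      exact h _ _ (amat_par hL B hi hL) (amat_par hL B (by omega) hL) (by simp [nr])
  have k1 : ∀ i j : ℕ, i < L → j < L → g (B.1 * L + i, B.2 * L + j) = g (amat_ll L B) := by
    intro i j hi
    induction j with
    | zero => intro _; exact k0 i hi
    | succ j ih =>
      intro hj
      rw [← ih (by omega)]
      exact h _ _ (amat_par hL B hi hj) (amat_par hL B hi (by omega)) (by simp [nr])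
  rw [← one_mem_cell hL, cell, mem_product, mem_Ico, mem_Ico, add_mul, add_mul] at hb
  have := k1 (b.1 - B.1 * L).toNat (b.2 - B.2 * L).toNat (by omega) (by omega)
  rw [← this]
  congr 1
  ext <;> simp only <;> omega

theorem amat_adj1 {L : ℕ} (hL : 1 ≤ L) {u v : ℤ} (h : |u - v| ≤ 1) :
    ∃ x y : ℤ, x / L = u ∧ y / L = v ∧ |x - y| ≤ 1 := by
  have e : ∀ w : ℤ, w * L / L = w ∧ ((w + 1) * L - 1) / L = w := fun w => by
    rw [← one_mem_Ico hL, ← one_mem_Ico hL, mem_Ico, mem_Ico, add_mul]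
    omega
  have := abs_le.1 h
  obtain rfl | rfl | rfl : u = v ∨ v = u + 1 ∨ u = v + 1 := by omega
  · exact ⟨u * L, u * L, (e u).1, (e u).1, by simp⟩
  · exact ⟨(u + 1) * L - 1, (u + 1) * L, (e u).2, (e _).1, by simp⟩
  · exact ⟨(v + 1) * L, (v + 1) * L - 1, (e _).1, (e v).2, by simp⟩

theorem amat_adj {L : ℕ} (hL : 1 ≤ L) {B B' : P} (h : nr 1 B B') :
    ∃ a b, par L a = B ∧ par L b = B' ∧ nr 1 a b := by
  obtain ⟨x, y, h1, h2, h3⟩ := amat_adj1 hL (u := B.1) (v := B'.1) (by exact_mod_cast h.1)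
  obtain ⟨z, w, h4, h5, h6⟩ := amat_adj1 hL (u := B.2) (v := B'.2) (by exact_mod_cast h.2)
  exact ⟨(x, z), (y, w), Prod.ext h1 h4, Prod.ext h2 h5, by exact_mod_cast h3,
    by exact_mod_cast h6⟩

theorem amat_lab_red (c : P → Sf) (b : P) : lab (red c b) = lab (c b) := by
  unfold lab red
  cases c b <;> rfl

theorem amat_lab_some {α : Type} {x : Option (Lab × α)} (h : x ≠ none) : ∃ s, lab x = some s := by
  cases x with
  | none => exact absurd rfl h
  | some y => exact ⟨y.1, rfl⟩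

section
variable {L s0 : ℕ} {D : Finset P} {c : P → Sf}

theorem amat_step (hL : 1 ≤ L) (hv : valid (under L D) (red c)) {a b : P} (ha : par L a ∈ D)
    (hb : par L b ∈ D) (hab : nr 1 a b) (h1 : c a ≠ none) (h2 : c b ≠ none) :
    lab (c a) = lab (c b) := by
  obtain ⟨s, hs⟩ := amat_lab_some h1
  obtain ⟨t, ht⟩ := amat_lab_some h2
  rw [hs, ht, (hv a ((one_mem_under hL).2 ha) b ((one_mem_under hL).2 hb) hab).1 s t
    (by rw [amat_lab_red, hs]) (by rw [amat_lab_red, ht])]

theorem amat_clean (hL : 1 ≤ L) (hv : valid (under L D) (red c)) {B : P} (hB : B ∈ D)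
    (h : ∀ b, par L b = B → c b ≠ none) {b : P} (hb : par L b = B) :
    lab (c b) = lab (c (amat_ll L B)) :=
  amat_cell hL (fun b => lab (c b)) B
    (fun a b ha hb hab => amat_step hL hv (ha ▸ hB) (hb ▸ hB) hab (h a ha) (h b hb)) hb

theorem amat_two (hL : 1 ≤ L) (hv : valid (under L D) (red c)) {B B' : P} (hB : B ∈ D)
    (hB' : B' ∈ D) (hn : nr 1 B B') (h : ∀ b, par L b = B → c b ≠ none)
    (h' : ∀ b, par L b = B' → c b ≠ none) :
    lab (c (amat_ll L B)) = lab (c (amat_ll L B')) := by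
  obtain ⟨a, b, ha, hb, hab⟩ := amat_adj hL hn
  rw [← amat_clean hL hv hB h ha, ← amat_clean hL hv hB' h' hb]
  exact amat_step hL hv (ha ▸ hB) (hb ▸ hB') hab (h a ha) (h' b hb)

theorem amat_conn (hL : 1 ≤ L) (hv : valid (under L D) (red c)) {U : Finset P} (hU : U ⊆ D)
    (hc : Conn U) (h : ∀ b ∈ under L U, c b ≠ none) :
    ∃ s, ∀ b ∈ under L U, lab (c b) = some s := by
  obtain ⟨A, hA⟩ := hc.1
  have cl : ∀ B ∈ U, ∀ b, par L b = B → c b ≠ none := fun B hB b hb =>
    h b ((one_mem_under hL).2 (hb ▸ hB))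
  obtain ⟨s, hs⟩ := amat_lab_some (cl A hA _ (amat_par_ll hL A))
  have k : ∀ B, Relation.ReflTransGen (lnk U) A B → lab (c (amat_ll L B)) = some s := by
    intro B hB
    induction hB with
    | refl => exact hs
    | tail _ h2 ih =>
      rw [← ih]
      exact (amat_two hL hv (hU h2.1) (hU h2.2.1) h2.2.2 (cl _ h2.1) (cl _ h2.2.1)).symm
  refine ⟨s, fun b hb => ?_⟩
  have hb' := (one_mem_under hL).1 hb
  rw [amat_clean hL hv (hU hb') (cl _ hb') rfl]
  exact k _ (hc.2 A hA _ hb')

theorem amat_img_sub (hL : 1 ≤ L) : img L s0 (under L D) c ⊆ D := by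
  intro B hB
  obtain ⟨b, hb, rfl⟩ := mem_image.1 hB
  refine (one_mem_under hL).1 ?_
  simp only [mem_union, mem_biUnion, mem_filter, id] at hb
  rcases hb with ((hb | hb) | hb) | ⟨s, _, X, ⟨hX, _⟩, hb⟩
  · exact (mem_filter.1 hb).1
  · exact (mem_filter.1 hb).1
  · exact (mem_filter.1 hb).1
  · exact (mem_filter.1 (one_comps_sub hX hb)).1

theorem amat_off (hL : 1 ≤ L) {B : P} (hB : B ∈ D) (hY : B ∉ img L s0 (under L D) c) (b : P)
    (hb : par L b = B) : c b ≠ none := fun h =>
  hY (mem_image.2 ⟨b, mem_union_left _ (mem_union_right _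
    (mem_filter.2 ⟨(one_mem_under hL).2 (hb ▸ hB), by simp [red, h]⟩)), hb⟩)

end

theorem amat_bdry {D Y : Finset P} {a b : P} (hb : b ∈ bdry D (comp Y a)) :
    b ∈ D ∧ b ∉ Y ∧ ∃ x ∈ comp Y a, nr 1 x b := by
  obtain ⟨h1, h2⟩ := mem_sdiff.1 hb
  obtain ⟨h3, x, hx, h4⟩ := mem_filter.1 h1
  refine ⟨h3, fun hY => h2 ?_, x, hx, h4⟩
  have := one_mem_comp.1 hx
  exact one_mem_comp.2 ⟨hY, this.2.tail ⟨this.1, hY, h4⟩⟩

theorem amat_act {D : Finset P} {C : P → St} {b : P} :
    b ∈ act D C ↔ ∃ x, b ∈ cls D C x := by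
  simp only [act, cls, mem_filter]
  constructor
  · rintro ⟨h1, h2⟩
    rcases h : C b with _ | ⟨s, _ | _⟩
    · exact ⟨none, h1, rfl⟩
    · exact absurd h (h2 s)
    · exact ⟨some s, h1, rfl⟩
  · rintro ⟨x, h1, h2⟩
    refine ⟨h1, fun s => ?_⟩
    rw [h2]
    cases x <;> simp

theorem amat_cls_step {D : Finset P} {C : P → St} (hv : valid D C) {x : Option Lab} {y z : P}
    (hy : y ∈ cls D C x) (hz : z ∈ act D C) (h : nr 1 y z) : z ∈ cls D C x := by
  obtain ⟨x', hz'⟩ := amat_act.1 hz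
  obtain ⟨y1, y2⟩ := mem_filter.1 hy
  obtain ⟨z1, z2⟩ := mem_filter.1 hz'
  have a1 := hv y y1 z z1 h
  have a2 := hv z z1 y y1 (one_nr_symm h)
  rw [y2, z2] at a1 a2
  suffices x' = x from this ▸ hz'
  rcases x with _ | s <;> rcases x' with _ | t
  · rfl
  · exact absurd rfl (a2.2 t rfl)
  · exact absurd rfl (a1.2 s rfl)
  · rw [a1.1 s t rfl rfl]

theorem amat_comp {D : Finset P} {C : P → St} (hv : valid D C) {x : Option Lab} {a : P}
    (ha : a ∈ cls D C x) : comp (cls D C x) a = comp (act D C) a := by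
  have sub : ∀ b, b ∈ cls D C x → b ∈ act D C := fun b hb => amat_act.2 ⟨x, hb⟩
  ext b
  rw [one_mem_comp, one_mem_comp]
  constructor
  · rintro ⟨h1, h2⟩
    refine ⟨sub b h1, ?_⟩
    clear h1
    induction h2 with
    | refl => exact .refl
    | tail _ h3 ih => exact ih.tail ⟨sub _ h3.1, sub _ h3.2.1, h3.2.2⟩
  · rintro ⟨h1, h2⟩
    clear h1
    induction h2 with
    | refl => exact ⟨ha, .refl⟩
    | tail _ h3 ih =>
      have := amat_cls_step hv ih.1 h3.2.1 h3.2.2
      exact ⟨this, ih.2.tail ⟨ih.1, this, h3.2.2⟩⟩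

theorem amat_free {D : Finset P} {C : P → St} {b : P} (hb : b ∈ D) (h : b ∉ act D C) :
    ∃ s, C b = some (s, false) := by
  by_contra k
  exact h (mem_filter.2 ⟨hb, fun s hs => k ⟨s, hs⟩⟩)

theorem amat_uniq {L s0 : ℕ} {D : Finset P} {c : P → Sf} (hL : 1 ≤ L) {C C' : P → St}
    (hv : valid D C) (hv' : valid D C') (h : Mat L s0 D C c) (h' : Mat L s0 D C' c) {B : P}
    (hB : B ∈ D) : C B = C' B := by
  have ea : act D C' = act D C := h'.1.symm.trans h.1
  have off : ∀ B ∈ D, B ∉ act D C → C B = C' B := fun B hB hn => by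
    obtain ⟨s, hs⟩ := amat_free hB hn
    obtain ⟨t, ht⟩ := amat_free hB (ea ▸ hn : B ∉ act D C')
    have m : amat_ll L B ∈ under L D := (one_mem_under hL).2 (by rwa [amat_par_ll hL])
    have e1 := h.2.1 _ m s (by rwa [amat_par_ll hL])
    have e2 := h'.2.1 _ m t (by rwa [amat_par_ll hL])
    rw [hs, ht, Option.some.inj (e1.symm.trans e2)]
  by_cases hn : B ∈ act D C
  swap
  · exact off B hB hn
  obtain ⟨x, hx⟩ := amat_act.1 hn
  obtain ⟨x', hx'⟩ := amat_act.1 (ea ▸ hn : B ∈ act D C')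
  have e1 := amat_comp hv hx
  have e2 := (amat_comp hv' hx').trans (congrArg (comp · B) ea)
  have t1 := h.2.2 ⟨x, comp (act D C) B⟩
    (mem_sigma.2 ⟨mem_univ _, one_mem_comps.2 ⟨B, hx, e1⟩⟩)
  have t2 := h'.2.2 ⟨x', comp (act D C) B⟩
    (mem_sigma.2 ⟨mem_univ _, one_mem_comps.2 ⟨B, hx', e2⟩⟩)
  have es : sig D C' (comp (act D C) B) = sig D C (comp (act D C) B) := by
    funext b
    unfold sig
    split_ifs with hb
    · rw [off b (amat_bdry hb).1 (amat_bdry hb).2.1]
    · rfl
  simp only [es] at t1 t2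
  suffices x = x' by rw [(mem_filter.1 hx).2, (mem_filter.1 hx').2, this]
  have m : amat_ll L B ∈ under L (comp (act D C) B) :=
    (one_mem_under hL).2 (by rw [amat_par_ll hL]; exact one_self_comp hn)
  rcases t1 with ⟨s, rfl, hs⟩ | ⟨⟨b, hb, hb0⟩, t1⟩ <;>
    rcases t2 with ⟨t, rfl, ht⟩ | ⟨⟨b', hb', hb1⟩, t2⟩
  · exact (hs _ m).symm.trans (ht _ m)
  · have := hs b' hb'
    rw [hb1] at this
    exact absurd this (by simp [lab])
  · have := ht b hb
    rw [hb0] at this
    exact absurd this (by simp [lab])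
  · by_cases hN : Neu D (comp (act D C) B) (sig D C (comp (act D C) B))
    swap
    · rw [t1.2 hN, t2.2 hN]
    obtain ⟨s, rfl⟩ := Option.ne_none_iff_exists'.1 fun k => t1.1 k hN
    obtain ⟨t, rfl⟩ := Option.ne_none_iff_exists'.1 fun k => t2.1 k hN
    obtain ⟨y, hy⟩ := hN.1
    obtain ⟨y1, y2, a, ha, hay⟩ := amat_bdry hy
    obtain ⟨r, hr⟩ := amat_free y1 y2
    obtain ⟨a1, a2⟩ := mem_filter.1 (one_comp_sub _ _ (e1 ▸ ha : a ∈ comp (cls D C (some s)) B))
    obtain ⟨_, a3⟩ := mem_filter.1 (one_comp_sub _ _ (e2 ▸ ha : a ∈ comp (cls D C' (some t)) B))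
    have k1 := (hv a a1 y y1 hay).1 s r (by rw [a2]; rfl) (by rw [hr]; rfl)
    have k2 := (hv' a a1 y y1 hay).1 t r (by rw [a3]; rfl) (by rw [← off y y1 y2, hr]; rfl)
    rw [k1, k2]

/-- boundary labels, class of a component, and the coarse configuration -/
def amat_sg (L : ℕ) (D U : Finset P) (c : P → Sf) : P → Option Lab :=
  fun b => if b ∈ bdry D U then lab (c (amat_ll L b)) else none
def amat_x (L : ℕ) (D U : Finset P) (c : P → Sf) : Option Lab :=
  if h : ∃ s, ∀ b ∈ under L U, lab (c b) = some s then some h.choose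
  else if h : Neu D U (amat_sg L D U c) then some h.2.choose else none
def amat_C (L : ℕ) (D Y : Finset P) (c : P → Sf) : P → St := fun B =>
  if B ∈ D then
    if B ∈ Y then (amat_x L D (comp Y B) c).map fun s => (s, true)
    else (lab (c (amat_ll L B))).map fun s => (s, false)
  else none

theorem amat_lab_map (x : Option Lab) (t : Bool) : lab (x.map fun s => (s, t)) = x := by
  cases x <;> rfl

theorem t_a_mat : S_a_mat := by
  intro L s0 D c hL hv
  set Y := img L s0 (under L D) c with hY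
  have sub : Y ⊆ D := amat_img_sub hL
  have off : ∀ B ∈ D, B ∉ Y → ∀ b, par L b = B → c b ≠ none := fun B h1 h2 => amat_off hL h1 h2
  have cin : ∀ B ∈ Y, amat_C L D Y c B = (amat_x L D (comp Y B) c).map fun s => (s, true) :=
    fun B hB => by rw [amat_C, if_pos (sub hB), if_pos hB]
  have cout : ∀ B ∈ D, B ∉ Y →
      amat_C L D Y c B = (lab (c (amat_ll L B))).map fun s => (s, false) :=
    fun B h1 h2 => by rw [amat_C, if_pos h1, if_neg h2]
  have mix : ∀ a ∈ Y, ∀ b ∈ D, b ∉ Y → nr 1 a b → ∀ s, amat_x L D (comp Y a) c = some s →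
      lab (c (amat_ll L b)) = some s := by
    intro a ha b hb hbY hab s hs
    unfold amat_x at hs
    split_ifs at hs with h1 h2
    · have k := h1.choose_spec
      rw [Option.some.inj hs] at k
      have k' : ∀ y, par L y = a → lab (c y) = some s := fun y hy =>
        k y ((one_mem_under hL).2 (by rw [hy]; exact one_self_comp ha))
      rw [← amat_two hL hv (sub ha) hb hab (fun y hy e => by
        have := k' y hy
        rw [e] at this
        exact absurd this (by simp [lab])) (off b hb hbY)]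
      exact k' _ (amat_par_ll hL a)
    · have k := congrFun h2.2.choose_spec b
      have m : b ∈ bdry D (comp Y a) := mem_sdiff.2
        ⟨mem_filter.2 ⟨hb, a, one_self_comp ha, hab⟩, fun e => hbY (one_comp_sub _ _ e)⟩
      rw [Option.some.inj hs, amat_sg, cst, if_pos m, if_pos m] at k
      exact k
  have val : valid D (amat_C L D Y c) := by
    intro a ha b hb hab
    by_cases h1 : a ∈ Y <;> by_cases h2 : b ∈ Y
    · rw [cin a h1, cin b h2, one_comp_eq (Relation.ReflTransGen.single ⟨h1, h2, hab⟩)]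
      exact ⟨fun s t e1 e2 => Option.some.inj (e1.symm.trans e2), fun s e => by rw [e]; simp⟩
    · rw [cin a h1, cout b hb h2]
      refine ⟨fun s t e1 e2 => ?_, fun s _ => ?_⟩
      · rw [amat_lab_map] at e1 e2
        exact Option.some.inj ((mix a h1 b hb h2 hab s e1).symm.trans e2)
      · obtain ⟨t, ht⟩ := amat_lab_some (off b hb h2 _ (amat_par_ll hL b))
        rw [ht]; simp
    · rw [cout a ha h1, cin b h2]
      refine ⟨fun s t e1 e2 => ?_, fun s e => ?_⟩
      · rw [amat_lab_map] at e1 e2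
        exact Option.some.inj (e1.symm.trans (mix b h2 a ha h1 (one_nr_symm hab) t e2))
      · cases h : lab (c (amat_ll L a)) <;> rw [h] at e <;> simp at e
    · rw [cout a ha h1, cout b hb h2, amat_two hL hv ha hb hab (off a ha h1) (off b hb h2)]
      refine ⟨fun s t e1 e2 => Option.some.inj (e1.symm.trans e2), fun s e => by rw [e]; simp⟩
  have ea : Y = act D (amat_C L D Y c) := by
    ext B
    constructor
    · intro hB
      exact amat_act.2 ⟨_, mem_filter.2 ⟨sub hB, cin B hB⟩⟩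
    · intro hB
      by_contra k
      obtain ⟨h1, h2⟩ := mem_filter.1 hB
      obtain ⟨t, ht⟩ := amat_lab_some (off B h1 k _ (amat_par_ll hL B))
      exact h2 t (by rw [cout B h1 k, ht]; rfl)
  have mat : Mat L s0 D (amat_C L D Y c) c := by
    refine ⟨ea, fun b hb s hs => ?_, ?_⟩
    · have h1 := (one_mem_under hL).1 hb
      have h2 : par L b ∉ Y := fun k => by
        rw [ea] at k
        exact (mem_filter.1 k).2 s hs
      have := congrArg lab hs
      rw [cout _ h1 h2, amat_lab_map] at this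
      rw [amat_clean hL hv h1 (off _ h1 h2) rfl, this]
      rfl
    · rintro ⟨x, U⟩ hj
      obtain ⟨a, ha, e⟩ := one_mem_comps.1 (mem_sigma.1 hj).2
      simp only at ha e ⊢
      rw [amat_comp val ha, ← ea] at e
      have haY : a ∈ Y := ea ▸ amat_act.2 ⟨x, ha⟩
      have ex : amat_x L D U c = x := by
        have := congrArg lab ((cin a haY).symm.trans (mem_filter.1 ha).2)
        rwa [amat_lab_map, amat_lab_map, e] at this
      have es : sig D (amat_C L D Y c) U = amat_sg L D U c := by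
        funext b
        unfold sig amat_sg
        split_ifs with hb
        · have := amat_bdry (e ▸ hb : b ∈ bdry D (comp Y a))
          rw [cout b this.1 this.2.1, amat_lab_map]
        · rfl
      rw [es, ← ex]
      unfold amat_x
      by_cases h1 : ∃ s, ∀ b ∈ under L U, lab (c b) = some s
      · rw [dif_pos h1]
        exact Or.inl ⟨_, rfl, h1.choose_spec⟩
      · rw [dif_neg h1]
        refine Or.inr ⟨?_, ?_⟩
        · by_contra k
          exact h1 (amat_conn hL hv (e ▸ (one_comp_sub Y a).trans sub) (e ▸ one_conn_comp haY)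
            fun b hb e0 => k ⟨b, hb, e0⟩)
        · split_ifs with h2 <;> simp [h2]
  refine ⟨amat_C L D Y c, ⟨mem_filter.2 ⟨one_mem_cfgs.2 fun x hx => if_neg hx, val⟩, mat⟩, ?_⟩
  rintro C ⟨hC, hm⟩
  obtain ⟨h1, h2⟩ := mem_filter.1 hC
  funext B
  by_cases hB : B ∈ D
  · exact amat_uniq hL h2 val hm mat hB
  · rw [one_mem_cfgs.1 h1 B hB, amat_C, if_neg hB]

end Pool.Agent.Lib.MP_9cc147_pr.Cx
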