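import Pool.Agent.Lib.MP_9cc147_pr.Cx.S1
import Pool.Agent.Lib.MP_9cc147_pr.Cx.A.One1

/-! Shape of the local configurations (first half of `S_one`). -/

open scoped Classical
open Finset

noncomputable section
namespace Pool.Agent.Lib.MP_9cc147_pr.Cx

theorem one_mem_kind {R : Finset P} {c : P → Sf} {i : Fin 4} {b : P} :
    b ∈ kind R c i ↔ b ∈ R ∧ ∃ s, c b = some (s, i) := mem_filter

theorem one_mem_pol {R : Finset P} {c : P → St} {s : Lab} {b : P} :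
    b ∈ pol R c s ↔ b ∈ R ∧ c b = some (s, true) := mem_filter

theorem one_mem_bad {R : Finset P} {c : P → St} {b : P} :
    b ∈ bad R c ↔ b ∈ R ∧ c b = none := mem_filter

theorem one_mem_pcs {R X : Finset P} {c : P → Sf} :
    X ∈ pcs R c ↔ ∃ s, X ∈ comps (pol R (red c) s) := by
  simp only [pcs, mem_biUnion, mem_univ, true_and]

theorem one_red_three {c : P → Sf} {b : P} {s : Lab} (h : c b = some (s, 3)) :
    red c b = some (s, true) := by
  simp only [red, h, Option.map_some]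
  rfl

theorem one_mem_img {L s0 : ℕ} {R : Finset P} {c : P → Sf} {B : P} :
    B ∈ img L s0 R c ↔ ∃ b, (b ∈ kind R c 1 ∨ b ∈ kind R c 3 ∨ b ∈ bad R (red c) ∨
      ∃ X ∈ pcs R c, s0 < X.card ∧ b ∈ X) ∧ par L b = B := by
  simp only [img, mem_image, mem_union, mem_biUnion, mem_univ, true_and, mem_filter, id,
    one_mem_pcs, or_assoc]
  refine exists_congr fun b => and_congr_left fun _ => or_congr_right (or_congr_right
    (or_congr_right ?_))
  exact ⟨fun ⟨s, X, ⟨h1, h2⟩, h3⟩ => ⟨X, ⟨s, h1⟩, h2, h3⟩,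
    fun ⟨X, ⟨s, h1⟩, h2, h3⟩ => ⟨s, X, ⟨h1, h2⟩, h3⟩⟩

theorem one_pcs_sub {R X : Finset P} {c : P → Sf} (h : X ∈ pcs R c) : X ⊆ R := by
  obtain ⟨s, hs⟩ := one_mem_pcs.1 h
  exact (one_comps_sub hs).trans (filter_subset _ _)

theorem one_pcs_conn {R X : Finset P} {c : P → Sf} (h : X ∈ pcs R c) : Conn X := by
  obtain ⟨s, hs⟩ := one_mem_pcs.1 h
  exact one_comps_conn hs

theorem one_three_pcs {R : Finset P} {c : P → Sf} {b : P} (h : b ∈ kind R c 3) :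
    ∃ X ∈ pcs R c, b ∈ X := by
  obtain ⟨hb, s, hs⟩ := one_mem_kind.1 h
  have h1 : b ∈ pol R (red c) s := one_mem_pol.2 ⟨hb, one_red_three hs⟩
  exact ⟨_, one_mem_pcs.2 ⟨s, one_mem_comps.2 ⟨b, h1, rfl⟩⟩, one_self_comp h1⟩

theorem one_flag {s0 : ℕ} {c : P → Sf} {X : Finset P} (h : fw s0 c X ≠ 0) (hX : X.card ≤ s0) :
    ∃ a, kind X c 3 = {a} := by
  rw [fw, if_pos hX] at h
  by_cases h1 : (kind X c 3).card = 1
  · exact card_eq_one.1 h1
  · rw [if_neg h1] at h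
    exact absurd rfl h

theorem one_nat_pos {L s0 : ℕ} {R : Finset P} {c : P → Sf} (h : (img L s0 R c).Nonempty) :
    1 ≤ nat R c := by
  obtain ⟨B, hB⟩ := h
  obtain ⟨b, hb, -⟩ := one_mem_img.1 hB
  unfold nat
  rcases hb with hb | hb | hb | ⟨X, hX, -⟩
  · have := card_pos.2 ⟨b, hb⟩
    omega
  · obtain ⟨X, hX, -⟩ := one_three_pcs hb
    have := card_pos.2 ⟨X, hX⟩
    omega
  · have := card_pos.2 ⟨_, one_mem_comps.2 ⟨b, hb, rfl⟩⟩
    omega
  · have := card_pos.2 ⟨X, hX⟩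
    omega

theorem one_sep {R : Finset P} {c : P → Sf} (hv : valid R (red c)) {X Y : Finset P}
    (hX : X ∈ pcs R c ∪ comps (bad R (red c))) (hY : Y ∈ pcs R c ∪ comps (bad R (red c)))
    (hne : X ≠ Y) {a b : P} (ha : a ∈ X) (hb : b ∈ Y) : ¬ nr 1 a b := by
  intro hab
  rcases mem_union.1 hX with hX | hX <;> rcases mem_union.1 hY with hY | hY
  · obtain ⟨s, hs⟩ := one_mem_pcs.1 hX
    obtain ⟨t, ht⟩ := one_mem_pcs.1 hY
    have h1 := one_mem_pol.1 (one_comps_sub hs ha)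
    have h2 := one_mem_pol.1 (one_comps_sub ht hb)
    have e : s = t := (hv a h1.1 b h2.1 hab).1 s t (by rw [h1.2]; rfl) (by rw [h2.2]; rfl)
    subst e
    exact hne (one_comps_eq hs ht ha hb hab)
  · obtain ⟨s, hs⟩ := one_mem_pcs.1 hX
    have h1 := one_mem_pol.1 (one_comps_sub hs ha)
    have h2 := one_mem_bad.1 (one_comps_sub hY hb)
    exact (hv a h1.1 b h2.1 hab).2 s h1.2 h2.2
  · obtain ⟨s, hs⟩ := one_mem_pcs.1 hY
    have h1 := one_mem_pol.1 (one_comps_sub hs hb)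
    have h2 := one_mem_bad.1 (one_comps_sub hX ha)
    exact (hv b h1.1 a h2.1 (one_nr_symm hab)).2 s h1.2 h2.2
  · exact hne (one_comps_eq hX hY ha hb hab)

theorem one_part1 {L s0 : ℕ} {D U : Finset P} (hL : 1 ≤ L) (hU : U.Nonempty) {c : P → Sf}
    (hc : c ∈ loc L s0 D U) (hl : live s0 (reg L D U) c) : 1 ≤ nat (reg L D U) c ∧
    kind (reg L D U) c 1 ⊆ under L U ∧ bad (reg L D U) (red c) ⊆ under L U ∧
    (∀ X ∈ pcs (reg L D U) c, Conn X ∧ X ⊆ near s0 (reg L D U) (under L U)) ∧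
    (∀ X ∈ pcs (reg L D U) c ∪ comps (bad (reg L D U) (red c)), Conn X ∧
      ∀ Y ∈ pcs (reg L D U) c ∪ comps (bad (reg L D U) (red c)), X ≠ Y →
        ∀ a ∈ X, ∀ b ∈ Y, ¬ nr 1 a b) := by
  obtain ⟨-, hv, hi⟩ := mem_filter.1 hc
  have key : ∀ b, (b ∈ kind (reg L D U) c 1 ∨ b ∈ kind (reg L D U) c 3 ∨
      b ∈ bad (reg L D U) (red c) ∨ ∃ X ∈ pcs (reg L D U) c, s0 < X.card ∧ b ∈ X) →
      b ∈ under L U := fun b hb =>
    (one_mem_under hL).2 (hi ▸ one_mem_img.2 ⟨b, hb, rfl⟩)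
  refine ⟨one_nat_pos (L := L) (s0 := s0) (hi.symm ▸ hU), fun b hb => key b (.inl hb),
    fun b hb => key b (.inr (.inr (.inl hb))), fun X hX => ⟨one_pcs_conn hX, fun b hb => ?_⟩,
    fun X hX => ⟨?_, fun Y hY hne a ha b hb => one_sep hv hX hY hne ha hb⟩⟩
  · refine mem_filter.2 ⟨one_pcs_sub hX hb, ?_⟩
    by_cases h : s0 < X.card
    · exact ⟨b, key b (.inr (.inr (.inr ⟨X, hX, h, hb⟩))), one_nr_refl _ _⟩
    · obtain ⟨a, ha⟩ := one_flag (hl X hX) (not_lt.1 h)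
      have h1 : a ∈ kind X c 3 := ha ▸ mem_singleton_self a
      have h2 := one_mem_kind.1 h1
      exact ⟨a, key a (.inr (.inl (one_mem_kind.2 ⟨one_pcs_sub hX h2.1, h2.2⟩))),
        one_nr_mono (one_diam (one_pcs_conn hX) h2.1 hb) (not_lt.1 h)⟩
  · rcases mem_union.1 hX with hX | hX
    · exact one_pcs_conn hX
    · exact one_comps_conn hX

end Pool.Agent.Lib.MP_9cc147_pr.Cx
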