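import Pool.Agent.Lib.MP_9cc147_pr.Cx.A.One2

/-! The local configurations with one small atom: a mark at `B` (`X = ∅`), or a polymer `X`
flagged at `B`. -/

open scoped Classical
open Finset

noncomputable section
namespace Pool.Agent.Lib.MP_9cc147_pr.Cx

def one_st (B : P) (X : Finset P) (b : P) : Fin 4 :=
  if b = B then (if X = ∅ then 1 else 3) else if b ∈ X then 2 else 0

def one_c (R : Finset P) (s : Lab) (B : P) (X : Finset P) : P → Sf :=
  fun b => if b ∈ R then some (s, one_st B X b) else none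

def one_ok (s0 : ℕ) (B : P) (X : Finset P) : Prop := X = ∅ ∨ (Conn X ∧ B ∈ X ∧ X.card ≤ s0)

variable {R X : Finset P} {s : Lab} {B : P} {s0 : ℕ}

theorem one_c_in {b : P} (hb : b ∈ R) : one_c R s B X b = some (s, one_st B X b) := if_pos hb

theorem one_c_cfgs : one_c R s B X ∈ cfgs univ none R :=
  one_mem_cfgs.2 fun _ hx => if_neg hx

theorem one_c_lab {b : P} (hb : b ∈ R) : lab (one_c R s B X b) = some s := by
  rw [one_c_in hb]
  rfl

theorem one_c_red {b : P} (hb : b ∈ R) :
    red (one_c R s B X) b = some (s, decide (2 ≤ one_st B X b)) := by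
  simp only [red, one_c_in hb, Option.map_some]

theorem one_c_bad : bad R (red (one_c R s B X)) = ∅ :=
  filter_eq_empty_iff.2 fun b hb h => by
    rw [one_c_red hb] at h
    exact absurd h (Option.some_ne_none _)

theorem one_c_valid : valid R (red (one_c R s B X)) := by
  intro a ha b hb _
  rw [one_c_red ha, one_c_red hb]
  refine ⟨fun t u h1 h2 => ?_, fun _ _ => Option.some_ne_none _⟩
  exact (Option.some.inj h1).symm.trans (Option.some.inj h2)

theorem one_st_one {b : P} : one_st B X b = 1 ↔ b = B ∧ X = ∅ := by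
  unfold one_st
  split_ifs <;> simp_all

theorem one_st_three {b : P} : one_st B X b = 3 ↔ b = B ∧ X ≠ ∅ := by
  unfold one_st
  split_ifs <;> simp_all

theorem one_st_two (h : one_ok s0 B X) {b : P} : 2 ≤ one_st B X b ↔ b ∈ X := by
  unfold one_st
  rcases h with rfl | h
  · split_ifs <;> simp_all
  · have h1 : X ≠ ∅ := h.1.1.ne_empty
    have h2 := h.2.1
    split_ifs <;> simp_all

theorem one_c_pol (hX : X ⊆ R) (h : one_ok s0 B X) (t : Lab) :
    pol R (red (one_c R s B X)) t = if t = s then X else ∅ := by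
  ext b
  rw [one_mem_pol]
  constructor
  · rintro ⟨hb, e⟩
    rw [one_c_red hb] at e
    obtain ⟨e1, e2⟩ := Prod.mk.inj (Option.some.inj e)
    rw [if_pos e1.symm]
    exact (one_st_two h).1 (of_decide_eq_true e2)
  · intro hb
    split_ifs at hb with e
    · refine ⟨hX hb, ?_⟩
      rw [one_c_red (hX hb), e, decide_eq_true ((one_st_two h).2 hb)]
    · exact absurd hb (notMem_empty b)

theorem one_c_mark (hB : B ∈ R) (t : Lab) :
    R.filter (fun b => one_c R s B X b = some (t, 1)) = if t = s ∧ X = ∅ then {B} else ∅ := by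
  ext b
  rw [mem_filter]
  constructor
  · rintro ⟨hb, e⟩
    rw [one_c_in hb] at e
    obtain ⟨e1, e2⟩ := Prod.mk.inj (Option.some.inj e)
    obtain ⟨e3, e4⟩ := one_st_one.1 e2
    rw [if_pos ⟨e1.symm, e4⟩, mem_singleton]
    exact e3
  · intro hb
    split_ifs at hb with e
    · rw [mem_singleton] at hb
      subst hb
      exact ⟨hB, by rw [one_c_in hB, e.1, one_st_one.2 ⟨rfl, e.2⟩]⟩
    · exact absurd hb (notMem_empty b)

theorem one_c_kind1 (hB : B ∈ R) :
    kind R (one_c R s B X) 1 = if X = ∅ then {B} else ∅ := by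
  ext b
  rw [one_mem_kind]
  constructor
  · rintro ⟨hb, t, e⟩
    rw [one_c_in hb] at e
    obtain ⟨e3, e4⟩ := one_st_one.1 (Prod.mk.inj (Option.some.inj e)).2
    rw [if_pos e4, mem_singleton]
    exact e3
  · intro hb
    split_ifs at hb with e
    · rw [mem_singleton] at hb
      subst hb
      exact ⟨hB, s, by rw [one_c_in hB, one_st_one.2 ⟨rfl, e⟩]⟩
    · exact absurd hb (notMem_empty b)

theorem one_c_kind3 {Y : Finset P} (hY : Y ⊆ R) (hB : B ∈ Y) :
    kind Y (one_c R s B X) 3 = if X = ∅ then ∅ else {B} := by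
  ext b
  rw [one_mem_kind]
  constructor
  · rintro ⟨hb, t, e⟩
    rw [one_c_in (hY hb)] at e
    obtain ⟨e3, e4⟩ := one_st_three.1 (Prod.mk.inj (Option.some.inj e)).2
    rw [if_neg e4, mem_singleton]
    exact e3
  · intro hb
    split_ifs at hb with e
    · exact absurd hb (notMem_empty b)
    · rw [mem_singleton] at hb
      subst hb
      exact ⟨hB, s, by rw [one_c_in (hY hB), one_st_three.2 ⟨rfl, e⟩]⟩

theorem one_ok_comps (h : one_ok s0 B X) : comps X = if X = ∅ then ∅ else {X} := by
  rcases h with rfl | h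
  · rw [if_pos rfl, one_comps_empty]
  · rw [if_neg h.1.1.ne_empty, one_comps_of_conn h.1]

theorem one_c_pcs (hX : X ⊆ R) (h : one_ok s0 B X) :
    pcs R (one_c R s B X) = if X = ∅ then ∅ else {X} := by
  rw [← one_ok_comps h]
  ext Z
  rw [one_mem_pcs]
  constructor
  · rintro ⟨t, ht⟩
    rw [one_c_pol hX h] at ht
    split_ifs at ht
    · exact ht
    · rw [one_comps_empty] at ht
      exact absurd ht (notMem_empty Z)
  · intro hZ
    exact ⟨s, by rwa [one_c_pol hX h, if_pos rfl]⟩

theorem one_c_small (hX : X ⊆ R) (h : one_ok s0 B X) :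
    ∀ Z ∈ pcs R (one_c R s B X), ¬ s0 < Z.card := by
  intro Z hZ
  rw [one_c_pcs hX h] at hZ
  split_ifs at hZ with e
  · exact absurd hZ (notMem_empty Z)
  · rw [mem_singleton.1 hZ]
    exact not_lt.2 (h.resolve_left e).2.2

theorem one_c_nat (hB : B ∈ R) (hX : X ⊆ R) (h : one_ok s0 B X) : nat R (one_c R s B X) = 1 := by
  rw [nat, one_c_kind1 hB, one_c_pcs hX h, one_c_bad, one_comps_empty]
  split_ifs <;> simp

theorem one_c_img (L : ℕ) (hB : B ∈ R) (hX : X ⊆ R) (h : one_ok s0 B X) :
    img L s0 R (one_c R s B X) = {par L B} := by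
  ext A
  rw [one_mem_img, mem_singleton, one_c_kind1 hB, one_c_kind3 (Subset.refl R) hB, one_c_bad]
  constructor
  · rintro ⟨b, hb | hb | hb | ⟨Z, hZ, h1, -⟩, rfl⟩
    · split_ifs at hb
      · rw [mem_singleton.1 hb]
      · exact absurd hb (notMem_empty b)
    · split_ifs at hb
      · exact absurd hb (notMem_empty b)
      · rw [mem_singleton.1 hb]
    · exact absurd hb (notMem_empty b)
    · exact absurd h1 (one_c_small hX h Z hZ)
  · rintro rfl
    refine ⟨B, ?_, rfl⟩
    by_cases e : X = ∅
    · exact .inl (by rw [if_pos e]; exact mem_singleton_self B)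
    · exact .inr (.inl (by rw [if_neg e]; exact mem_singleton_self B))

theorem one_c_lw {L : ℕ} {D U : Finset P} (hU : under L U ⊆ reg L D U) (hB : B ∈ reg L D U)
    (hX : X ⊆ reg L D U) (h : one_ok s0 B X) (T M : Lab → P → ℂ) (K : Lab → Finset P → ℂ) :
    lw L s0 D U T M K (fun _ _ => 0) (one_c (reg L D U) s B X) =
      (∏ A ∈ under L U, T s A) * if X = ∅ then M s B else K s X / X.card := by
  have e1 : ∏ t, ∏ A ∈ (under L U).filter
      (fun b => lab (one_c (reg L D U) s B X b) = some t), T t A = ∏ A ∈ under L U, T s A := by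
    rw [prod_eq_single s]
    · rw [filter_true_of_mem fun b hb => one_c_lab (hU hb)]
    · intro t _ ht
      rw [filter_false_of_mem, prod_empty]
      intro b hb e
      rw [one_c_lab (hU hb)] at e
      exact ht (Option.some.inj e).symm
    · exact fun h => absurd (mem_univ s) h
  have e2 : ∏ t, ∏ A ∈ (reg L D U).filter
      (fun b => one_c (reg L D U) s B X b = some (t, 1)), M t A = if X = ∅ then M s B else 1 := by
    rw [prod_eq_single s]
    · rw [one_c_mark hB]
      by_cases e : X = ∅
      · rw [if_pos ⟨rfl, e⟩, if_pos e, prod_singleton]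
      · rw [if_neg fun h => e h.2, if_neg e, prod_empty]
    · intro t _ ht
      rw [one_c_mark hB, if_neg fun h => ht h.1, prod_empty]
    · exact fun h => absurd (mem_univ s) h
  have e3 : ∏ t, ∏ Z ∈ comps (pol (reg L D U) (red (one_c (reg L D U) s B X)) t),
      fw s0 (one_c (reg L D U) s B X) Z * K t Z = if X = ∅ then 1 else K s X / X.card := by
    rw [prod_eq_single s]
    · rw [one_c_pol hX h, if_pos rfl, one_ok_comps h]
      by_cases e : X = ∅
      · rw [if_pos e, if_pos e, prod_empty]
      · have h1 := h.resolve_left e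
        rw [if_neg e, if_neg e, prod_singleton, fw, if_pos h1.2.2, one_c_kind3 hX h1.2.1,
          if_neg e, card_singleton, if_pos rfl, div_eq_mul_inv, mul_comm]
    · intro t _ ht
      rw [one_c_pol hX h, if_neg ht, one_comps_empty, prod_empty]
    · exact fun h => absurd (mem_univ s) h
  rw [lw, e1, e2, e3, one_c_bad, one_comps_empty, prod_empty]
  split_ifs <;> ring

theorem one_c_inj {B' : P} {X' : Finset P} (hB : B ∈ R) (hX : X ⊆ R) (h : one_ok s0 B X)
    (hB' : B' ∈ R) (hX' : X' ⊆ R) (h' : one_ok s0 B' X')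
    (e : one_c R s B X = one_c R s B' X') : B = B' ∧ X = X' := by
  have e1 : X = X' := by
    have h1 := one_c_pol (s := s) hX h s
    rw [e, one_c_pol hX' h', if_pos rfl, if_pos rfl] at h1
    exact h1.symm
  subst e1
  refine ⟨?_, rfl⟩
  have h1 := one_c_kind1 (s := s) (X := X) hB
  have h3 := one_c_kind3 (s := s) (X := X) (Subset.refl R) hB
  rw [e, one_c_kind1 hB'] at h1
  rw [e, one_c_kind3 (Subset.refl R) hB'] at h3
  by_cases e0 : X = ∅
  · rw [if_pos e0, if_pos e0] at h1
    exact (singleton_injective h1).symm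
  · rw [if_neg e0, if_neg e0] at h3
    exact (singleton_injective h3).symm

end Pool.Agent.Lib.MP_9cc147_pr.Cx
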