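import Pool.Agent.Lib.MP_9cc147_pr.Cx.S1

/-! Statements inside the module A (reblocking identity). -/

open scoped Classical
open Finset

noncomputable section
namespace Pool.Agent.Lib.MP_9cc147_pr.Cx

/-- weight of a fine configuration on the whole region -/
def gw (s0 : ℕ) (R : Finset P) (T M : Lab → P → ℂ) (K : Lab → Finset P → ℂ)
    (N : Finset P → (P → Option Lab) → ℂ) (c : P → Sf) : ℂ :=
  (∏ s, ∏ B ∈ R.filter (fun b => lab (c b) = some s), T s B) *
    (∏ s, ∏ B ∈ R.filter (fun b => c b = some (s, 1)), M s B) *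
    (∏ s, ∏ X ∈ comps (pol R (red c) s), fw s0 c X * K s X) *
    ∏ X ∈ comps (bad R (red c)), N X (sig R (red c) X)
/-- `cls D C none = bad D C`, `cls D C (some s) = pol D C s` -/
def A.cls (D : Finset P) (C : P → St) (x : Option Lab) : Finset P :=
  D.filter fun b => C b = x.map fun s => (s, true)
export A (cls)
/-- all polymers of a coarse configuration, with their class -/
def jj (D : Finset P) (C : P → St) : Finset (Σ _ : Option Lab, Finset P) :=
  univ.sigma fun x => comps (cls D C x)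
def act (D : Finset P) (C : P → St) : Finset P := D.filter fun b => ∀ s, C b ≠ some (s, false)
def Typ (L : ℕ) (D U : Finset P) (σ : P → Option Lab) (x : Option Lab) (c : P → Sf) : Prop :=
  (∃ s, x = some s ∧ ∀ b ∈ under L U, lab (c b) = some s) ∨
    ((∃ b ∈ under L U, c b = none) ∧ (x = none ↔ ¬ Neu D U σ))
/-- the coarse configuration `C` is the one read off from the fine configuration `c` -/
def Mat (L s0 : ℕ) (D : Finset P) (C : P → St) (c : P → Sf) : Prop :=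
  img L s0 (under L D) c = act D C ∧
  (∀ b ∈ under L D, ∀ s, C (par L b) = some (s, false) → lab (c b) = some s) ∧
  ∀ j ∈ jj D C, Typ L D j.2 (sig D C j.2) j.1 c
def locC (L s0 : ℕ) (D : Finset P) (C : P → St) (j : Σ _ : Option Lab, Finset P) :
    Finset (P → Sf) :=
  (loc L s0 D j.2).filter fun c =>
    (∀ b ∈ under L (bdry D j.2), lab (c b) = sig D C j.2 (par L b)) ∧
      Typ L D j.2 (sig D C j.2) j.1 c
def zn (L s0 : ℕ) (D U : Finset P) : Finset P := near s0 (reg L D U) (under L U)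
def bs (L : ℕ) (C : P → St) : P → Sf := fun b => (C (par L b)).map fun x => (x.1, 0)
def rs (L s0 : ℕ) (D : Finset P) (C : P → St) (U : Finset P) (c : P → Sf) : P → Sf :=
  fun b => if b ∈ zn L s0 D U then c b else if b ∈ reg L D U then bs L C b else none

def S_a_exp : Prop := ∀ (s0 : ℕ) (R : Finset P) (I T M : Lab → P → ℂ)
  (K Kh : Lab → Finset P → ℂ) (N : Finset P → (P → Option Lab) → ℂ),
  (∀ s, ∀ B ∈ R, I s B = T s B * (1 + M s B)) →
  (∀ s X, X ⊆ R → K s X = Kh s X * ∏ B ∈ X, T s B) →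
  Wsum R I K N = ∑ c ∈ (cfgs univ none R).filter (fun c => valid R (red c)), gw s0 R T M Kh N c

def S_a_sum : Prop :=
  (∀ (ι : Type) (J : Finset ι) (Z : ι → Finset P) (w : ι → (P → Sf) → ℂ),
    (∀ j ∈ J, ∀ k ∈ J, j ≠ k → Disjoint (Z j) (Z k)) →
    ∑ g ∈ cfgs univ none (J.biUnion Z), ∏ j ∈ J, w j (fun b => if b ∈ Z j then g b else none) =
      ∏ j ∈ J, ∑ g ∈ cfgs univ none (Z j), w j g) ∧
  ∀ (R Z : Finset P) (c0 : P → Sf) (F : (P → Sf) → ℂ), Z ⊆ R → (∀ b, b ∉ R → c0 b = none) →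
    (∀ c ∈ cfgs univ none R, F c ≠ 0 → ∀ b ∈ R, b ∉ Z → c b = c0 b) →
    ∑ c ∈ cfgs univ none R, F c =
      ∑ g ∈ cfgs univ none Z, F fun b => if b ∈ Z then g b else c0 b

def S_a_mat : Prop := ∀ (L s0 : ℕ) (D : Finset P) (c : P → Sf), 0 < L →
  valid (under L D) (red c) →
  ∃! C, C ∈ (cfgs univ none D).filter (valid D) ∧ Mat L s0 D C c

def S_a_cw : Prop := ∀ (L s0 : ℕ) (D : Finset P) (T M : Lab → P → ℂ) (K : Lab → Finset P → ℂ)
  (N : Finset P → (P → Option Lab) → ℂ) (C : P → St), 0 < L → valid D C →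
  (∏ s, ∏ U ∈ comps (pol D C s), (L0 L s0 D U T M K s +
      if (bdry D U).Nonempty then L1 L s0 D U T M K N (cst D U s) else 0)) *
    (∏ U ∈ comps (bad D C),
      if Nn D U (sig D C U) then L1 L s0 D U T M K N (sig D C U) else 0) =
    ∏ j ∈ jj D C, ∑ c ∈ locC L s0 D C j, lw L s0 D j.2 T M K N c

def S_a_iff : Prop := ∀ (L s0 : ℕ) (D : Finset P) (C : P → St) (c : P → Sf), 2 * s0 + 1 ≤ L →
  valid D C → (∀ b ∈ under L D, (∀ j ∈ jj D C, b ∉ zn L s0 D j.2) → c b = bs L C b) →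
  ((valid (under L D) (red c) ∧ Mat L s0 D C c) ↔
    ∀ j ∈ jj D C, rs L s0 D C j.2 c ∈ locC L s0 D C j)

def S_a_wt : Prop := ∀ (L s0 : ℕ) (D : Finset P) (T M : Lab → P → ℂ) (K : Lab → Finset P → ℂ)
  (N : Finset P → (P → Option Lab) → ℂ) (C : P → St) (c : P → Sf), 2 * s0 + 1 ≤ L →
  valid D C → (∀ b ∈ under L D, (∀ j ∈ jj D C, b ∉ zn L s0 D j.2) → c b = bs L C b) →
  (∀ b ∈ under L D, ∀ s, C (par L b) = some (s, false) → lab (c b) = some s) →
  gw s0 (under L D) T M K N c = (∏ s, ∏ B' ∈ fre D C s, ∏ B ∈ cell L B', T s B) *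
    ∏ j ∈ jj D C, lw L s0 D j.2 T M K N (rs L s0 D C j.2 c)

def S_a_van : Prop := ∀ (L s0 : ℕ) (R : Finset P) (c : P → Sf) (b : P) (s : Lab),
  live s0 R c → b ∈ R → lab (c b) = some s →
  (∀ a ∈ R, par L a ∈ img L s0 R c → ¬ nr s0 a b) → c b = some (s, 0)

end Pool.Agent.Lib.MP_9cc147_pr.Cx
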