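import Pool.Agent.Lib.MP_9cc147_pr.Cx.A.Geo

/-! Sums over configurations on disjoint zones. -/

open scoped Classical
open Finset

noncomputable section
namespace Pool.Agent.Lib.MP_9cc147_pr.Cx

theorem asum_two {A B : Finset P} (h : Disjoint A B) (F G : (P → Sf) → ℂ) :
    ∑ g ∈ cfgs univ none (A ∪ B), F (fun b => if b ∈ A then g b else none) *
        G (fun b => if b ∈ B then g b else none) =
      (∑ g ∈ cfgs univ none A, F g) * ∑ g ∈ cfgs univ none B, G g := by
  rw [sum_mul_sum, ← sum_product']
  refine sum_nbij' (fun g => (fun b => if b ∈ A then g b else none,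
    fun b => if b ∈ B then g b else none)) (fun y b => if b ∈ A then y.1 b else y.2 b)
    (fun g _ => ?_) (fun y hy => ?_) (fun g hg => ?_) (fun y hy => ?_) fun _ _ => rfl
  · exact mem_product.2 ⟨geo_mem_cfgs.2 fun b hb => if_neg hb, geo_mem_cfgs.2 fun b hb => if_neg hb⟩
  · refine geo_mem_cfgs.2 fun b hb => ?_
    rw [mem_union, not_or] at hb
    rw [if_neg hb.1]
    exact geo_mem_cfgs.1 (mem_product.1 hy).2 b hb.2
  · funext b
    by_cases h1 : b ∈ A
    · simp only [if_pos h1]
    · by_cases h2 : b ∈ B
      · simp only [if_neg h1, if_pos h2]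
      · simp only [if_neg h1, if_neg h2]
        exact (geo_mem_cfgs.1 hg b fun k => (mem_union.1 k).elim h1 h2).symm
  · refine Prod.ext (funext fun b => ?_) (funext fun b => ?_)
    · by_cases h1 : b ∈ A
      · simp only [if_pos h1]
      · simp only [if_neg h1]
        exact (geo_mem_cfgs.1 (mem_product.1 hy).1 b h1).symm
    · by_cases h2 : b ∈ B
      · simp only [if_pos h2, if_neg (disjoint_right.1 h h2)]
      · simp only [if_neg h2]
        exact (geo_mem_cfgs.1 (mem_product.1 hy).2 b h2).symm

theorem t_a_sum : S_a_sum := by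
  refine ⟨fun ι J Z w => ?_, fun R Z c0 F hZ h0 h => ?_⟩
  · induction J using Finset.induction_on with
    | empty =>
      intro _
      have : cfgs (univ : Finset Sf) none (∅ : Finset P) = {fun _ => none} := by
        ext g
        rw [geo_mem_cfgs, mem_singleton]
        exact ⟨fun k => funext fun b => k b (notMem_empty b), fun k b _ => by rw [k]⟩
      simp [this]
    | insert k J hk ih =>
      intro hd
      rw [biUnion_insert, prod_insert hk, ← ih fun i hi j hj =>
        hd i (mem_insert_of_mem hi) j (mem_insert_of_mem hj), ← asum_two]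
      · refine sum_congr rfl fun g _ => ?_
        rw [prod_insert hk]
        congr 1
        refine prod_congr rfl fun j hj => ?_
        congr 1
        funext b
        by_cases hb : b ∈ Z j
        · simp only [if_pos hb, if_pos (mem_biUnion.2 ⟨j, hj, hb⟩)]
        · simp only [if_neg hb]
      · exact (disjoint_biUnion_right _ _ _).2 fun j hj =>
          hd k (mem_insert_self _ _) j (mem_insert_of_mem hj) fun e => hk (e ▸ hj)
  · refine (sum_of_injOn (fun (g : P → Sf) b => if b ∈ Z then g b else c0 b)
      (fun g hg g' hg' e => ?_)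
      (fun g _ => ?_) (fun c hc hn => ?_) fun _ _ => rfl).symm
    · funext b
      by_cases hb : b ∈ Z
      · simpa only [if_pos hb] using congrFun e b
      · rw [geo_mem_cfgs.1 hg b hb, geo_mem_cfgs.1 hg' b hb]
    · exact geo_mem_cfgs.2 fun b hb => (if_neg fun k => hb (hZ k)).trans (h0 b hb)
    · by_contra hF
      refine hn ⟨fun b => if b ∈ Z then c b else none,
        mem_coe.2 (geo_mem_cfgs.2 fun b hb => if_neg hb), funext fun b => ?_⟩
      by_cases hb : b ∈ Z
      · simp only [if_pos hb]
      · simp only [if_neg hb]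
        by_cases hR : b ∈ R
        · exact (h c hc hF b hR hb).symm
        · rw [h0 b hR, geo_mem_cfgs.1 hc b hR]

end Pool.Agent.Lib.MP_9cc147_pr.Cx
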