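import Pool.Agent.Lib.MP_9cc147_pr.Cx.A.One3

/-! `S_one`: shape of the local configurations, and the terms with one small atom. -/

open scoped Classical
open Finset

noncomputable section
namespace Pool.Agent.Lib.MP_9cc147_pr.Cx

theorem one_lab_ex {x : Sf} {s : Lab} (h : lab x = some s) : ∃ i, x = some (s, i) := by
  rcases x with _ | ⟨t, i⟩
  · exact absurd h (by simp [lab])
  · exact ⟨i, by rw [← Option.some.inj h]⟩

theorem one_two_iff {R : Finset P} {c : P → Sf} {b : P} {s : Lab} {i : Fin 4} (hb : b ∈ R)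
    (e : c b = some (s, i)) : 2 ≤ i ↔ ∃ X ∈ pcs R c, b ∈ X := by
  have hr : red c b = some (s, decide (2 ≤ i)) := by simp only [red, e, Option.map_some]
  constructor
  · intro h
    have h1 : b ∈ pol R (red c) s := one_mem_pol.2 ⟨hb, by rw [hr, decide_eq_true h]⟩
    exact ⟨_, one_mem_pcs.2 ⟨s, one_mem_comps.2 ⟨b, h1, rfl⟩⟩, one_self_comp h1⟩
  · rintro ⟨X, hX, hbX⟩
    obtain ⟨t, ht⟩ := one_mem_pcs.1 hX
    have h1 := (one_mem_pol.1 (one_comps_sub ht hbX)).2
    rw [hr] at h1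
    exact of_decide_eq_true (Prod.mk.inj (Option.some.inj h1)).2

theorem one_class {s0 : ℕ} {R : Finset P} {c : P → Sf} {s : Lab} (hc : c ∈ cfgs univ none R)
    (hs : ∀ b ∈ R, lab (c b) = some s) (hn : nat R c = 1) (hb : ¬ big s0 R c)
    (hl : live s0 R c) : ∃ B ∈ R, ∃ X ⊆ R, one_ok s0 B X ∧ c = one_c R s B X := by
  have h0 : bad R (red c) = ∅ := filter_eq_empty_iff.2 fun b hb h => by
    obtain ⟨i, e⟩ := one_lab_ex (hs b hb)
    simp [red, e] at h
  have hn' := hn
  rw [nat, h0, one_comps_empty, card_empty] at hn'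
  have fin : ∀ B X, (∀ b ∈ R, ∀ i, c b = some (s, i) → i = one_st B X b) → c = one_c R s B X := by
    intro B X h
    funext b
    by_cases hb : b ∈ R
    · obtain ⟨i, e⟩ := one_lab_ex (hs b hb)
      rw [one_c_in hb, e, h b hb i e]
    · rw [one_mem_cfgs.1 hc b hb, one_mem_cfgs.1 one_c_cfgs b hb]
  have k1 : ∀ b ∈ R, ∀ i j, c b = some (s, i) → ((∃ t, c b = some (t, j)) ↔ i = j) := by
    intro b _ i j e
    rw [e]
    exact ⟨fun ⟨_, h⟩ => (Prod.mk.inj (Option.some.inj h)).2, fun h => ⟨s, by rw [h]⟩⟩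
  by_cases hp : (pcs R c).card = 0
  · obtain ⟨B, hB⟩ := card_eq_one.1 (show (kind R c 1).card = 1 by omega)
    have hBR : B ∈ R := (one_mem_kind.1 (hB ▸ mem_singleton_self B : B ∈ kind R c 1)).1
    refine ⟨B, hBR, ∅, empty_subset _, .inl rfl, fin B ∅ fun b hb i e => ?_⟩
    have h2 : ¬ 2 ≤ i := fun h => by
      obtain ⟨X, hX, -⟩ := (one_two_iff hb e).1 h
      rw [card_eq_zero.1 hp] at hX
      exact notMem_empty X hX
    have h1 : i = 1 ↔ b = B := by
      rw [← mem_singleton (a := B), ← hB, one_mem_kind, k1 b hb i 1 e]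
      exact ⟨fun h => ⟨hb, h⟩, fun h => h.2⟩
    unfold one_st
    by_cases e1 : b = B
    · rw [if_pos e1, if_pos rfl]
      exact h1.2 e1
    · rw [if_neg e1, if_neg (notMem_empty b)]
      have h3 : i ≠ 1 := fun h => e1 (h1.1 h)
      revert h2 h3
      revert i
      intro i _ _
      fin_cases i <;> simp
  · obtain ⟨X, hX⟩ := card_eq_one.1 (show (pcs R c).card = 1 by omega)
    have hXm : X ∈ pcs R c := hX ▸ mem_singleton_self X
    have hk : kind R c 1 = ∅ := card_eq_zero.1 (by omega)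
    have hXs : X.card ≤ s0 := not_lt.1 fun h => hb ⟨hn, X, hXm, h⟩
    obtain ⟨B, hB⟩ := one_flag (hl X hXm) hXs
    have hBX : B ∈ X := (one_mem_kind.1 (hB ▸ mem_singleton_self B : B ∈ kind X c 3)).1
    have hXR := one_pcs_sub hXm
    have hXc := one_pcs_conn hXm
    refine ⟨B, hXR hBX, X, hXR, .inr ⟨hXc, hBX, hXs⟩, fin B X fun b hb i e => ?_⟩
    have h1 : i ≠ 1 := fun h => by
      have h2 : b ∈ kind R c 1 := one_mem_kind.2 ⟨hb, (k1 b hb i 1 e).2 h⟩
      rw [hk] at h2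
      exact notMem_empty b h2
    have h2 : 2 ≤ i ↔ b ∈ X := by
      rw [one_two_iff hb e, hX]
      simp
    have h3 : i = 3 ↔ b = B := by
      rw [← mem_singleton (a := B), ← hB, one_mem_kind, k1 b hb i 3 e]
      exact ⟨fun h => ⟨h2.1 (by rw [h]; decide), h⟩, fun h => h.2⟩
    unfold one_st
    by_cases e1 : b = B
    · rw [if_pos e1, if_neg hXc.1.ne_empty]
      exact h3.2 e1
    · have h4 : i ≠ 3 := fun h => e1 (h3.1 h)
      rw [if_neg e1]
      by_cases e2 : b ∈ X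
      · rw [if_pos e2]
        have h5 := h2.2 e2
        clear h1 h2 h3 e
        revert h4 h5
        fin_cases i <;> simp
      · rw [if_neg e2]
        have h5 : ¬ 2 ≤ i := fun h => e2 (h2.1 h)
        clear h4 h2 h3 e
        revert h1 h5
        fin_cases i <;> simp

theorem one_lw_dead {L s0 : ℕ} {D U : Finset P} {T M : Lab → P → ℂ} {K : Lab → Finset P → ℂ}
    {N : Finset P → (P → Option Lab) → ℂ} {c : P → Sf} (h : ¬ live s0 (reg L D U) c) :
    lw L s0 D U T M K N c = 0 := by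
  unfold live at h
  push Not at h
  obtain ⟨X, hX, h0⟩ := h
  obtain ⟨s, hs⟩ := one_mem_pcs.1 hX
  have e : ∏ t, ∏ Z ∈ comps (pol (reg L D U) (red c) t), fw s0 c Z * K t Z = 0 :=
    prod_eq_zero (mem_univ s) (prod_eq_zero hs (by rw [h0, zero_mul]))
  rw [lw, e, mul_zero, zero_mul]

def one_J (L s0 : ℕ) (D U : Finset P) : Finset (P × Finset P) :=
  (under L U ×ˢ (under L D).powerset).filter fun p => one_ok s0 p.1 p.2

theorem one_mem_J {L s0 : ℕ} {D U : Finset P} {p : P × Finset P} :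
    p ∈ one_J L s0 D U ↔ p.1 ∈ under L U ∧ p.2 ⊆ under L D ∧ one_ok s0 p.1 p.2 := by
  rw [one_J, mem_filter, mem_product, mem_powerset, and_assoc]

theorem one_J_reg {L s0 : ℕ} {D U : Finset P} (hL : 1 ≤ L) (hs : s0 ≤ L) {p : P × Finset P}
    (hp : p ∈ one_J L s0 D U) : p.2 ⊆ reg L D U := by
  obtain ⟨h1, h2, h3⟩ := one_mem_J.1 hp
  intro b hb
  rcases h3 with h3 | h3
  · rw [h3] at hb
    exact absurd hb (notMem_empty b)
  · exact (one_mem_reg hL).2 ⟨(one_mem_under hL).1 (h2 hb), _, (one_mem_under hL).1 h1,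
      one_par_nr hL (one_nr_mono (one_diam h3.1 h3.2.1 hb) (h3.2.2.trans hs))⟩

theorem one_J_sum {L s0 : ℕ} {D U : Finset P} (f : P → ℂ) (g : Finset P → ℂ) :
    ∑ p ∈ one_J L s0 D U, (if p.2 = ∅ then f p.1 else g p.2) = ∑ B ∈ under L U,
      (f B + ∑ X ∈ (under L D).powerset.filter (fun X => Conn X ∧ B ∈ X ∧ X.card ≤ s0), g X) := by
  rw [one_J, sum_filter, sum_product]
  refine sum_congr rfl fun B _ => ?_
  rw [← sum_filter]
  have e : (under L D).powerset.filter (fun X => one_ok s0 B X) =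
      insert ∅ ((under L D).powerset.filter fun X => Conn X ∧ B ∈ X ∧ X.card ≤ s0) := by
    ext X
    simp only [mem_filter, mem_insert, mem_powerset, one_ok]
    constructor
    · rintro ⟨h1, h2 | h2⟩
      · exact .inl h2
      · exact .inr ⟨h1, h2⟩
    · rintro (rfl | h)
      · exact ⟨empty_subset _, .inl rfl⟩
      · exact ⟨h.1, .inr h.2⟩
  rw [e, sum_insert fun h => (mem_filter.1 h).2.1.1.ne_empty rfl, if_pos rfl]
  congr 1
  exact sum_congr rfl fun X hX => if_neg (mem_filter.1 hX).2.1.1.ne_empty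

theorem t_one : S_one := by
  intro L s0 D U hL0 hUD hU
  have hL : 1 ≤ L := by omega
  have hs : s0 ≤ L := by omega
  refine ⟨fun c hc hl => one_part1 hL hU hc hl, fun T M K s => ?_⟩
  have hUR := one_under_reg hL hUD
  have cls : ∀ c ∈ (loc0 L s0 D U s).filter
      (fun c => nat (reg L D U) c = 1 ∧ ¬ big s0 (reg L D U) c), live s0 (reg L D U) c →
      ∃ p ∈ one_J L s0 D U, U = {par L p.1} ∧ c = one_c (reg L D U) s p.1 p.2 := by
    intro c hc hl
    obtain ⟨h1, hn, hb⟩ := mem_filter.1 hc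
    obtain ⟨h2, hlab⟩ := mem_filter.1 h1
    obtain ⟨h3, -, hi⟩ := mem_filter.1 h2
    obtain ⟨B, hB, X, hX, hok, e⟩ := one_class h3 hlab hn hb hl
    rw [e, one_c_img L hB hX hok] at hi
    exact ⟨(B, X), one_mem_J.2 ⟨(one_mem_under hL).2 (hi ▸ mem_singleton_self _),
      hX.trans (one_reg_under hL D U), hok⟩, hi.symm, e⟩
  split_ifs with h1
  · rw [← one_J_sum (M s) (fun X => K s X / X.card), mul_sum]
    symm
    refine sum_of_injOn (fun p => one_c (reg L D U) s p.1 p.2) ?_ ?_ ?_ ?_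
    · intro p hp q hq e
      have a1 := one_mem_J.1 (mem_coe.1 hp)
      have a2 := one_mem_J.1 (mem_coe.1 hq)
      have a3 := one_c_inj (hUR a1.1) (one_J_reg hL hs (mem_coe.1 hp)) a1.2.2 (hUR a2.1)
        (one_J_reg hL hs (mem_coe.1 hq)) a2.2.2 e
      exact Prod.ext a3.1 a3.2
    · intro p hp
      have a1 := one_mem_J.1 hp
      have a2 := one_J_reg hL hs hp
      refine mem_filter.2 ⟨mem_filter.2 ⟨mem_filter.2 ⟨one_c_cfgs, one_c_valid, ?_⟩,
        fun b hb => one_c_lab hb⟩, one_c_nat (hUR a1.1) a2 a1.2.2,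
        fun h => ?_⟩
      · rw [one_c_img L (hUR a1.1) a2 a1.2.2]
        obtain ⟨u, rfl⟩ := card_eq_one.1 h1
        rw [mem_singleton.1 ((one_mem_under hL).1 a1.1)]
      · obtain ⟨Z, hZ, h2⟩ := h.2
        exact one_c_small a2 a1.2.2 Z hZ h2
    · intro c hc hn
      by_contra h0
      obtain ⟨p, hp, -, e⟩ := cls c hc (by_contra fun h => h0 (one_lw_dead h))
      exact hn ⟨p, mem_coe.2 hp, e.symm⟩
    · intro p hp
      have a1 := one_mem_J.1 hp
      exact (one_c_lw hUR (hUR a1.1) (one_J_reg hL hs hp) a1.2.2 T M K).symm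
  · refine sum_eq_zero fun c hc => ?_
    by_contra h0
    obtain ⟨p, -, e, -⟩ := cls c hc (by_contra fun h => h0 (one_lw_dead h))
    exact h1 (by rw [e, card_singleton])

end Pool.Agent.Lib.MP_9cc147_pr.Cx
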