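import Pool.Agent.Lib.MP_9cc147_pr.Cx.A.S
import Pool.Agent.Lib.MP_9cc147_pr.Cx.A.One1

/-! The weight of a fine configuration factorises over the coarse polymers. -/

open scoped Classical
open Finset

noncomputable section
namespace Pool.Agent.Lib.MP_9cc147_pr.Cx

lemma awt_nr {k l : ℕ} {a b c : P} (h : nr k a b) (h' : nr l b c) : nr (k + l) a c :=
  ⟨by push_cast; linarith [abs_sub_le a.1 b.1 c.1, h.1, h'.1],
    by push_cast; linarith [abs_sub_le a.2 b.2 c.2, h.2, h'.2]⟩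

lemma awt_cover (Y : Finset P) (F : P → ℂ) : ∏ X ∈ comps Y, ∏ B ∈ X, F B = ∏ B ∈ Y, F B := by
  rw [← prod_biUnion (t := fun X => X) fun X hX X' hX' h => disjoint_left.2 fun a h1 h2 =>
    h (one_comps_eq hX hX' h1 h2 (one_nr_refl 1 a))]
  refine prod_congr (subset_antisymm (biUnion_subset.2 fun X hX => one_comps_sub hX)
    fun a ha => mem_biUnion.2 ⟨_, one_mem_comps.2 ⟨a, ha, rfl⟩, one_self_comp ha⟩) fun _ _ => rfl

lemma awt_comps {ι : Type} (J : Finset ι) (Y : ι → Finset P)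
    (h : ∀ j ∈ J, ∀ k ∈ J, ∀ a ∈ Y j, ∀ b ∈ Y k, nr 1 a b → j = k) (f : Finset P → ℂ) :
    ∏ X ∈ comps (J.biUnion Y), f X = ∏ j ∈ J, ∏ X ∈ comps (Y j), f X := by
  have key : ∀ j ∈ J, ∀ a ∈ Y j, comp (J.biUnion Y) a = comp (Y j) a := fun j hj a ha => by
    ext b
    simp only [one_mem_comp]
    constructor
    · rintro ⟨-, hb⟩
      induction hb with
      | refl => exact ⟨ha, .refl⟩
      | tail _ e ih =>
        obtain ⟨k, hk, hc⟩ := mem_biUnion.1 e.2.1
        obtain rfl := h j hj k hk _ ih.1 _ hc e.2.2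
        exact ⟨hc, ih.2.tail ⟨ih.1, hc, e.2.2⟩⟩
    · exact fun hb => ⟨subset_biUnion_of_mem Y hj hb.1, Relation.ReflTransGen.mono (fun x y e =>
        ⟨subset_biUnion_of_mem Y hj e.1, subset_biUnion_of_mem Y hj e.2.1, e.2.2⟩) _ _ hb.2⟩
  rw [← prod_biUnion fun j hj k hk e => disjoint_left.2 fun X h1 h2 => by
    obtain ⟨a, ha⟩ := (one_comps_conn h1).1
    exact e (h j hj k hk a (one_comps_sub h1 ha) a (one_comps_sub h2 ha) (one_nr_refl 1 a))]
  refine prod_congr ?_ fun _ _ => rfl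
  ext X
  simp only [one_mem_comps, mem_biUnion]
  constructor
  · rintro ⟨a, ⟨j, hj, ha⟩, rfl⟩
    exact ⟨j, hj, a, ha, (key j hj a ha).symm⟩
  · rintro ⟨j, hj, a, ha, rfl⟩
    exact ⟨a, ⟨j, hj, ha⟩, key j hj a ha⟩

lemma awt_split (D : Finset P) (C : P → St) (F : P → ℂ) : ∏ B ∈ D, F B =
    (∏ s, ∏ B ∈ fre D C s, F B) * ∏ j ∈ jj D C, ∏ B ∈ j.2, F B := by
  rw [jj, prod_sigma, ← prod_fiberwise D C F]
  simp only [awt_cover, Fintype.prod_option, Fintype.prod_prod_type, Fintype.prod_bool,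
    prod_mul_distrib, cls, fre, Option.map_none, Option.map_some]
  ring

variable {L s0 : ℕ} {D : Finset P} {C : P → St}

lemma awt_mem {j : Σ _ : Option Lab, Finset P} (hj : j ∈ jj D C) : j.2 ∈ comps (cls D C j.1) :=
  (mem_sigma.1 hj).2

lemma awt_sub {j : Σ _ : Option Lab, Finset P} (hj : j ∈ jj D C) : j.2 ⊆ D :=
  (one_comps_sub (awt_mem hj)).trans (filter_subset _ _)

lemma awt_adj (hC : valid D C) : ∀ j ∈ jj D C, ∀ k ∈ jj D C, ∀ a ∈ j.2, ∀ b ∈ k.2,
    nr 1 a b → j = k := by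
  rintro ⟨x, U⟩ hj ⟨y, V⟩ hk a ha b hb h
  have h1 := mem_filter.1 (one_comps_sub (awt_mem hj) ha)
  have h2 := mem_filter.1 (one_comps_sub (awt_mem hk) hb)
  have o1 := hC a h1.1 b h2.1 h
  have o2 := hC b h2.1 a h1.1 (one_nr_symm h)
  rw [h1.2, h2.2] at o1 o2
  obtain rfl : x = y := by
    rcases x with _ | s <;> rcases y with _ | t
    · rfl
    · exact absurd rfl (o2.2 t rfl)
    · exact absurd rfl (o1.2 s rfl)
    · exact congrArg some (o1.1 s t rfl rfl)
  obtain rfl : U = V := one_comps_eq (awt_mem hj) (awt_mem hk) ha hb h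
  rfl

lemma awt_free {B : P} (hB : B ∈ D) (h : ∀ j ∈ jj D C, B ∉ j.2) : ∃ s, C B = some (s, false) := by
  have key : ∀ x : Option Lab, C B ≠ x.map fun s => (s, true) := fun x e =>
    h ⟨x, comp (cls D C x) B⟩ (mem_sigma.2 ⟨mem_univ _, one_mem_comps.2
      ⟨B, mem_filter.2 ⟨hB, e⟩, rfl⟩⟩) (one_self_comp (mem_filter.2 ⟨hB, e⟩))
  rcases e : C B with _ | ⟨s, _ | _⟩
  exacts [absurd e (key none), ⟨s, rfl⟩, absurd e (key (some s))]

lemma awt_uz (hL : 1 ≤ L) {U : Finset P} (hU : U ⊆ D) : under L U ⊆ zn L s0 D U := fun b hb =>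
  mem_filter.2 ⟨one_under_reg hL hU hb, b, hb, one_nr_refl _ _⟩

lemma awt_zadj (hL : 2 * s0 + 1 ≤ L) (hC : valid D C) : ∀ j ∈ jj D C, ∀ k ∈ jj D C,
    ∀ a ∈ zn L s0 D j.2, ∀ b ∈ zn L s0 D k.2, nr 1 a b → j = k := fun j hj k hk a ha b hb h => by
  obtain ⟨-, a', h1, h2⟩ := mem_filter.1 ha
  obtain ⟨-, b', h3, h4⟩ := mem_filter.1 hb
  have L1 : 1 ≤ L := by omega
  exact awt_adj hC j hj k hk _ ((one_mem_under L1).1 h1) _ ((one_mem_under L1).1 h3)
    (one_par_nr L1 (one_nr_mono (awt_nr (awt_nr h2 h) (one_nr_symm h4)) (by omega)))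

lemma awt_rim (hL : 1 ≤ L) (hC : valid D C) {j : Σ _ : Option Lab, Finset P} (hj : j ∈ jj D C)
    {b : P} (h1 : b ∈ reg L D j.2) (h2 : b ∉ zn L s0 D j.2) :
    ∃ s, C (par L b) = some (s, false) := by
  obtain ⟨hD, a, ha, h⟩ := (one_mem_reg hL).1 h1
  refine awt_free hD fun k hk e => h2 (awt_uz hL (awt_sub hj) ((one_mem_under hL).2 ?_))
  rwa [awt_adj hC j hj k hk a ha _ e h]

theorem t_a_wt : S_a_wt := by
  intro L s0 D T M K N C c hL hC h0 h1
  have L1 : 1 ≤ L := by omega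
  have zr : ∀ U, zn L s0 D U ⊆ reg L D U := fun U => filter_subset _ _
  have rz : ∀ U, ∀ b ∈ zn L s0 D U, rs L s0 D C U c b = c b := fun U b hb => if_pos hb
  have rr : ∀ j ∈ jj D C, ∀ b ∈ reg L D j.2, b ∉ zn L s0 D j.2 →
      ∃ s, rs L s0 D C j.2 c b = some (s, 0) ∧ lab (c b) = some s := fun j hj b hb hz => by
    obtain ⟨s, hs⟩ := awt_rim L1 hC hj hb hz
    exact ⟨s, by simp [rs, hb, hz, bs, hs], h1 b (one_reg_under L1 _ _ hb) s hs⟩
  have fa : ∀ (p : Sf → Prop) [DecidablePred p], (∀ s, ¬ p (some (s, 0))) → ∀ j ∈ jj D C,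
      (reg L D j.2).filter (fun b => p (rs L s0 D C j.2 c b)) =
        (zn L s0 D j.2).filter fun b => p (c b) := fun p _ hp j hj => by
    ext b
    simp only [mem_filter]
    by_cases hz : b ∈ zn L s0 D j.2
    · simp [hz, zr _ hz, rz _ b hz]
    · refine iff_of_false (fun h => ?_) fun h => hz h.1
      obtain ⟨s, hs, -⟩ := rr j hj b h.1 hz
      exact hp s (hs ▸ h.2)
  have fb : ∀ (p : Sf → Prop) [DecidablePred p], (∀ s, ¬ p (some (s, 0))) →
      (under L D).filter (fun b => p (c b)) =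
        (jj D C).biUnion fun j => (zn L s0 D j.2).filter fun b => p (c b) := fun p _ hp => by
    ext b
    simp only [mem_filter, mem_biUnion]
    constructor
    · rintro ⟨hb, h⟩
      by_contra hc
      have hz : ∀ j ∈ jj D C, b ∉ zn L s0 D j.2 := fun j hj e => hc ⟨j, hj, e, h⟩
      obtain ⟨s, hs⟩ := awt_free (C := C) ((one_mem_under L1).1 hb) fun j hj e =>
        hz j hj (awt_uz L1 (awt_sub hj) ((one_mem_under L1).2 e))
      rw [h0 b hb hz, bs, hs] at h
      exact hp s h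
    · rintro ⟨j, -, hz, h⟩
      exact ⟨one_reg_under L1 _ _ (zr _ hz), h⟩
  have adj : ∀ (p : Sf → Prop) [DecidablePred p], ∀ j ∈ jj D C, ∀ k ∈ jj D C,
      ∀ a ∈ (zn L s0 D j.2).filter fun b => p (c b), ∀ b ∈ (zn L s0 D k.2).filter fun b => p (c b),
      nr 1 a b → j = k := fun p _ j hj k hk a ha b hb =>
    awt_zadj hL hC j hj k hk a (mem_filter.1 ha).1 b (mem_filter.1 hb).1
  have un : ∀ (U : Finset P) (g : P → ℂ), ∏ B ∈ under L U, g B = ∏ B' ∈ U, ∏ B ∈ cell L B', g B :=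
    fun U g => prod_biUnion fun x _ y _ e => disjoint_left.2 fun a h1 h2 =>
      e (((one_mem_cell L1).1 h1).symm.trans ((one_mem_cell L1).1 h2))
  have e1 : ∏ s, ∏ B ∈ (under L D).filter (fun b => lab (c b) = some s), T s B =
      (∏ s, ∏ B' ∈ fre D C s, ∏ B ∈ cell L B', T s B) * ∏ j ∈ jj D C, ∏ s,
        ∏ B ∈ (under L j.2).filter (fun b => lab (rs L s0 D C j.2 c b) = some s), T s B := by
    simp only [prod_filter]
    rw [prod_comm, un, awt_split D C]
    congr 1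
    · refine prod_congr rfl fun s _ => prod_congr rfl fun B' hB' => prod_congr rfl fun B hB => ?_
      have e := (one_mem_cell L1).1 hB
      rw [h1 B ((one_mem_under L1).2 (e ▸ (mem_filter.1 hB').1)) s (e ▸ (mem_filter.1 hB').2)]
      simp
    · refine prod_congr rfl fun j hj => ?_
      rw [← un, prod_comm]
      exact prod_congr rfl fun s _ => prod_congr rfl fun B hB => by
        rw [rz _ B (awt_uz L1 (awt_sub hj) hB)]
  have e2 : ∀ s, ∏ B ∈ (under L D).filter (fun b => c b = some (s, 1)), M s B = ∏ j ∈ jj D C,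
      ∏ B ∈ (reg L D j.2).filter (fun b => rs L s0 D C j.2 c b = some (s, 1)), M s B := fun s => by
    rw [fb (· = some (s, 1)) (by simp), prod_biUnion fun j hj k hk e => disjoint_left.2
      fun a h1 h2 => e (adj (· = some (s, 1)) j hj k hk a h1 a h2 (one_nr_refl 1 a))]
    exact prod_congr rfl fun j hj => by rw [fa (· = some (s, 1)) (by simp) j hj]
  have e3 : ∀ s, ∏ X ∈ comps (pol (under L D) (red c) s), fw s0 c X * K s X = ∏ j ∈ jj D C,
      ∏ X ∈ comps (pol (reg L D j.2) (red (rs L s0 D C j.2 c)) s),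
        fw s0 (rs L s0 D C j.2 c) X * K s X := fun s => by
    let p : Sf → Prop := fun y => (y.map fun x => (x.1, decide (2 ≤ x.2))) = some (s, true)
    have hp : ∀ t, ¬ p (some (t, 0)) := by simp [p]
    refine (congrArg (fun Y => ∏ X ∈ comps Y, fw s0 c X * K s X) (fb p hp)).trans ?_
    rw [awt_comps _ _ (adj p)]
    refine prod_congr rfl fun j hj => (prod_congr (congrArg comps (fa p hp j hj)) fun X hX => ?_).symm
    rw [fw, fw, show kind X (rs L s0 D C j.2 c) 3 = kind X c 3 from filter_congr fun b hb => by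
      rw [rz _ b (mem_filter.1 (one_comps_sub hX hb)).1]]
  have e4 : ∏ X ∈ comps (bad (under L D) (red c)), N X (sig (under L D) (red c) X) =
      ∏ j ∈ jj D C, ∏ X ∈ comps (bad (reg L D j.2) (red (rs L s0 D C j.2 c))),
        N X (sig (reg L D j.2) (red (rs L s0 D C j.2 c)) X) := by
    let p : Sf → Prop := fun y => (y.map fun x => (x.1, decide (2 ≤ x.2))) = none
    have hp : ∀ t, ¬ p (some (t, 0)) := by simp [p]
    refine (congrArg (fun Y => ∏ X ∈ comps Y, N X (sig (under L D) (red c) X)) (fb p hp)).trans ?_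
    rw [awt_comps _ _ (adj p)]
    refine prod_congr rfl fun j hj => (prod_congr (congrArg comps (fa p hp j hj)) fun X hX => ?_).symm
    have eb : bdry (reg L D j.2) X = bdry (under L D) X := by
      refine congrArg (· \ X) (subset_antisymm (monotone_filter_left _ (one_reg_under L1 _ _))
        fun b hb => ?_)
      obtain ⟨hb, a, ha, h⟩ := mem_filter.1 hb
      obtain ⟨-, a', h2, h3⟩ := mem_filter.1 (mem_filter.1 (one_comps_sub hX ha)).1
      exact mem_filter.2 ⟨(one_mem_reg L1).2 ⟨(one_mem_under L1).1 hb, _, (one_mem_under L1).1 h2,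
        one_par_nr L1 (one_nr_mono (awt_nr h3 h) (by omega))⟩, a, ha, h⟩
    refine congrArg (N X) (funext fun b => ?_)
    have lr : ∀ f : P → Sf, lab (red f b) = lab (f b) := fun f => by
      simp [lab, red, Function.comp_def]
    rw [sig, sig, ← eb, lr, lr]
    split_ifs with hb
    · by_cases hz : b ∈ zn L s0 D j.2
      · rw [rz _ b hz]
      · obtain ⟨s, a1, a2⟩ := rr j hj b (mem_filter.1 (mem_sdiff.1 hb).1).1 hz
        rw [a1, a2]; rfl
    · rfl
  simp only [gw, lw, e1, e2, e3, e4, prod_mul_distrib, prod_comm (s := jj D C)]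
  ring

end Pool.Agent.Lib.MP_9cc147_pr.Cx
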