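import Pool.Agent.Lib.MP_9cc147_pr.Cx.A.Iff
import Pool.Agent.Lib.MP_9cc147_pr.Cx.A.Exp
import Pool.Agent.Lib.MP_9cc147_pr.Cx.A.Sum
import Pool.Agent.Lib.MP_9cc147_pr.Cx.A.Mat
import Pool.Agent.Lib.MP_9cc147_pr.Cx.A.Cw
import Pool.Agent.Lib.MP_9cc147_pr.Cx.A.Wt

/-! Assembly of the reblocking identity from the statements of the module. -/

open scoped Classical
open Finset

noncomputable section
namespace Pool.Agent.Lib.MP_9cc147_pr.Cx

variable {L s0 : ℕ} {D : Finset P} {C : P → St} {c : P → Sf}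
  {T M : Lab → P → ℂ} {K : Lab → Finset P → ℂ} {N : Finset P → (P → Option Lab) → ℂ}

theorem areb_live {R : Finset P}
    (h : ∏ s, ∏ X ∈ comps (pol R (red c) s), fw s0 c X * K s X ≠ 0) : live s0 R c := by
  intro X hX e
  obtain ⟨s, -, hs⟩ := mem_biUnion.1 hX
  exact h (prod_eq_zero (mem_univ s) (prod_eq_zero hs (by rw [e, zero_mul])))

theorem areb_loc (hL : 2 * s0 + 1 ≤ L) (hs : S_a_sum) (hv : valid D C)
    {j : Σ _ : Option Lab, Finset P} (hj : j ∈ jj D C) :
    ∑ c ∈ locC L s0 D C j, lw L s0 D j.2 T M K N c =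
      ∑ g ∈ cfgs univ none (zn L s0 D j.2), if rs L s0 D C j.2 g ∈ locC L s0 D C j then
        lw L s0 D j.2 T M K N (rs L s0 D C j.2 g) else 0 := by
  have h0 : 0 < L := by omega
  have hsub : locC L s0 D C j ⊆ cfgs univ none (reg L D j.2) := fun c hc =>
    (mem_filter.1 (mem_filter.1 hc).1).1
  have e1 : ∑ c ∈ locC L s0 D C j, lw L s0 D j.2 T M K N c =
      ∑ c ∈ cfgs univ none (reg L D j.2),
        if c ∈ locC L s0 D C j then lw L s0 D j.2 T M K N c else 0 := by
    rw [← sum_filter, filter_mem_eq_inter, inter_eq_right.2 hsub]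
  rw [e1]
  refine hs.2 (reg L D j.2) (zn L s0 D j.2) (fun b => if b ∈ reg L D j.2 then bs L C b else none)
    _ (zon_zn_reg _) (fun b hb => if_neg hb) fun c _ hc b hb hz => ?_
  have hm : c ∈ locC L s0 D C j := by
    by_contra h
    exact hc (if_neg h)
  rw [if_pos hm] at hc
  have hl : live s0 (reg L D j.2) c :=
    areb_live (K := K) fun e => hc (by rw [lw, e, mul_zero, zero_mul])
  have hB := zon_reg_bdry h0 (zon_sub hj) hb hz
  obtain ⟨s, hs⟩ := zon_bdry hv hj hB
  have h1 := (mem_filter.1 hm).2.1 b ((geo_mem_under h0).2 hB)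
  rw [aiff_sig hB, hs] at h1
  simp only [if_pos hb]
  rw [zon_bs hs]
  refine aiff_van L s0 _ c b s hl hb h1 fun a _ ha hn => hz ?_
  rw [(mem_filter.1 (mem_filter.1 hm).1).2.2] at ha
  exact geo_mem_near.2 ⟨hb, a, (geo_mem_under h0).2 ha, hn⟩

theorem areb_fac (hL : 2 * s0 + 1 ≤ L) (hs : S_a_sum) (hw : S_a_wt)
    (hC : C ∈ cfgs univ none D) (hv : valid D C) :
    ∑ c ∈ cfgs univ none (under L D), (if valid (under L D) (red c) ∧ Mat L s0 D C c then
      gw s0 (under L D) T M K N c else 0) = (∏ s, ∏ B' ∈ fre D C s, ∏ B ∈ cell L B', T s B) *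
        ∏ j ∈ jj D C, ∑ c ∈ locC L s0 D C j, lw L s0 D j.2 T M K N c := by
  have h0 : 0 < L := by omega
  rw [prod_congr rfl fun j hj => areb_loc (T := T) (M := M) (K := K) (N := N) hL hs hv hj,
    ← hs.1 _ (jj D C) (fun j => zn L s0 D j.2) (fun j g => if rs L s0 D C j.2 g ∈ locC L s0 D C j
      then lw L s0 D j.2 T M K N (rs L s0 D C j.2 g) else 0) (zon_disj hL hv), mul_sum,
    hs.2 (under L D) ((jj D C).biUnion fun j => zn L s0 D j.2) (bs L C)]
  · refine sum_congr rfl fun g _ => ?_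
    set c : P → Sf := fun b => if b ∈ (jj D C).biUnion fun j => zn L s0 D j.2 then g b
      else bs L C b with hcdef
    have hc : ∀ b ∈ under L D, (∀ j ∈ jj D C, b ∉ zn L s0 D j.2) → c b = bs L C b :=
      fun b _ h => if_neg fun e => by
        obtain ⟨j, hj, e⟩ := mem_biUnion.1 e
        exact h j hj e
    have hr : ∀ j ∈ jj D C, rs L s0 D C j.2 (fun b => if b ∈ zn L s0 D j.2 then g b else none) =
        rs L s0 D C j.2 c := fun j hj => funext fun b => by
      by_cases h : b ∈ zn L s0 D j.2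
      · rw [zon_rs_zn h, zon_rs_zn h, if_pos h]
        exact (if_pos (mem_biUnion.2 ⟨j, hj, h⟩)).symm
      · simp only [rs, if_neg h]
    by_cases h : valid (under L D) (red c) ∧ Mat L s0 D C c
    · rw [if_pos h, hw L s0 D T M K N C c hL hv hc h.2.2.1]
      congr 1
      refine prod_congr rfl fun j hj => ?_
      rw [hr j hj, if_pos ((t_a_iff L s0 D C c hL hv hc).1 h j hj)]
    · rw [if_neg h]
      rw [t_a_iff L s0 D C c hL hv hc] at h
      push Not at h
      obtain ⟨j, hj, e⟩ := h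
      rw [prod_eq_zero hj (by rw [hr j hj, if_neg e]), mul_zero]
  · exact biUnion_subset.2 fun j _ => (zon_zn_reg _).trans (zon_reg_under _)
  · intro b hb
    rw [bs, geo_mem_cfgs.1 hC _ fun e => hb ((geo_mem_under h0).2 e)]
    rfl
  · intro c _ hc b hb hz
    have hz' : ∀ j ∈ jj D C, b ∉ zn L s0 D j.2 := fun j hj e => hz (mem_biUnion.2 ⟨j, hj, e⟩)
    have hm : valid (under L D) (red c) ∧ Mat L s0 D C c := by
      by_contra h
      exact hc (if_neg h)
    rw [if_pos hm] at hc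
    have hl : live s0 (under L D) c :=
      areb_live (K := K) fun e => hc (by rw [gw, e, mul_zero, zero_mul])
    obtain ⟨s, hs⟩ := zon_off_free h0 hb hz'
    rw [zon_bs hs]
    refine aiff_van L s0 _ c b s hl hb (hm.2.2.1 b hb s hs) fun a _ ha hn => ?_
    rw [hm.2.1] at ha
    obtain ⟨j, hj, e⟩ := zon_act_ex ha
    exact hz' j hj (zon_mem_zn hL ((geo_mem_under h0).2 e) hb hn)

theorem areb_main (he : S_a_exp) (hs : S_a_sum) (hm : S_a_mat) (hc : S_a_cw) (hw : S_a_wt) :
    S_reb := by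
  intro L s0 D I T M K Kh N hL hI hK
  have h0 : 0 < L := by omega
  rw [he s0 _ I T M K Kh N hI hK, Wsum]
  have e1 : ∀ C ∈ (cfgs univ none D).filter (valid D),
      (∏ s, ∏ B' ∈ fre D C s, ∏ B ∈ cell L B', T s B) *
        (∏ s, ∏ U ∈ comps (pol D C s), (L0 L s0 D U T M Kh s +
          if (bdry D U).Nonempty then L1 L s0 D U T M Kh N (cst D U s) else 0)) *
        (∏ U ∈ comps (bad D C),
          if Nn D U (sig D C U) then L1 L s0 D U T M Kh N (sig D C U) else 0) =
      ∑ c ∈ cfgs univ none (under L D), (if valid (under L D) (red c) ∧ Mat L s0 D C c then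
        gw s0 (under L D) T M Kh N c else 0) := fun C hC => by
    rw [areb_fac hL hs hw (mem_filter.1 hC).1 (mem_filter.1 hC).2, mul_assoc,
      hc L s0 D T M Kh N C h0 (mem_filter.1 hC).2]
  rw [sum_congr rfl e1, sum_comm, sum_filter]
  refine sum_congr rfl fun c _ => ?_
  by_cases h : valid (under L D) (red c)
  · obtain ⟨C, ⟨h1, h2⟩, h3⟩ := hm L s0 D c h0 h
    rw [if_pos h, sum_eq_single_of_mem C h1, if_pos ⟨h, h2⟩]
    exact fun C' h4 e => if_neg fun h5 => e (h3 C' ⟨h4, h5.2⟩)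
  · rw [if_neg h]
    exact (sum_eq_zero fun C _ => if_neg fun e => h e.1).symm

theorem t_reb : S_reb := areb_main t_a_exp t_a_sum t_a_mat t_a_cw t_a_wt

end Pool.Agent.Lib.MP_9cc147_pr.Cx
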