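import Pool.Agent.Lib.MP_9cc147_pr.Cx.S1

/-! Transport of the local sums along a move of the lattice. -/

open scoped Classical
open Finset

noncomputable section
namespace Pool.Agent.Lib.MP_9cc147_pr.Cx

lemma ttra_cfgs {ι S : Type} [Fintype S] (d : S) (R : Finset ι) (c : ι → S) :
    c ∈ cfgs univ d R ↔ ∀ x, x ∉ R → c x = d := by
  rw [cfgs, mem_image]
  constructor
  · rintro ⟨f, -, rfl⟩ x hx
    exact dif_neg hx
  · intro h
    refine ⟨fun x _ => c x, mem_pi.2 fun _ _ => mem_univ _, funext fun x => ?_⟩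
    by_cases hx : x ∈ R
    · exact dif_pos hx
    · exact (dif_neg hx).trans (h x hx).symm

lemma ttra_cell {L : ℕ} (hL : 0 < L) (b B : P) : b ∈ cell L B ↔ par L b = B := by
  have h : (0 : ℤ) < L := by exact_mod_cast hL
  have k : ∀ x y : ℤ, (y * L ≤ x ∧ x < (y + 1) * L) ↔ x / L = y := fun x y => by
    rw [← Int.le_ediv_iff_mul_le h, ← Int.ediv_lt_iff_lt_mul h]; omega
  rw [cell, mem_product, mem_Ico, mem_Ico, k, k, par, Prod.ext_iff]

lemma ttra_under {L : ℕ} (hL : 0 < L) (b : P) (U : Finset P) :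
    b ∈ under L U ↔ par L b ∈ U := by
  simp only [under, mem_biUnion, ttra_cell hL]
  exact ⟨fun ⟨_, h, e⟩ => e ▸ h, fun h => ⟨_, h, rfl⟩⟩

lemma ttra_mem (β : P ≃ P) {a : P} {X : Finset P} : β a ∈ X.image β ↔ a ∈ X :=
  β.injective.mem_finset_image

lemma ttra_ext (β : P ≃ P) {A X : Finset P} (h : ∀ a, β a ∈ A ↔ a ∈ X) : A = X.image β := by
  ext b
  obtain ⟨a, rfl⟩ := β.surjective b
  rw [h, ttra_mem]

lemma ttra_card (β : P ≃ P) (X : Finset P) : (X.image β).card = X.card :=
  card_image_of_injective _ β.injective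

lemma ttra_prod (β : P ≃ P) (X : Finset P) (f : P → ℂ) :
    ∏ b ∈ X.image β, f b = ∏ a ∈ X, f (β a) := prod_image fun _ _ _ _ h => β.injective h

lemma ttra_under_image {L : ℕ} (hL : 0 < L) {β β' : P ≃ P}
    (hpar : ∀ a, par L (β a) = β' (par L a)) (U : Finset P) :
    under L (U.image β') = (under L U).image β :=
  ttra_ext β fun a => by rw [ttra_under hL, ttra_under hL, hpar, ttra_mem]

section geo

variable {β : P ≃ P} (hβ : ∀ a b, nr 1 (β a) (β b) ↔ nr 1 a b)
include hβ

lemma ttra_lnk (Y : Finset P) (a b : P) : lnk (Y.image β) (β a) (β b) ↔ lnk Y a b := by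
  rw [lnk, lnk, ttra_mem, ttra_mem, hβ]

lemma ttra_rtg (Y : Finset P) (a b : P) :
    Relation.ReflTransGen (lnk (Y.image β)) (β a) (β b) ↔ Relation.ReflTransGen (lnk Y) a b := by
  refine ⟨fun h => ?_, fun h => h.lift β fun x y hxy => (ttra_lnk hβ Y x y).2 hxy⟩
  have h2 := h.lift (p := lnk Y) β.symm fun x y hxy => (ttra_lnk hβ Y _ _).1 (by
    rwa [β.apply_symm_apply, β.apply_symm_apply])
  simpa [Function.onFun] using h2

lemma ttra_comp (Y : Finset P) (a : P) : comp (Y.image β) (β a) = (comp Y a).image β :=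
  ttra_ext β fun b => by rw [comp, comp, mem_filter, mem_filter, ttra_mem, ttra_rtg hβ]

lemma ttra_comps (Y : Finset P) :
    comps (Y.image β) = (comps Y).image fun X => X.image β := by
  rw [comps, comps, image_image, image_image]
  exact image_congr fun a _ => ttra_comp hβ Y a

lemma ttra_prod_comps (Y : Finset P) (f : Finset P → ℂ) :
    ∏ X ∈ comps (Y.image β), f X = ∏ X ∈ comps Y, f (X.image β) := by
  rw [ttra_comps hβ]
  exact prod_image fun _ _ _ _ h => image_injective β.injective h

lemma ttra_near (R X : Finset P) : near 1 (R.image β) (X.image β) = (near 1 R X).image β :=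
  ttra_ext β fun b => by
    rw [near, near, mem_filter, mem_filter, ttra_mem]
    refine and_congr_right fun _ => ⟨?_, fun ⟨a, ha, h⟩ => ⟨β a, (ttra_mem β).2 ha, (hβ _ _).2 h⟩⟩
    rintro ⟨a', ha, h⟩
    obtain ⟨a, ha2, rfl⟩ := mem_image.1 ha
    exact ⟨a, ha2, (hβ _ _).1 h⟩

lemma ttra_bdry (R X : Finset P) (b : P) :
    β b ∈ bdry (R.image β) (X.image β) ↔ b ∈ bdry R X := by
  rw [bdry, bdry, mem_sdiff, mem_sdiff, ttra_near hβ, ttra_mem, ttra_mem]

end geo

section cfg

variable {β : P ≃ P} {π : Lab ≃ Lab}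

lemma ttra_some {α : Type} (x : Option (Lab × α)) (s : Lab) (i : α) :
    x.map (Prod.map π id) = some (π s, i) ↔ x = some (s, i) := by
  rcases x with _ | ⟨t, j⟩ <;> simp

lemma ttra_lab {α : Type} (x : Option (Lab × α)) :
    lab (x.map (Prod.map π id)) = (lab x).map π := by
  rcases x with _ | ⟨t, j⟩ <;> rfl

lemma ttra_lab' {α : Type} (x : Option (Lab × α)) (s : Lab) :
    lab (x.map (Prod.map π id)) = some (π s) ↔ lab x = some s := by
  rcases x with _ | ⟨t, j⟩ <;> simp [lab]

lemma ttra_okS (x y : St) :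
    okS (x.map (Prod.map π id)) (y.map (Prod.map π id)) ↔ okS x y := by
  rw [okS, okS]
  refine and_congr ?_ ?_
  · rw [π.surjective.forall₂]
    simp only [ttra_lab', π.injective.eq_iff]
  · rw [π.surjective.forall]
    simp only [ttra_some, ne_eq, Option.map_eq_none_iff]

lemma ttra_red {c c' : P → Sf} (h : ∀ b, c' (β b) = (c b).map (Prod.map π id)) (b : P) :
    red c' (β b) = (red c b).map (Prod.map π id) := by
  rw [red, red, h]
  rcases c b with _ | ⟨t, j⟩ <;> rfl

lemma ttra_kind {c c' : P → Sf} (h : ∀ b, c' (β b) = (c b).map (Prod.map π id)) (R : Finset P)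
    (i : Fin 4) : kind (R.image β) c' i = (kind R c i).image β :=
  ttra_ext β fun b => by
    rw [kind, kind, mem_filter, mem_filter, ttra_mem, π.surjective.exists, h]
    simp only [ttra_some]

lemma ttra_pol {c c' : P → St} (h : ∀ b, c' (β b) = (c b).map (Prod.map π id)) (R : Finset P)
    (s : Lab) : pol (R.image β) c' (π s) = (pol R c s).image β :=
  ttra_ext β fun b => by rw [pol, pol, mem_filter, mem_filter, ttra_mem, h, ttra_some]

lemma ttra_bad {c c' : P → St} (h : ∀ b, c' (β b) = (c b).map (Prod.map π id)) (R : Finset P) :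
    bad (R.image β) c' = (bad R c).image β :=
  ttra_ext β fun b => by
    rw [bad, bad, mem_filter, mem_filter, ttra_mem, h, Option.map_eq_none_iff]

lemma ttra_fw {c c' : P → Sf} (h : ∀ b, c' (β b) = (c b).map (Prod.map π id)) (s0 : ℕ)
    (X : Finset P) : fw s0 c' (X.image β) = fw s0 c X := by
  rw [fw, fw, ttra_kind h, ttra_card, ttra_card]

lemma ttra_phi_fw (φ : ℂ →+* ℂ) (s0 : ℕ) (c : P → Sf) (X : Finset P) :
    φ (fw s0 c X) = fw s0 c X := by
  rw [fw]
  split_ifs <;> simp

variable (hβ : ∀ a b, nr 1 (β a) (β b) ↔ nr 1 a b)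
include hβ

lemma ttra_valid {c c' : P → St} (h : ∀ b, c' (β b) = (c b).map (Prod.map π id)) (R : Finset P) :
    valid (R.image β) c' ↔ valid R c := by
  simp only [valid, forall_mem_image, hβ, h, ttra_okS]

lemma ttra_sig {c c' : P → St} (h : ∀ b, c' (β b) = (c b).map (Prod.map π id)) (R X : Finset P)
    (b : P) : sig (R.image β) c' (X.image β) (β b) = (sig R c X b).map π := by
  rw [sig, sig]
  by_cases hb : b ∈ bdry R X
  · rw [if_pos hb, if_pos ((ttra_bdry hβ R X b).2 hb), h, ttra_lab]
  · rw [if_neg hb, if_neg fun h' => hb ((ttra_bdry hβ R X b).1 h')]; rfl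

lemma ttra_img {L : ℕ} {β' : P ≃ P} (hpar : ∀ a, par L (β a) = β' (par L a)) {c c' : P → Sf}
    (h : ∀ b, c' (β b) = (c b).map (Prod.map π id)) (s0 : ℕ) (R : Finset P) :
    img L s0 (R.image β) c' = (img L s0 R c).image β' := by
  have h1 : (univ.biUnion fun s => ((comps (pol (R.image β) (red c') s)).filter
      fun X => s0 < X.card).biUnion id) = (univ.biUnion fun s =>
        ((comps (pol R (red c) s)).filter fun X => s0 < X.card).biUnion id).image β :=
    ttra_ext β fun b => by
      simp only [mem_biUnion, mem_univ, true_and, mem_filter, id]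
      rw [π.surjective.exists]
      refine exists_congr fun s => ?_
      rw [ttra_pol (ttra_red h), ttra_comps hβ]
      constructor
      · rintro ⟨X', ⟨hX, hc⟩, hb⟩
        obtain ⟨X, hX2, rfl⟩ := mem_image.1 hX
        exact ⟨X, ⟨hX2, by rwa [ttra_card] at hc⟩, (ttra_mem β).1 hb⟩
      · rintro ⟨X, ⟨hX, hc⟩, hb⟩
        exact ⟨_, ⟨mem_image_of_mem _ hX, by rwa [ttra_card]⟩, (ttra_mem β).2 hb⟩
  rw [img, img, h1, ttra_kind h, ttra_kind h, ttra_bad (ttra_red h), ← image_union, ← image_union,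
    ← image_union, image_image, image_image]
  exact image_congr fun a _ => hpar a

end cfg

/-- the shape of the live configurations, also for the empty set -/
lemma ttra_shape (h_one : S_one) {L s0 : ℕ} {D U : Finset P} (hL : 2 * s0 + 1 ≤ L) (hU : U ⊆ D)
    {c : P → Sf} (hc : c ∈ loc L s0 D U) (hl : live s0 (reg L D U) c) :
    kind (reg L D U) c 1 ⊆ under L U ∧
    (∀ X ∈ pcs (reg L D U) c, Conn X ∧ X ⊆ near s0 (reg L D U) (under L U)) ∧
    ∀ X ∈ comps (bad (reg L D U) (red c)), Conn X ∧ X ⊆ under L U := by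
  rcases U.eq_empty_or_nonempty with rfl | hne
  · have h : reg L D ∅ = ∅ := by simp [reg, under, near]
    rw [h]
    simp [kind, pcs, pol, bad, comps]
  · obtain ⟨-, h1, h2, h3, h4⟩ := (h_one L s0 D U hL hU hne).1 c hc hl
    refine ⟨h1, h3, fun X hX => ⟨(h4 X (mem_union_right _ hX)).1, ?_⟩⟩
    obtain ⟨a, -, rfl⟩ := mem_image.1 hX
    exact (filter_subset _ _).trans h2

theorem t_tra (h_one : S_one) : S_tra := by
  intro L s0 D D' U β β' π φ T M T' M' K K' N N' hL hU hβ hβ' hpar hnear hTM hK hN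
  have hL0 : 0 < L := by omega
  have hreg : reg L D' (U.image β') = (reg L D U).image β := by
    rw [reg, reg, hnear, ttra_under_image hL0 hpar]
  have hund := ttra_under_image hL0 hpar U
  let τ : (P → Sf) ≃ (P → Sf) :=
    Equiv.arrowCongr β (Equiv.optionCongr (π.prodCongr (Equiv.refl (Fin 4))))
  have hτ : ∀ c b, τ c (β b) = (c b).map (Prod.map π id) := fun c b => by
    change (c (β.symm (β b))).map (Prod.map π id) = _
    rw [β.symm_apply_apply]
  have hloc : ∀ c, c ∈ loc L s0 D U ↔ τ c ∈ loc L s0 D' (U.image β') := fun c => by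
    rw [loc, loc, mem_filter, mem_filter, hreg, ttra_valid hβ (ttra_red (hτ c)),
      ttra_img hβ hpar (hτ c), (image_injective β'.injective).eq_iff, ttra_cfgs, ttra_cfgs,
      β.surjective.forall (p := fun x => x ∉ (reg L D U).image β → τ c x = none)]
    simp only [ttra_mem, hτ, Option.map_eq_none_iff]
  have hlw : ∀ (N N' : Finset P → (P → Option Lab) → ℂ),
      (∀ X σ σ', Conn X → X ⊆ under L U → (∀ B, σ' (β B) = (σ B).map π) →
        N' (X.image β) σ' = φ (N X σ)) → ∀ c ∈ loc L s0 D U,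
      φ (lw L s0 D U T M K N c) = lw L s0 D' (U.image β') T' M' K' N' (τ c) := by
    intro N N' hN c hc
    have e1 : ∀ s, (under L (U.image β')).filter (fun b => lab (τ c b) = some (π s)) =
        ((under L U).filter fun b => lab (c b) = some s).image β := fun s =>
      ttra_ext β fun b => by rw [mem_filter, mem_filter, hund, ttra_mem, hτ, ttra_lab']
    have e2 : ∀ s, ((reg L D U).image β).filter (fun b => τ c b = some (π s, 1)) =
        ((reg L D U).filter fun b => c b = some (s, 1)).image β := fun s =>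
      ttra_ext β fun b => by rw [mem_filter, mem_filter, ttra_mem, hτ, ttra_some]
    rw [lw, lw, hreg, ← Equiv.prod_comp π (fun s => ∏ B ∈ (under L (U.image β')).filter _, _),
      ← Equiv.prod_comp π (fun s => ∏ B ∈ ((reg L D U).image β).filter _, _),
      ← Equiv.prod_comp π (fun s => ∏ X ∈ comps (pol ((reg L D U).image β) _ s), _)]
    simp only [e1, e2, ttra_pol (ttra_red (hτ c)), ttra_bad (ttra_red (hτ c)), ttra_prod,
      ttra_prod_comps hβ, ttra_fw (hτ c), map_mul, map_prod, ttra_phi_fw]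
    by_cases hl : live s0 (reg L D U) c
    · obtain ⟨h1, h2, h3⟩ := ttra_shape h_one hL hU hc hl
      congr 1
      · congr 1
        · congr 1
          · exact prod_congr rfl fun s _ => prod_congr rfl fun B hB =>
              (hTM s B (mem_filter.1 hB).1).1.symm
          · exact prod_congr rfl fun s _ => prod_congr rfl fun B hB =>
              (hTM s B (h1 (mem_filter.2 ⟨(mem_filter.1 hB).1, s, (mem_filter.1 hB).2⟩))).2.symm
        · refine prod_congr rfl fun s _ => prod_congr rfl fun X hX => ?_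
          have h4 := h2 X (mem_biUnion.2 ⟨s, mem_univ _, hX⟩)
          rw [hK s X h4.1 h4.2]
      · exact prod_congr rfl fun X hX => (hN X _ _ (h3 X hX).1 (h3 X hX).2
          (ttra_sig hβ (ttra_red (hτ c)) _ X)).symm
    · simp only [live, not_forall, not_not] at hl
      obtain ⟨X, hX, h0⟩ := hl
      obtain ⟨s, -, hX⟩ := mem_biUnion.1 hX
      have hz : ∀ g : Lab → Finset P → ℂ,
          ∏ s, ∏ X ∈ comps (pol (reg L D U) (red c) s), fw s0 c X * g s X = 0 := fun g =>
        prod_eq_zero (mem_univ s) (prod_eq_zero hX (by rw [h0, zero_mul]))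
      rw [hz, hz]
      simp only [mul_zero, zero_mul]
  refine ⟨fun s => ?_, fun σ σ' hσ => ?_⟩
  · rw [L0, L0, map_sum]
    symm
    refine sum_equiv τ (fun c => ?_) fun c hc => hlw _ _ (fun _ _ _ _ _ _ => (map_zero φ).symm) c
      (mem_filter.1 hc).1
    rw [loc0, loc0, mem_filter, mem_filter, hloc, hreg]
    simp only [forall_mem_image, hτ, ttra_lab']
  · rw [L1, L1, map_sum]
    symm
    refine sum_equiv τ (fun c => ?_) fun c hc => hlw _ _ hN c (mem_filter.1 hc).1
    have hb : bdry D' (U.image β') = (bdry D U).image β' := by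
      rw [bdry, bdry, hnear, image_sdiff _ _ β'.injective]
    rw [loc1, loc1, mem_filter, mem_filter, hloc, hreg, ttra_bad (ttra_red (hτ c)),
      image_nonempty, hb, ttra_under_image hL0 hpar]
    simp only [forall_mem_image, hτ, ttra_lab, hpar, hσ,
      (Option.map_injective π.injective).eq_iff]

end Pool.Agent.Lib.MP_9cc147_pr.Cx
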