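import Pool.Agent.Lib.MP_9cc147_pr.Cx.S1

/-! The labelled sum splits in three one phase sums and the part with a second class polymer. -/

open scoped Classical
open Finset

noncomputable section
namespace Pool.Agent.Lib.MP_9cc147_pr.Cx

theorem tw12_mem {R : Finset P} {c : P → St} :
    c ∈ cfgs univ none R ↔ ∀ x, x ∉ R → c x = none := by
  refine ⟨fun h x hx => ?_, fun h => mem_image.2 ⟨fun x _ => c x, by simp, funext fun x => ?_⟩⟩
  · obtain ⟨f, -, rfl⟩ := mem_image.1 h
    exact dif_neg hx
  · by_cases hx : x ∈ R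
    · exact dif_pos hx
    · rw [dif_neg hx, h x hx]

/-- the configuration of phase `s` with polymers on `Y` -/
def tw12C (R : Finset P) (s : Lab) (Y : Finset P) : P → St :=
  fun b => if b ∈ R then some (s, decide (b ∈ Y)) else none

theorem tw12_fre (R : Finset P) (s t : Lab) (Y : Finset P) :
    fre R (tw12C R s Y) t = if t = s then R \ Y else ∅ := by
  ext b
  by_cases hb : b ∈ R <;> by_cases e : t = s <;> simp [fre, tw12C, hb, e, Ne.symm]

theorem tw12_pol {R Y : Finset P} (h : Y ⊆ R) (s t : Lab) :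
    pol R (tw12C R s Y) t = if t = s then Y else ∅ := by
  ext b
  have := @h b
  by_cases hb : b ∈ R <;> by_cases e : t = s <;> simp_all [pol, tw12C, Ne.symm]

theorem tw12_bad (R : Finset P) (s : Lab) (Y : Finset P) : bad R (tw12C R s Y) = ∅ := by
  ext b
  by_cases hb : b ∈ R <;> simp [bad, tw12C, hb]

theorem t_w12 : S_w12 := by
  intro R I K N hR
  rw [Wsum, W2, ← sum_filter_add_sum_filter_not _ fun c => (bad R c).Nonempty, filter_filter,
    filter_filter, add_comm]
  congr 1
  simp only [W1]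
  rw [← sum_product' (f := fun s Y => (∏ B ∈ R \ Y, I s B) * ∏ X ∈ comps Y, K s X)]
  obtain ⟨a, ha⟩ := hR.1
  refine (sum_bij (fun x _ => tw12C R x.1 x.2) ?_ ?_ ?_ ?_).symm
  · rintro ⟨s, Y⟩ -
    refine mem_filter.2 ⟨tw12_mem.2 fun x hx => if_neg hx, fun a ha b hb _ => ?_, by
      rw [tw12_bad]; exact not_nonempty_empty⟩
    simp only [okS, lab, tw12C, if_pos ha, if_pos hb, Option.map_some, Option.some.injEq]
    exact ⟨fun _ _ h k => h.symm.trans k, fun _ _ => Option.some_ne_none _⟩
  · rintro ⟨s, Y⟩ h ⟨t, Z⟩ k e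
    have e1 : s = t := by simpa [tw12C, ha, lab] using congrArg lab (congrFun e a)
    subst e1
    have e2 := congrArg (fun c => pol R c s) e
    simp only [tw12_pol (mem_powerset.1 (mem_product.1 h).2),
      tw12_pol (mem_powerset.1 (mem_product.1 k).2), if_true] at e2
    rw [e2]
  · intro c hc
    obtain ⟨c1, c2, c3⟩ := mem_filter.1 hc
    have n0 : ∀ b ∈ R, ∃ x, c b = some x := fun b hb =>
      Option.ne_none_iff_exists'.1 fun e => c3 ⟨b, mem_filter.2 ⟨hb, e⟩⟩
    obtain ⟨x, hx⟩ := n0 a ha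
    have l : ∀ b, Relation.ReflTransGen (lnk R) a b → lab (c b) = some x.1 := fun b h => by
      induction h with
      | refl => rw [hx]; rfl
      | tail _ k ih =>
        obtain ⟨y, hy⟩ := n0 _ k.2.1
        rw [(c2 _ k.1 _ k.2.1 k.2.2).1 _ y.1 ih (by rw [hy]; rfl), hy]
        rfl
    refine ⟨(x.1, pol R c x.1), mem_product.2 ⟨mem_univ _, mem_powerset.2 (filter_subset _ _)⟩,
      funext fun b => ?_⟩
    by_cases hb : b ∈ R
    · obtain ⟨⟨s, v⟩, hy⟩ := n0 b hb
      have := l b (hR.2 a ha b hb)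
      rw [hy] at this
      obtain rfl : s = x.1 := Option.some.inj this
      cases v <;> simp [tw12C, pol, hb, hy]
    · exact (if_neg hb).trans (tw12_mem.1 c1 b hb).symm
  · rintro ⟨s, Y⟩ h
    simp only [tw12_fre, tw12_pol (mem_powerset.1 (mem_product.1 h).2), tw12_bad]
    rw [Fintype.prod_eq_single s fun t ht => by rw [if_neg ht, prod_empty],
      Fintype.prod_eq_single s fun t ht => by rw [if_neg ht, comps, image_empty, prod_empty],
      if_pos rfl, if_pos rfl]
    simp [comps]

end Pool.Agent.Lib.MP_9cc147_pr.Cx
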