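import Pool.Agent.Lib.MP_9cc147_pr.Cx.A.Geo

/-! Coarse polymers of a valid configuration and their zones. -/

open scoped Classical
open Finset

noncomputable section
namespace Pool.Agent.Lib.MP_9cc147_pr.Cx

variable {L s0 : ℕ} {D : Finset P} {C : P → St} {j k : Σ _ : Option Lab, Finset P} {c : P → Sf}

theorem zon_mem_jj : j ∈ jj D C ↔ j.2 ∈ comps (cls D C j.1) := by simp [jj]

theorem zon_cls (hj : j ∈ jj D C) {b : P} (hb : b ∈ j.2) :
    b ∈ D ∧ C b = j.1.map fun s => (s, true) :=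
  mem_filter.1 (geo_comps_sub (zon_mem_jj.1 hj) hb)

theorem zon_sub (hj : j ∈ jj D C) : j.2 ⊆ D := fun _ hb => (zon_cls hj hb).1

theorem zon_act (hj : j ∈ jj D C) {b : P} (hb : b ∈ j.2) : b ∈ act D C := by
  refine mem_filter.2 ⟨(zon_cls hj hb).1, fun s e => ?_⟩
  rw [(zon_cls hj hb).2] at e
  cases h : j.1 <;> simp [h] at e

theorem zon_act_ex {b : P} (hb : b ∈ act D C) : ∃ j ∈ jj D C, b ∈ j.2 := by
  obtain ⟨h1, h2⟩ := mem_filter.1 hb
  have : b ∈ cls D C (lab (C b)) := by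
    refine mem_filter.2 ⟨h1, ?_⟩
    rcases h : C b with _ | ⟨s, _ | _⟩
    · rfl
    · exact absurd h (h2 s)
    · rfl
  exact ⟨⟨lab (C b), comp _ b⟩, zon_mem_jj.2 (geo_comp_mem this), geo_self_comp this⟩

theorem zon_adj (hv : valid D C) (hj : j ∈ jj D C) {a b : P} (ha : a ∈ j.2) (hb : b ∈ act D C)
    (hn : nr 1 a b) : b ∈ j.2 := by
  obtain ⟨h1, h2⟩ := mem_filter.1 hb
  obtain ⟨h3, h4⟩ := zon_cls hj ha
  refine geo_comps_adj (zon_mem_jj.1 hj) ha (mem_filter.2 ⟨h1, ?_⟩) hn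
  have o1 := hv a h3 b h1 hn
  have o2 := hv b h1 a h3 (geo_nr_symm hn)
  rw [h4] at o1 o2
  rcases h : C b with _ | ⟨s, _ | _⟩
  · rcases e : j.1 with _ | t
    · rfl
    · rw [e, h] at o1
      exact absurd rfl (o1.2 t rfl)
  · exact absurd h (h2 s)
  · rcases e : j.1 with _ | t
    · rw [e, h] at o2
      exact absurd rfl (o2.2 s rfl)
    · rw [e, h] at o1
      rw [o1.1 t s rfl rfl]
      rfl

theorem zon_uniq (hv : valid D C) (hj : j ∈ jj D C) (hk : k ∈ jj D C) {a b : P} (ha : a ∈ j.2)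
    (hb : b ∈ k.2) (hn : nr 1 a b) : j = k := by
  have h1 := zon_adj hv hj ha (zon_act hk hb) hn
  have h2 : j.1 = k.1 := by
    have := (zon_cls hj h1).2.symm.trans (zon_cls hk hb).2
    exact Option.map_injective (fun s t e => (Prod.ext_iff.1 e).1) this
  obtain ⟨x, U⟩ := j
  obtain ⟨y, W⟩ := k
  obtain rfl : x = y := h2
  obtain rfl : U = W := geo_comps_uniq (zon_mem_jj.1 hj) (zon_mem_jj.1 hk) ha hb hn
  rfl

theorem zon_free {b : P} (hb : b ∈ D) (h : b ∉ act D C) : ∃ s, C b = some (s, false) := by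
  by_contra e
  exact h (mem_filter.2 ⟨hb, fun s hs => e ⟨s, hs⟩⟩)

theorem zon_bdry (hv : valid D C) (hj : j ∈ jj D C) {b : P} (hb : b ∈ bdry D j.2) :
    ∃ s, C b = some (s, false) := by
  obtain ⟨⟨h1, a, ha, hn⟩, h2⟩ := geo_mem_bdry.1 hb
  exact zon_free h1 fun h => h2 (zon_adj hv hj ha h hn)

theorem zon_zn_reg (U : Finset P) : zn L s0 D U ⊆ reg L D U := filter_subset _ _

theorem zon_reg_under (U : Finset P) : reg L D U ⊆ under L D :=
  geo_under_mono (filter_subset _ _)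

theorem zon_under_reg {U : Finset P} (h : U ⊆ D) : under L U ⊆ reg L D U :=
  geo_under_mono (geo_sub_near h)

theorem zon_under_zn {U : Finset P} (h : U ⊆ D) : under L U ⊆ zn L s0 D U :=
  geo_sub_near (zon_under_reg h)

theorem zon_nb_reg (hL : 2 * s0 + 1 ≤ L) {U : Finset P} {a b : P} (ha : a ∈ zn L s0 D U)
    (hb : b ∈ under L D) (hn : nr 1 a b) : b ∈ reg L D U := by
  have h0 : 0 < L := by omega
  obtain ⟨-, x, hx, h1⟩ := geo_mem_near.1 ha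
  exact (geo_mem_reg h0).2 ⟨(geo_mem_under h0).1 hb, par L x, (geo_mem_under h0).1 hx,
    geo_par_nr h0 (geo_nr_mono (geo_nr_trans h1 hn) (by omega))⟩

theorem zon_mem_zn (hL : 2 * s0 + 1 ≤ L) {U : Finset P} {a b : P} (ha : a ∈ under L U)
    (hb : b ∈ under L D) (hn : nr s0 a b) : b ∈ zn L s0 D U := by
  have h0 : 0 < L := by omega
  exact geo_mem_near.2 ⟨(geo_mem_reg h0).2 ⟨(geo_mem_under h0).1 hb, par L a,
    (geo_mem_under h0).1 ha, geo_par_nr h0 (geo_nr_mono hn (by omega))⟩, a, ha, hn⟩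

/-- zones of different polymers are not adjacent -/
theorem zon_zn_uniq (hL : 2 * s0 + 1 ≤ L) (hv : valid D C) (hj : j ∈ jj D C) (hk : k ∈ jj D C)
    {a b : P} (ha : a ∈ zn L s0 D j.2) (hb : b ∈ zn L s0 D k.2) (hn : nr 1 a b) : j = k := by
  have h0 : 0 < L := by omega
  obtain ⟨-, x, hx, h1⟩ := geo_mem_near.1 ha
  obtain ⟨-, y, hy, h2⟩ := geo_mem_near.1 hb
  exact zon_uniq hv hj hk ((geo_mem_under h0).1 hx) ((geo_mem_under h0).1 hy)
    (geo_par_nr h0 (geo_nr_mono (geo_nr_trans (geo_nr_trans h1 hn) (geo_nr_symm h2)) (by omega)))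

theorem zon_disj (hL : 2 * s0 + 1 ≤ L) (hv : valid D C) :
    ∀ j ∈ jj D C, ∀ k ∈ jj D C, j ≠ k → Disjoint (zn L s0 D j.2) (zn L s0 D k.2) :=
  fun _ hj _ hk e => disjoint_left.2 fun a h1 h2 =>
    e (zon_zn_uniq hL hv hj hk h1 h2 (geo_nr_refl _ a))

theorem zon_bs {b : P} {s : Lab} (h : C (par L b) = some (s, false)) :
    bs L C b = some (s, 0) := by simp [bs, h]

theorem zon_reg_bdry (h0 : 0 < L) {U : Finset P} (hU : U ⊆ D) {b : P} (hb : b ∈ reg L D U)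
    (hz : b ∉ zn L s0 D U) : par L b ∈ bdry D U :=
  geo_mem_bdry.2 ⟨(geo_mem_reg h0).1 hb, fun h => hz (zon_under_zn hU ((geo_mem_under h0).2 h))⟩

theorem zon_reg_free (h0 : 0 < L) (hv : valid D C) (hj : j ∈ jj D C) {b : P}
    (hb : b ∈ reg L D j.2) (hz : b ∉ zn L s0 D j.2) : ∃ s, C (par L b) = some (s, false) :=
  zon_bdry hv hj (zon_reg_bdry h0 (zon_sub hj) hb hz)

theorem zon_off_free (h0 : 0 < L) {b : P} (hb : b ∈ under L D)
    (hz : ∀ j ∈ jj D C, b ∉ zn L s0 D j.2) : ∃ s, C (par L b) = some (s, false) :=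
  zon_free ((geo_mem_under h0).1 hb) fun h => by
    obtain ⟨j, hj, e⟩ := zon_act_ex h
    exact hz j hj (zon_under_zn (zon_sub hj) ((geo_mem_under h0).2 e))

theorem zon_rs_zn {U : Finset P} {b : P} (h : b ∈ zn L s0 D U) : rs L s0 D C U c b = c b :=
  if_pos h

theorem zon_rs_off {U : Finset P} {b : P} (hb : b ∈ reg L D U) (h : b ∉ zn L s0 D U) :
    rs L s0 D C U c b = bs L C b := by simp [rs, h, hb]

theorem zon_rs_cfgs (U : Finset P) : rs L s0 D C U c ∈ cfgs univ none (reg L D U) :=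
  geo_mem_cfgs.2 fun b hb => by
    have : b ∉ zn L s0 D U := fun h => hb (zon_zn_reg U h)
    simp [rs, this, hb]

/-- next to its zone the local configuration is the global one -/
theorem zon_rs_nb (hL : 2 * s0 + 1 ≤ L) (hv : valid D C)
    (hc : ∀ b ∈ under L D, (∀ j ∈ jj D C, b ∉ zn L s0 D j.2) → c b = bs L C b)
    (hj : j ∈ jj D C) {a b : P} (ha : a ∈ zn L s0 D j.2) (hb : b ∈ under L D) (hn : nr 1 a b) :
    rs L s0 D C j.2 c b = c b := by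
  by_cases h : b ∈ zn L s0 D j.2
  · exact zon_rs_zn h
  · rw [zon_rs_off (zon_nb_reg hL ha hb hn) h, hc b hb]
    intro k hk e
    exact h (zon_zn_uniq hL hv hj hk ha e hn ▸ e)

/-- local filters by a property that fails on plain free blocks lie in the zone -/
theorem zon_loc (h0 : 0 < L) (hv : valid D C) (hj : j ∈ jj D C) (p : Sf → Prop)
    (hp : ∀ s, ¬ p (some (s, 0))) {b : P} :
    (b ∈ reg L D j.2 ∧ p (rs L s0 D C j.2 c b)) ↔ (b ∈ zn L s0 D j.2 ∧ p (c b)) := by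
  constructor
  · rintro ⟨h1, h2⟩
    by_cases h : b ∈ zn L s0 D j.2
    · exact ⟨h, zon_rs_zn (C := C) (c := c) h ▸ h2⟩
    · obtain ⟨s, hs⟩ := zon_reg_free h0 hv hj h1 h
      rw [zon_rs_off h1 h, zon_bs hs] at h2
      exact absurd h2 (hp s)
  · rintro ⟨h1, h2⟩
    exact ⟨zon_zn_reg _ h1, by rw [zon_rs_zn h1]; exact h2⟩

theorem zon_glob (h0 : 0 < L)
    (hc : ∀ b ∈ under L D, (∀ j ∈ jj D C, b ∉ zn L s0 D j.2) → c b = bs L C b)
    (p : Sf → Prop) (hp : ∀ s, ¬ p (some (s, 0))) {b : P} :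
    (b ∈ under L D ∧ p (c b)) ↔ ∃ j ∈ jj D C, b ∈ zn L s0 D j.2 ∧ p (c b) := by
  constructor
  · rintro ⟨h1, h2⟩
    by_contra h
    have hz : ∀ j ∈ jj D C, b ∉ zn L s0 D j.2 := fun j hj e => h ⟨j, hj, e, h2⟩
    obtain ⟨s, hs⟩ := zon_off_free h0 h1 hz
    rw [hc b h1 hz, zon_bs hs] at h2
    exact hp s h2
  · rintro ⟨j, -, h1, h2⟩
    exact ⟨zon_reg_under _ (zon_zn_reg _ h1), h2⟩

theorem zon_pol_zn (h0 : 0 < L) (hv : valid D C) (hj : j ∈ jj D C) (s : Lab) {b : P} :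
    b ∈ pol (reg L D j.2) (red (rs L s0 D C j.2 c)) s ↔
      b ∈ zn L s0 D j.2 ∧ red c b = some (s, true) := by
  rw [pol, mem_filter]
  exact zon_loc h0 hv hj (fun x => x.map (fun x => (x.1, decide (2 ≤ x.2))) = some (s, true))
    (fun t => by simp)

theorem zon_pol (h0 : 0 < L) (hv : valid D C)
    (hc : ∀ b ∈ under L D, (∀ j ∈ jj D C, b ∉ zn L s0 D j.2) → c b = bs L C b) (s : Lab) :
    pol (under L D) (red c) s =
      (jj D C).biUnion fun j => pol (reg L D j.2) (red (rs L s0 D C j.2 c)) s := by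
  ext b
  rw [mem_biUnion, pol, mem_filter]
  refine (zon_glob h0 hc (fun x => x.map (fun x => (x.1, decide (2 ≤ x.2))) = some (s, true))
    (fun t => by simp)).trans (exists_congr fun j => and_congr_right fun hj => ?_)
  exact (zon_pol_zn h0 hv hj s).symm

theorem zon_comps_pol (hL : 2 * s0 + 1 ≤ L) (hv : valid D C)
    (hc : ∀ b ∈ under L D, (∀ j ∈ jj D C, b ∉ zn L s0 D j.2) → c b = bs L C b) (s : Lab) :
    comps (pol (under L D) (red c) s) =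
      (jj D C).biUnion fun j => comps (pol (reg L D j.2) (red (rs L s0 D C j.2 c)) s) := by
  have h0 : 0 < L := by omega
  rw [zon_pol h0 hv hc, geo_comps_biUnion]
  exact fun j hj k hk e a ha b hb hn => e (zon_zn_uniq hL hv hj hk
    ((zon_pol_zn h0 hv hj s).1 ha).1 ((zon_pol_zn h0 hv hk s).1 hb).1 hn)

theorem zon_mem_img {R : Finset P} {B : P} : B ∈ img L s0 R c ↔ ∃ b, par L b = B ∧
    ((b ∈ R ∧ ((∃ s, c b = some (s, 1)) ∨ (∃ s, c b = some (s, 3)) ∨ c b = none)) ∨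
      ∃ s, ∃ X ∈ comps (pol R (red c) s), s0 < X.card ∧ b ∈ X) := by
  simp only [img, kind, bad, red, mem_image, mem_union, mem_filter, mem_biUnion, mem_univ,
    true_and, id, Option.map_eq_none_iff]
  refine exists_congr fun b => ?_
  constructor
  · rintro ⟨((h | h) | h) | ⟨s, X, h1, h2⟩, e⟩
    · exact ⟨e, .inl ⟨h.1, .inl h.2⟩⟩
    · exact ⟨e, .inl ⟨h.1, .inr (.inl h.2)⟩⟩
    · exact ⟨e, .inl ⟨h.1, .inr (.inr h.2)⟩⟩
    · exact ⟨e, .inr ⟨s, X, h1.1, h1.2, h2⟩⟩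
  · rintro ⟨e, ⟨h, h1 | h1 | h1⟩ | ⟨s, X, h1, h2, h3⟩⟩
    · exact ⟨.inl (.inl (.inl ⟨h, h1⟩)), e⟩
    · exact ⟨.inl (.inl (.inr ⟨h, h1⟩)), e⟩
    · exact ⟨.inl (.inr ⟨h, h1⟩), e⟩
    · exact ⟨.inr ⟨s, X, ⟨h1, h2⟩, h3⟩, e⟩

theorem zon_img_sub (h0 : 0 < L) (W : Finset P) : img L s0 (under L W) c ⊆ W := fun B hB => by
  obtain ⟨b, rfl, h | ⟨s, X, h1, -, h2⟩⟩ := zon_mem_img.1 hB
  · exact (geo_mem_under h0).1 h.1
  · exact (geo_mem_under h0).1 (mem_filter.1 (geo_comps_sub h1 h2)).1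

theorem zon_img (hL : 2 * s0 + 1 ≤ L) (hv : valid D C)
    (hc : ∀ b ∈ under L D, (∀ j ∈ jj D C, b ∉ zn L s0 D j.2) → c b = bs L C b) {B : P} :
    B ∈ img L s0 (under L D) c ↔
      ∃ j ∈ jj D C, B ∈ img L s0 (reg L D j.2) (rs L s0 D C j.2 c) := by
  have h0 : 0 < L := by omega
  have hp : ∀ t : Lab, ¬ ((∃ s, (some (t, 0) : Sf) = some (s, 1)) ∨
      (∃ s, (some (t, 0) : Sf) = some (s, 3)) ∨ (some (t, 0) : Sf) = none) := fun t => by simp
  simp only [zon_mem_img, zon_comps_pol hL hv hc, mem_biUnion]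
  constructor
  · rintro ⟨b, e, h | ⟨s, X, ⟨j, hj, h1⟩, h2⟩⟩
    · obtain ⟨j, hj, h1⟩ := (zon_glob h0 hc (fun x => (∃ s, x = some (s, 1)) ∨
        (∃ s, x = some (s, 3)) ∨ x = none) hp).1 h
      exact ⟨j, hj, b, e, .inl ((zon_loc h0 hv hj (fun x => (∃ s, x = some (s, 1)) ∨
        (∃ s, x = some (s, 3)) ∨ x = none) hp).2 h1)⟩
    · exact ⟨j, hj, b, e, .inr ⟨s, X, h1, h2⟩⟩
  · rintro ⟨j, hj, b, e, h | ⟨s, X, h1, h2⟩⟩
    · exact ⟨b, e, .inl ((zon_glob h0 hc (fun x => (∃ s, x = some (s, 1)) ∨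
        (∃ s, x = some (s, 3)) ∨ x = none) hp).2 ⟨j, hj, (zon_loc h0 hv hj
        (fun x => (∃ s, x = some (s, 1)) ∨ (∃ s, x = some (s, 3)) ∨ x = none) hp).1 h⟩)⟩
    · exact ⟨b, e, .inr ⟨s, X, ⟨j, hj, h1⟩, h2⟩⟩

end Pool.Agent.Lib.MP_9cc147_pr.Cx
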